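import Pool.Agent.R319.SG.Defs

/-! SG-PE (helper515). -/

open MeasureTheory ProbabilityTheory Filter Topology
open scoped ENNReal

namespace Pool.Agent.R319.SG

open Pool.Agent.R319.UM (box ez mon V2 cue)

/-- PE1 -/
theorem gap_meas {N : ℕ} : Measurable (gap (N := N)) := by
  unfold gap
  refine Measurable.iInf fun i => Measurable.iInf fun j => Measurable.iInf fun _ => ?_
  exact (((measurable_pi_apply i).sub (measurable_pi_apply j)).norm).ennreal_ofReal

/-- PE3 -/
theorem conf_meas (N : ℕ) : Measurable (conf N) := by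
  rw [measurable_pi_iff]
  intro j
  unfold conf
  split_ifs
  · exact measurable_const
  · exact measurable_id
  · exact measurable_const

theorem pe_dist (x y : ℝ) : ‖Complex.exp (Complex.I * x) - Complex.exp (Complex.I * y)‖ =
    2 * |Real.sin ((x - y) / 2)| := by
  have h1 : Complex.exp (Complex.I * x) - Complex.exp (Complex.I * y) =
      Complex.exp (Complex.I * y) * (Complex.exp (Complex.I * ((x - y : ℝ) : ℂ)) - 1) := by
    rw [mul_sub, ← Complex.exp_add, mul_one]
    congr 2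
    push_cast
    ring
  rw [h1, norm_mul, mul_comm Complex.I (y : ℂ), Complex.norm_exp_ofReal_mul_I, one_mul,
    Complex.norm_exp_I_mul_ofReal_sub_one, Real.norm_eq_abs, abs_mul, abs_two]

theorem pe_lower {x y : ℝ} (h : |x - y| ≤ 3) :
    |x - y| / 2 ≤ ‖Complex.exp (Complex.I * x) - Complex.exp (Complex.I * y)‖ := by
  rw [pe_dist]
  have hπ := Real.pi_gt_three
  have hπ4 := Real.pi_le_four
  have h1 : |Real.sin ((x - y) / 2)| = Real.sin (|x - y| / 2) := by
    have h2 : |Real.sin ((x - y) / 2)| = Real.sin |(x - y) / 2| := by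
      rw [Real.abs_sin_eq_sin_abs_of_abs_le_pi]
      rw [abs_div, abs_two]
      linarith
    rw [h2, abs_div, abs_two]
  rw [h1]
  have h3 := Real.mul_le_sin (x := |x - y| / 2) (by positivity) (by linarith)
  have h4 : |x - y| / 4 ≤ 2 / Real.pi * (|x - y| / 2) := by
    have h5 : 1 / 4 ≤ 1 / Real.pi := one_div_le_one_div_of_le (by linarith) hπ4
    have h6 : 0 ≤ |x - y| := abs_nonneg _
    have h7 : 2 / Real.pi * (|x - y| / 2) = 1 / Real.pi * |x - y| := by ring
    rw [h7]
    nlinarith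
  linarith

theorem pe_angles {N : ℕ} (hN : 2 ≤ N) {s : ℝ} (hs : s ∈ Set.Icc (0 : ℝ) 1) {i j : Fin N}
    (hij : i ≠ j) : |conf N s i - conf N s j| ≤ 3 ∧
      (|conf N s i - conf N s j| = s ∨ 1 / (N : ℝ) ≤ |conf N s i - conf N s j|) := by
  have hN0 : (0 : ℝ) < N := by
    have : 0 < N := by omega
    exact_mod_cast this
  obtain ⟨hs0, hs1⟩ := hs
  wlog hlt : (i : ℕ) < (j : ℕ) generalizing i j
  · have hji : (j : ℕ) < (i : ℕ) := by
      have : (i : ℕ) ≠ (j : ℕ) := fun h => hij (Fin.ext h)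
      omega
    have := this hij.symm hji
    rw [abs_sub_comm]
    exact this
  have hj1 : ((j : ℕ) : ℝ) / N ≤ 1 := by
    rw [div_le_one hN0]
    exact_mod_cast j.2.le
  have hj0 : 0 ≤ ((j : ℕ) : ℝ) / N := by positivity
  have hN1 : 1 / (N : ℝ) ≤ 1 := by
    rw [div_le_one hN0]
    have : 1 ≤ N := by omega
    exact_mod_cast this
  unfold conf
  by_cases hi0 : (i : ℕ) = 0
  · rw [if_pos hi0, if_neg (by omega : ¬ (j : ℕ) = 0)]
    by_cases hj : (j : ℕ) = 1
    · rw [if_pos hj]
      have : |0 - s| = s := by rw [zero_sub, abs_neg, abs_of_nonneg hs0]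
      rw [this]
      exact ⟨by linarith, Or.inl rfl⟩
    · rw [if_neg hj, zero_sub, abs_neg, abs_of_nonneg (by linarith)]
      exact ⟨by linarith, Or.inr (by linarith)⟩
  · rw [if_neg hi0, if_neg (by omega : ¬ (j : ℕ) = 0), if_neg (by omega : ¬ (j : ℕ) = 1)]
    by_cases hi : (i : ℕ) = 1
    · rw [if_pos hi, abs_sub_comm, abs_of_nonneg (by linarith)]
      refine ⟨by linarith, Or.inr ?_⟩
      have h2 : 1 / (N : ℝ) ≤ ((j : ℕ) : ℝ) / N := by
        gcongr
        have : 1 ≤ (j : ℕ) := by omega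
        exact_mod_cast this
      linarith
    · rw [if_neg hi]
      have h2 : 1 / (N : ℝ) ≤ ((j : ℕ) : ℝ) / N - ((i : ℕ) : ℝ) / N := by
        rw [← sub_div]
        gcongr
        have : ((i : ℕ) : ℝ) + 1 ≤ ((j : ℕ) : ℝ) := by exact_mod_cast hlt
        linarith
      have h3 : 0 ≤ ((i : ℕ) : ℝ) / N := by positivity
      have h4 : (0 : ℝ) ≤ 1 / (N : ℝ) := by positivity
      have h5 : |2 + ((i : ℕ) : ℝ) / N - (2 + ((j : ℕ) : ℝ) / N)| =
          ((j : ℕ) : ℝ) / N - ((i : ℕ) : ℝ) / N := by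
        rw [abs_sub_comm, abs_of_nonneg (by linarith)]
        ring
      rw [h5]
      exact ⟨by linarith, Or.inr h2⟩

/-- PE2 -/
theorem gap_conf {N : ℕ} (hN : 2 ≤ N) : ∃ c : ℝ, 0 < c ∧ ∀ s ∈ Set.Icc (0 : ℝ) 1,
    gap (ez (conf N s)) ≤ ENNReal.ofReal s ∧
    ∀ t : ℝ, 0 ≤ t → t < c → gap (ez (conf N s)) ≤ ENNReal.ofReal t → s ≤ 2 * t := by
  have hN0 : (0 : ℝ) < N := by
    have : 0 < N := by omega
    exact_mod_cast this
  refine ⟨1 / (N : ℝ) / 2, by positivity, fun s hs => ⟨?_, fun t ht htc hgap => ?_⟩⟩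
  · have h01 : (⟨0, by omega⟩ : Fin N) ≠ ⟨1, by omega⟩ := by
      intro h
      have := congrArg Fin.val h
      simp at this
    refine (iInf_le_of_le (⟨0, by omega⟩ : Fin N) (iInf_le_of_le (⟨1, by omega⟩ : Fin N)
      (iInf_le_of_le h01 le_rfl))).trans ?_
    refine ENNReal.ofReal_le_ofReal ?_
    have h0 : conf N s (⟨0, by omega⟩ : Fin N) = 0 := by simp [conf]
    have h1 : conf N s (⟨1, by omega⟩ : Fin N) = s := by simp [conf]
    unfold ez
    rw [h0, h1, pe_dist]
    have h2 : |Real.sin ((0 - s) / 2)| ≤ |(0 - s) / 2| := Real.abs_sin_le_abs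
    rw [abs_div, abs_two, zero_sub, abs_neg, abs_of_nonneg hs.1] at h2
    rw [zero_sub]
    linarith
  · have key : ENNReal.ofReal (min (1 / (N : ℝ) / 2) (s / 2)) ≤ gap (ez (conf N s)) := by
      refine le_iInf fun i => le_iInf fun j => le_iInf fun hij => ENNReal.ofReal_le_ofReal ?_
      obtain ⟨h1, h2⟩ := pe_angles hN hs hij
      have h3 := pe_lower h1
      refine le_trans ?_ h3
      rcases h2 with h2 | h2
      · rw [h2]; exact min_le_right _ _
      · exact (min_le_left _ _).trans (by linarith)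
    have h4 := (ENNReal.ofReal_le_ofReal_iff ht).1 (key.trans hgap)
    rcases min_le_iff.1 h4 with h5 | h5
    · linarith
    · linarith

end Pool.Agent.R319.SG
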