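import Mathlib

/-!
# One-variable Nikolskii and Remez type inequalities for polynomials on the unit circle
-/

set_option autoImplicit false
set_option maxHeartbeats 1000000

open MeasureTheory Set

namespace Pool.Agent.R319.SG

noncomputable section

namespace NKaux

/-- the function `θ ↦ p(e^{iθ})` is continuous -/
lemma cont (p : Polynomial ℂ) :
    Continuous (fun θ : ℝ => p.eval (Complex.exp (Complex.I * θ))) := by
  have h : Continuous (fun θ : ℝ => Complex.exp (Complex.I * θ)) := by fun_prop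
  exact p.continuous.comp h

lemma intOn {E : Type*} [NormedAddCommGroup E] {f : ℝ → E} (hf : Continuous f) :
    IntegrableOn f (Ioc (0 : ℝ) (2 * Real.pi)) :=
  (hf.integrableOn_Icc (a := 0) (b := 2 * Real.pi)).mono_set Ioc_subset_Icc_self

/-- orthogonality -/
lemma ortho (k m : ℕ) :
    ∫ θ in Ioc (0 : ℝ) (2 * Real.pi), Complex.exp (Complex.I * θ) ^ k *
      Complex.exp (-(Complex.I * m * θ)) = if k = m then (2 * Real.pi : ℂ) else 0 := by
  have h1 : ∀ θ : ℝ, Complex.exp (Complex.I * θ) ^ k * Complex.exp (-(Complex.I * m * θ)) =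
      Complex.exp ((Complex.I * ((k : ℂ) - m)) * θ) := by
    intro θ
    rw [← Complex.exp_nat_mul, ← Complex.exp_add]
    congr 1
    ring
  simp_rw [h1]
  rw [← intervalIntegral.integral_of_le (by positivity)]
  split_ifs with h
  · subst h
    simp
  · have hc : Complex.I * ((k : ℂ) - m) ≠ 0 := by
      refine mul_ne_zero Complex.I_ne_zero (sub_ne_zero.2 ?_)
      exact_mod_cast h
    rw [integral_exp_mul_complex hc]
    have h2 : Complex.exp (Complex.I * ((k : ℂ) - m) * ((2 * Real.pi : ℝ) : ℂ)) = 1 := by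
      have := Complex.exp_int_mul_two_pi_mul_I ((k : ℤ) - m)
      rw [← this]
      congr 1
      push_cast
      ring
    rw [h2]
    simp

lemma coeff_le (n : ℕ) (p : Polynomial ℂ) (hp : p.natDegree ≤ n) (m : ℕ) (hm : m ≤ n) :
    ‖p.coeff m‖ ≤ 1 / (2 * Real.pi) *
      ∫ θ in Ioc (0 : ℝ) (2 * Real.pi), ‖p.eval (Complex.exp (Complex.I * θ))‖ := by
  have hpi := Real.pi_pos
  have h1 : ∫ θ in Ioc (0 : ℝ) (2 * Real.pi), p.eval (Complex.exp (Complex.I * θ)) *
      Complex.exp (-(Complex.I * m * θ)) = 2 * Real.pi * p.coeff m := by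
    have h2 : ∀ θ : ℝ, p.eval (Complex.exp (Complex.I * θ)) * Complex.exp (-(Complex.I * m * θ)) =
        ∑ k ∈ Finset.range (n + 1), p.coeff k * (Complex.exp (Complex.I * θ) ^ k *
          Complex.exp (-(Complex.I * m * θ))) := by
      intro θ
      rw [Polynomial.eval_eq_sum_range' (Nat.lt_succ_of_le hp), Finset.sum_mul]
      exact Finset.sum_congr rfl (fun k _ => by ring)
    simp_rw [h2]
    rw [integral_finsetSum]
    · simp_rw [integral_const_mul, ortho]
      rw [Finset.sum_eq_single m]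
      · simp; ring
      · intro b _ hb
        simp [hb]
      · intro h
        exact absurd (Finset.mem_range.2 (Nat.lt_succ_of_le hm)) h
    · intro k _
      refine intOn (E := ℂ) (f := fun θ : ℝ => p.coeff k * (Complex.exp (Complex.I * θ) ^ k *
          Complex.exp (-(Complex.I * m * θ)))) ?_
      fun_prop
  have h3 : ‖(2 * Real.pi * p.coeff m : ℂ)‖ ≤
      ∫ θ in Ioc (0 : ℝ) (2 * Real.pi), ‖p.eval (Complex.exp (Complex.I * θ))‖ := by
    rw [← h1]
    refine (norm_integral_le_integral_norm _).trans (le_of_eq ?_)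
    congr 1
    funext θ
    rw [norm_mul]
    have : ‖Complex.exp (-(Complex.I * m * θ))‖ = 1 := by
      rw [Complex.norm_exp]
      simp
    rw [this, mul_one]
  rw [norm_mul] at h3
  have h4 : ‖(2 * Real.pi : ℂ)‖ = 2 * Real.pi := by
    rw [norm_mul, Complex.norm_real, Real.norm_of_nonneg hpi.le]
    simp
  rw [h4] at h3
  rw [one_div, inv_mul_eq_div, le_div_iff₀ (by positivity)]
  linarith

/-- the arc has measure at most `3πδ` -/
lemma arc_measure (u δ : ℝ) (hδ : 0 ≤ δ) :
    volume.real (Ioc (0 : ℝ) (2 * Real.pi) ∩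
      {θ : ℝ | ‖Complex.exp (Complex.I * θ) - Complex.exp (Complex.I * u)‖ < δ}) ≤
        3 * Real.pi * δ := by
  have hpi := Real.pi_pos
  set v := toIocMod Real.two_pi_pos 0 u with hv
  have hv1 : v ∈ Ioc (0 : ℝ) (0 + 2 * Real.pi) := toIocMod_mem_Ioc Real.two_pi_pos 0 u
  have hv2 : Complex.exp (Complex.I * u) = Complex.exp (Complex.I * v) := by
    have h := self_sub_toIocDiv_zsmul Real.two_pi_pos 0 u
    have h' : u = v + toIocDiv Real.two_pi_pos 0 u * (2 * Real.pi) := by
      rw [hv, ← h, zsmul_eq_mul]; ring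
    have h'' : (u : ℂ) = v + ((toIocDiv Real.two_pi_pos 0 u : ℤ) : ℂ) * (2 * Real.pi) := by
      exact_mod_cast h'
    have h1 : Complex.I * u = Complex.I * v + (toIocDiv Real.two_pi_pos 0 u : ℤ) *
        (2 * Real.pi * Complex.I) := by
      generalize toIocDiv Real.two_pi_pos 0 u = k at h''
      rw [h'']
      ring
    rw [h1, Complex.exp_add, Complex.exp_int_mul_two_pi_mul_I, mul_one]
  have key : Ioc (0 : ℝ) (2 * Real.pi) ∩
      {θ : ℝ | ‖Complex.exp (Complex.I * θ) - Complex.exp (Complex.I * u)‖ < δ} ⊆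
      Metric.ball v (Real.pi * δ / 2) ∪ (Metric.ball (v + 2 * Real.pi) (Real.pi * δ / 2) ∪
        Metric.ball (v - 2 * Real.pi) (Real.pi * δ / 2)) := by
    rintro θ ⟨⟨h1, h2⟩, h3⟩
    rw [mem_ofPred_eq, hv2] at h3
    have h4 : ‖Complex.exp (Complex.I * θ) - Complex.exp (Complex.I * v)‖ =
        2 * |Real.sin ((θ - v) / 2)| := by
      have e1 : Complex.exp (Complex.I * θ) - Complex.exp (Complex.I * v) =
          Complex.exp (Complex.I * v) * (Complex.exp (Complex.I * ((θ - v : ℝ) : ℂ)) - 1) := by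
        rw [mul_sub, ← Complex.exp_add, mul_one]
        congr 2
        push_cast
        ring
      rw [e1, norm_mul, Complex.norm_exp]
      simp only [Complex.mul_re, Complex.I_re, Complex.ofReal_re, Complex.I_im, Complex.ofReal_im,
        zero_mul, mul_zero, sub_zero, Real.exp_zero, one_mul]
      rw [Complex.norm_exp_I_mul_ofReal_sub_one, Real.norm_eq_abs, abs_mul]
      norm_num
    rw [h4] at h3
    have h5 : |θ - v| < 2 * Real.pi := by
      rw [abs_lt]; constructor <;> linarith [hv1.1, hv1.2]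
    set t := |θ - v| / 2 with ht
    have ht0 : 0 ≤ t := by positivity
    have htp : t < Real.pi := by linarith
    have h6 : |Real.sin ((θ - v) / 2)| = Real.sin t := by
      rw [ht]
      rcases abs_cases (θ - v) with ⟨h7, h8⟩ | ⟨h7, h8⟩
      · rw [h7]
        exact abs_of_nonneg (Real.sin_nonneg_of_nonneg_of_le_pi (by linarith)
          (by rw [h7] at h5; linarith))
      · rw [h7, neg_div, Real.sin_neg]
        have : Real.sin ((θ - v) / 2) ≤ 0 := by
          have h9 := Real.sin_nonneg_of_nonneg_of_le_pi (x := -((θ - v) / 2)) (by linarith)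
            (by rw [h7] at h5; linarith)
          rw [Real.sin_neg] at h9
          linarith
        exact abs_of_nonpos this
    rw [h6] at h3
    rcases le_or_gt t (Real.pi / 2) with h7 | h7
    · have h8 := Real.mul_le_sin ht0 h7
      left
      rw [Metric.mem_ball, Real.dist_eq]
      have h9 : 2 * (2 / Real.pi * t) < δ := by linarith
      have h10 : 4 * t < δ * Real.pi := by
        have := mul_lt_mul_of_pos_right h9 hpi
        have e : 2 * (2 / Real.pi * t) * Real.pi = 4 * t := by field_simp; ring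
        linarith
      have : |θ - v| = 2 * t := by rw [ht]; ring
      rw [this]
      linarith
    · have h8 := Real.mul_le_sin (x := Real.pi - t) (by linarith) (by linarith)
      rw [Real.sin_pi_sub] at h8
      right
      have h9 : 2 * (2 / Real.pi * (Real.pi - t)) < δ := by linarith
      have h10 : 4 * (Real.pi - t) < δ * Real.pi := by
        have := mul_lt_mul_of_pos_right h9 hpi
        have e : 2 * (2 / Real.pi * (Real.pi - t)) * Real.pi = 4 * (Real.pi - t) := by
          field_simp; ring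
        linarith
      have h11 : 2 * Real.pi - |θ - v| < Real.pi * δ / 2 := by
        have : |θ - v| = 2 * t := by rw [ht]; ring
        rw [this]
        linarith
      rcases abs_cases (θ - v) with ⟨h12, h13⟩ | ⟨h12, h13⟩
      · left
        rw [Metric.mem_ball, Real.dist_eq, abs_lt]
        rw [h12] at h11 h5
        constructor <;> linarith
      · right
        rw [Metric.mem_ball, Real.dist_eq, abs_lt]
        rw [h12] at h11 h5
        constructor <;> linarith
  have hb : ∀ a : ℝ, volume.real (Metric.ball a (Real.pi * δ / 2)) = Real.pi * δ := by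
    intro a
    rw [Measure.real, Real.volume_ball, ENNReal.toReal_ofReal (by positivity)]
    ring
  have hfin : volume (Metric.ball v (Real.pi * δ / 2) ∪ (Metric.ball (v + 2 * Real.pi)
      (Real.pi * δ / 2) ∪ Metric.ball (v - 2 * Real.pi) (Real.pi * δ / 2))) ≠ ⊤ := by
    refine (measure_union_lt_top measure_ball_lt_top
      (measure_union_lt_top measure_ball_lt_top measure_ball_lt_top)).ne
  refine (measureReal_mono key hfin).trans ?_
  refine (measureReal_union_le _ _).trans ?_
  refine (add_le_add le_rfl (measureReal_union_le _ _)).trans ?_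
  rw [hb, hb, hb]
  linarith

end NKaux

open NKaux

theorem nik (n : ℕ) (p : Polynomial ℂ) (hp : p.natDegree ≤ n) (θ₀ : ℝ) :
    ‖p.eval (Complex.exp (Complex.I * θ₀))‖ ≤ (n + 1) / (2 * Real.pi) *
      ∫ θ in Set.Ioc (0 : ℝ) (2 * Real.pi), ‖p.eval (Complex.exp (Complex.I * θ))‖ := by
  rw [Polynomial.eval_eq_sum_range' (Nat.lt_succ_of_le hp)]
  refine (norm_sum_le _ _).trans ?_
  have h1 : ∀ k ∈ Finset.range (n + 1),
      ‖p.coeff k * Complex.exp (Complex.I * θ₀) ^ k‖ ≤ 1 / (2 * Real.pi) *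
      ∫ θ in Ioc (0 : ℝ) (2 * Real.pi), ‖p.eval (Complex.exp (Complex.I * θ))‖ := by
    intro k hk
    rw [norm_mul, norm_pow]
    have : ‖Complex.exp (Complex.I * θ₀)‖ = 1 := by
      rw [Complex.norm_exp]; simp
    rw [this, one_pow, mul_one]
    exact coeff_le n p hp k (Nat.lt_succ_iff.1 (Finset.mem_range.1 hk))
  refine (Finset.sum_le_sum h1).trans (le_of_eq ?_)
  rw [Finset.sum_const, Finset.card_range, nsmul_eq_mul]
  push_cast
  ring

theorem arc (n : ℕ) (p : Polynomial ℂ) (hp : p.natDegree ≤ n) (u δ : ℝ) (hδ : 0 ≤ δ) :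
    ∫ θ in Set.Ioc (0 : ℝ) (2 * Real.pi) ∩
      {θ | ‖Complex.exp (Complex.I * θ) - Complex.exp (Complex.I * u)‖ < δ},
        ‖p.eval (Complex.exp (Complex.I * θ))‖ ≤
      2 * (n + 1) * δ *
        ∫ θ in Set.Ioc (0 : ℝ) (2 * Real.pi), ‖p.eval (Complex.exp (Complex.I * θ))‖ := by
  have hpi := Real.pi_pos
  set S := Ioc (0 : ℝ) (2 * Real.pi) ∩
      {θ : ℝ | ‖Complex.exp (Complex.I * θ) - Complex.exp (Complex.I * u)‖ < δ} with hS
  set J := ∫ θ in Set.Ioc (0 : ℝ) (2 * Real.pi), ‖p.eval (Complex.exp (Complex.I * θ))‖ with hJ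
  have hJ0 : 0 ≤ J := integral_nonneg (fun _ => norm_nonneg _)
  have hfin : volume S ≠ ⊤ :=
    ((measure_mono inter_subset_left).trans_lt measure_Ioc_lt_top).ne
  have hm : MeasurableSet S := by
    refine measurableSet_Ioc.inter (measurableSet_lt ?_ measurable_const)
    exact (Continuous.norm (by fun_prop)).measurable
  have h1 : ∫ θ in S, ‖p.eval (Complex.exp (Complex.I * θ))‖ ≤
      ∫ θ in S, (n + 1) / (2 * Real.pi) * J := by
    refine setIntegral_mono_on ((intOn (cont p).norm).mono_set inter_subset_left)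
      (integrableOn_const hfin) hm ?_
    intro θ _
    exact nik n p hp θ
  refine h1.trans ?_
  rw [setIntegral_const, smul_eq_mul]
  have h2 := arc_measure u δ hδ
  have h3 : volume.real S * ((n + 1) / (2 * Real.pi) * J) ≤
      3 * Real.pi * δ * ((n + 1) / (2 * Real.pi) * J) :=
    mul_le_mul_of_nonneg_right h2 (by positivity)
  refine h3.trans ?_
  have h4 : 3 * Real.pi * δ * ((n + 1) / (2 * Real.pi) * J) = 3 / 2 * ((n + 1) * δ * J) := by
    field_simp
  rw [h4]
  have h5 : 0 ≤ ((n : ℝ) + 1) * δ * J := by positivity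
  nlinarith

theorem nikw (n : ℕ) (p : Polynomial ℂ) (hp : p.natDegree ≤ n) (θ₀ u : ℝ) :
    ‖p.eval (Complex.exp (Complex.I * θ₀))‖ ≤ 6 * (n + 1) ^ 3 *
      ∫ θ in Set.Ioc (0 : ℝ) (2 * Real.pi), ‖p.eval (Complex.exp (Complex.I * θ))‖ *
        ‖Complex.exp (Complex.I * θ) - Complex.exp (Complex.I * u)‖ ^ 2 := by
  have hpi := Real.pi_pos
  have hpi3 := Real.pi_gt_three
  set δ : ℝ := 1 / (4 * (n + 1)) with hδ
  have hδ0 : 0 < δ := by positivity
  set B := {θ : ℝ | ‖Complex.exp (Complex.I * θ) - Complex.exp (Complex.I * u)‖ < δ} with hB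
  set I1 := ∫ θ in Set.Ioc (0 : ℝ) (2 * Real.pi), ‖p.eval (Complex.exp (Complex.I * θ))‖ with hI1
  set J := ∫ θ in Set.Ioc (0 : ℝ) (2 * Real.pi), ‖p.eval (Complex.exp (Complex.I * θ))‖ *
        ‖Complex.exp (Complex.I * θ) - Complex.exp (Complex.I * u)‖ ^ 2 with hJ
  have hBm : MeasurableSet B :=
    measurableSet_lt (Continuous.norm (by fun_prop)).measurable measurable_const
  have h1 := arc n p hp u δ hδ0.le
  have h2 : 2 * ((n : ℝ) + 1) * δ = 1 / 2 := by
    rw [hδ]; field_simp; norm_num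
  rw [h2] at h1
  have hint := intOn (cont p).norm
  have h3 : (∫ θ in Ioc (0 : ℝ) (2 * Real.pi) ∩ B, ‖p.eval (Complex.exp (Complex.I * θ))‖) +
      ∫ θ in Ioc (0 : ℝ) (2 * Real.pi) \ B, ‖p.eval (Complex.exp (Complex.I * θ))‖ = I1 :=
    integral_inter_add_sdiff hBm hint
  have hc2 : Continuous (fun θ : ℝ => ‖p.eval (Complex.exp (Complex.I * θ))‖ *
        ‖Complex.exp (Complex.I * θ) - Complex.exp (Complex.I * u)‖ ^ 2) := by
    refine (cont p).norm.mul (Continuous.pow (Continuous.norm ?_) 2)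
    fun_prop
  have hint2 := intOn hc2
  have h4 : ∫ θ in Ioc (0 : ℝ) (2 * Real.pi) \ B, ‖p.eval (Complex.exp (Complex.I * θ))‖ ≤
      ∫ θ in Ioc (0 : ℝ) (2 * Real.pi) \ B, (δ ^ 2)⁻¹ * (‖p.eval (Complex.exp (Complex.I * θ))‖ *
        ‖Complex.exp (Complex.I * θ) - Complex.exp (Complex.I * u)‖ ^ 2) := by
    refine setIntegral_mono_on (hint.mono_set sdiff_subset) ?_ (measurableSet_Ioc.diff hBm) ?_
    · exact (hint2.mono_set sdiff_subset).const_mul _
    · rintro θ ⟨_, h5⟩
      have h6 : δ ≤ ‖Complex.exp (Complex.I * θ) - Complex.exp (Complex.I * u)‖ := by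
        simpa [hB] using h5
      have h7 : δ ^ 2 ≤ ‖Complex.exp (Complex.I * θ) - Complex.exp (Complex.I * u)‖ ^ 2 := by
        gcongr
      rw [inv_mul_eq_div, le_div_iff₀ (by positivity)]
      exact mul_le_mul_of_nonneg_left h7 (norm_nonneg _)
  rw [integral_const_mul] at h4
  have h5 : ∫ θ in Ioc (0 : ℝ) (2 * Real.pi) \ B, (‖p.eval (Complex.exp (Complex.I * θ))‖ *
        ‖Complex.exp (Complex.I * θ) - Complex.exp (Complex.I * u)‖ ^ 2) ≤ J := by
    refine setIntegral_mono_set hint2 ?_ ?_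
    · exact Filter.Eventually.of_forall (fun θ => by positivity)
    · exact (sdiff_subset).eventuallyLE
  have hδi : (δ ^ 2)⁻¹ = 16 * ((n : ℝ) + 1) ^ 2 := by
    rw [hδ]; field_simp; norm_num
  rw [hδi] at h4
  have h6 : I1 ≤ 32 * ((n : ℝ) + 1) ^ 2 * J := by
    have h7 : 16 * ((n : ℝ) + 1) ^ 2 * ∫ θ in Ioc (0 : ℝ) (2 * Real.pi) \ B,
        (‖p.eval (Complex.exp (Complex.I * θ))‖ *
        ‖Complex.exp (Complex.I * θ) - Complex.exp (Complex.I * u)‖ ^ 2) ≤
        16 * ((n : ℝ) + 1) ^ 2 * J := mul_le_mul_of_nonneg_left h5 (by positivity)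
    linarith
  have hJ0 : 0 ≤ J := integral_nonneg (fun θ => by positivity)
  have h8 := nik n p hp θ₀
  refine h8.trans ?_
  have h9 : ((n : ℝ) + 1) / (2 * Real.pi) * I1 ≤
      ((n : ℝ) + 1) / (2 * Real.pi) * (32 * ((n : ℝ) + 1) ^ 2 * J) :=
    mul_le_mul_of_nonneg_left h6 (by positivity)
  refine h9.trans ?_
  rw [div_mul_eq_mul_div, div_le_iff₀ (by positivity)]
  have h10 : 0 ≤ ((n : ℝ) + 1) ^ 3 * J := by positivity
  nlinarith

end

end Pool.Agent.R319.SG
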