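import Pool.Agent.R319.SG.Defs2
import Pool.Agent.R319.SG.NK

/-!
From one variable to all variables: the mass near the diagonal.
-/

open MeasureTheory ProbabilityTheory Filter Topology
open scoped ENNReal

namespace Pool.Agent.R319.SG

open Pool.Agent.R319.UM (box ez mon V2 cue)

/-- from the bound in one variable to the bound in all variables -/
theorem slice {N : ℕ} {f : (Fin N → ℝ) → ℝ≥0∞} (hf : Measurable f) (j : Fin N)
    {S : Set (Fin N → ℝ)} (hS : MeasurableSet S) {C : ℝ≥0∞}
    (h : ∀ θ : Fin N → ℝ, ∫⁻ t in Set.Ioc (0 : ℝ) (2 * Real.pi),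
      S.indicator f (Function.update θ j t) ≤
        C * ∫⁻ t in Set.Ioc (0 : ℝ) (2 * Real.pi), f (Function.update θ j t)) :
    ∫⁻ θ in box N ∩ S, f θ ≤ C * ∫⁻ θ in box N, f θ := by
  have hbox : (volume : Measure (Fin N → ℝ)).restrict (box N) =
      Measure.pi fun _ : Fin N => (volume : Measure ℝ).restrict (Set.Ioc 0 (2 * Real.pi)) := by
    unfold box
    rw [volume_pi, Measure.restrict_pi_pi]
  rw [Set.inter_comm, ← Measure.restrict_restrict hS, ← lintegral_indicator hS,
    ← lintegral_const_mul _ hf, hbox]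
  refine lintegral_le_of_lmarginal_le {j} (hf.indicator hS) (hf.const_mul C) ?_
  rw [lmarginal_singleton, lmarginal_singleton]
  intro θ
  have hm : Measurable fun t : ℝ => f (Function.update θ j t) :=
    hf.comp (measurable_update θ)
  change ∫⁻ t in Set.Ioc (0 : ℝ) (2 * Real.pi), S.indicator f (Function.update θ j t) ≤
    ∫⁻ t in Set.Ioc (0 : ℝ) (2 * Real.pi), C * f (Function.update θ j t)
  rw [lintegral_const_mul _ hm]
  exact h θ

/-- the bound on the mass near the diagonal, given the structure in one variable -/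
theorem closeV_aux {N : ℕ} {w : (Fin N → ℝ) → ℝ} (hw : w ∈ WW N) {i j : Fin N} (hij : i ≠ j)
    (hpoly : ∀ θ : Fin N → ℝ, ∃ p : Polynomial ℂ, p.natDegree ≤ 4 * N ∧ ∀ t : ℝ,
      |w (Function.update θ j t)| * V2 (ez (Function.update θ j t)) =
        ‖p.eval (Complex.exp (Complex.I * t))‖)
    {δ : ℝ} (hδ : 0 ≤ δ) :
    ∫⁻ θ in box N ∩ {θ | ‖ez θ i - ez θ j‖ < δ}, ENNReal.ofReal (|w θ| * V2 (ez θ)) ≤
      ENNReal.ofReal (2 * (4 * N + 1) * δ) *
        ∫⁻ θ in box N, ENNReal.ofReal (|w θ| * V2 (ez θ)) := by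
  have hfm : Measurable fun θ : Fin N → ℝ => ENNReal.ofReal (|w θ| * V2 (ez θ)) :=
    (((cont hw).abs.mul V2_cont).measurable).ennreal_ofReal
  have hS : MeasurableSet {θ : Fin N → ℝ | ‖ez θ i - ez θ j‖ < δ} :=
    (isOpen_lt (dist_cont i j) continuous_const).measurableSet
  refine slice hfm j hS fun θ => ?_
  obtain ⟨p, hp, hpe⟩ := hpoly θ
  set T : Set ℝ := {t : ℝ | ‖Complex.exp (Complex.I * t) - Complex.exp (Complex.I * θ i)‖ < δ}
    with hT
  have hcT : Continuous fun t : ℝ =>
      ‖Complex.exp (Complex.I * t) - Complex.exp (Complex.I * θ i)‖ := by fun_prop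
  have hTm : MeasurableSet T := (isOpen_lt hcT continuous_const).measurableSet
  have hcp : Continuous fun t : ℝ => ‖p.eval (Complex.exp (Complex.I * t))‖ := by
    have h1 : Continuous fun z : ℂ => p.eval z := p.continuous
    have h2 : Continuous fun t : ℝ => Complex.exp (Complex.I * t) := by fun_prop
    exact (h1.comp h2).norm
  have hint : IntegrableOn (fun t : ℝ => ‖p.eval (Complex.exp (Complex.I * t))‖)
      (Set.Ioc (0 : ℝ) (2 * Real.pi)) :=
    (hcp.continuousOn.integrableOn_compact isCompact_Icc).mono_set Set.Ioc_subset_Icc_self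
  have hL : ∫⁻ t in Set.Ioc (0 : ℝ) (2 * Real.pi),
      {θ : Fin N → ℝ | ‖ez θ i - ez θ j‖ < δ}.indicator
        (fun θ => ENNReal.ofReal (|w θ| * V2 (ez θ))) (Function.update θ j t) =
      ENNReal.ofReal (∫ t in Set.Ioc (0 : ℝ) (2 * Real.pi) ∩ T,
        ‖p.eval (Complex.exp (Complex.I * t))‖) := by
    rw [ofReal_integral_eq_lintegral_ofReal (hint.mono_set Set.inter_subset_left)
      (Eventually.of_forall fun t => norm_nonneg _), Set.inter_comm,
      ← Measure.restrict_restrict hTm, ← lintegral_indicator hTm]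
    refine lintegral_congr fun t => ?_
    have e1 : ez (Function.update θ j t) i = Complex.exp (Complex.I * θ i) := by
      unfold ez
      rw [Function.update_of_ne hij]
    have e2 : ez (Function.update θ j t) j = Complex.exp (Complex.I * t) := by
      unfold ez
      rw [Function.update_self]
    by_cases ht : t ∈ T
    · have h1 : Function.update θ j t ∈ {θ : Fin N → ℝ | ‖ez θ i - ez θ j‖ < δ} := by
        change ‖ez (Function.update θ j t) i - ez (Function.update θ j t) j‖ < δ
        rw [e1, e2, norm_sub_rev]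
        exact ht
      rw [Set.indicator_of_mem h1, Set.indicator_of_mem ht, hpe]
    · have h1 : Function.update θ j t ∉ {θ : Fin N → ℝ | ‖ez θ i - ez θ j‖ < δ} := by
        change ¬ ‖ez (Function.update θ j t) i - ez (Function.update θ j t) j‖ < δ
        rw [e1, e2, norm_sub_rev]
        exact ht
      rw [Set.indicator_of_notMem h1, Set.indicator_of_notMem ht]
  have hR : ∫⁻ t in Set.Ioc (0 : ℝ) (2 * Real.pi),
      ENNReal.ofReal (|w (Function.update θ j t)| * V2 (ez (Function.update θ j t))) =
      ENNReal.ofReal (∫ t in Set.Ioc (0 : ℝ) (2 * Real.pi),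
        ‖p.eval (Complex.exp (Complex.I * t))‖) := by
    rw [ofReal_integral_eq_lintegral_ofReal hint (Eventually.of_forall fun t => norm_nonneg _)]
    refine lintegral_congr fun t => ?_
    rw [hpe]
  rw [hL, hR, ← ENNReal.ofReal_mul (by positivity)]
  refine ENNReal.ofReal_le_ofReal ?_
  have h := arc (4 * N) p hp (θ i) δ hδ
  push_cast at h
  exact h

end Pool.Agent.R319.SG
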