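import Pool.Agent.R319.SG.Defs2

open MeasureTheory ProbabilityTheory Filter Topology
open scoped ENNReal

namespace Pool.Agent.R319.SG

open Pool.Agent.R319.UM (box ez mon V2 cue)

namespace PLx

variable {N : ℕ}

/-- the point on the circle -/
noncomputable def e (t : ℝ) : ℂ := Complex.exp (Complex.I * t)

lemma norm_e (t : ℝ) : ‖e t‖ = 1 := by
  rw [e, mul_comm, Complex.norm_exp_ofReal_mul_I]

lemma conj_mul_e (t : ℝ) {b M : ℕ} (hb : b ≤ M) :
    (starRingEnd ℂ) (e t ^ b) * e t ^ M = e t ^ (M - b) := by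
  have h1 : e t ^ M = e t ^ b * e t ^ (M - b) := by
    rw [← pow_add]; congr 1; omega
  have h2 : (starRingEnd ℂ) (e t ^ b) * e t ^ b = 1 := by
    rw [Complex.conj_mul', norm_pow, norm_e]
    simp
  rw [h1, ← mul_assoc, h2, one_mul]

lemma ez_upd (θ : Fin N → ℝ) (j : Fin N) (t : ℝ) (i : Fin N) :
    ez (Function.update θ j t) i = if i = j then e t else ez θ i := by
  unfold ez e
  by_cases h : i = j
  · subst h; simp
  · simp [h]

/-- the other factors of the monomial -/
noncomputable def rest (a b : Fin N → ℕ) (θ : Fin N → ℝ) (j : Fin N) : ℂ :=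
  ∏ i ∈ Finset.univ.erase j, (ez θ i ^ a i * (starRingEnd ℂ) (ez θ i ^ b i))

lemma mon_upd (a b : Fin N → ℕ) (θ : Fin N → ℝ) (j : Fin N) (t : ℝ) :
    mon a b (ez (Function.update θ j t)) =
      rest a b θ j * (e t ^ a j * (starRingEnd ℂ) (e t ^ b j)) := by
  unfold mon rest
  rw [← Finset.mul_prod_erase Finset.univ _ (Finset.mem_univ j), mul_comm]
  congr 1
  · refine Finset.prod_congr rfl fun i hi => ?_
    rw [ez_upd, if_neg (Finset.ne_of_mem_erase hi)]
  · rw [ez_upd, if_pos rfl]

lemma mon1 (a b : Fin N → ℕ) (hb : ∀ i, b i ≤ N) (θ : Fin N → ℝ) (j : Fin N)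
    (t : ℝ) : mon a b (ez (Function.update θ j t)) * e t ^ N =
      rest a b θ j * e t ^ (N - b j + a j) := by
  rw [mon_upd, pow_add, ← conj_mul_e t (hb j)]
  ring

lemma mon2 (a b : Fin N → ℕ) (ha : ∀ i, a i ≤ N) (θ : Fin N → ℝ) (j : Fin N)
    (t : ℝ) : (starRingEnd ℂ) (mon a b (ez (Function.update θ j t))) * e t ^ N =
      (starRingEnd ℂ) (rest a b θ j) * e t ^ (N - a j + b j) := by
  rw [mon_upd, pow_add, ← conj_mul_e t (ha j)]
  simp only [map_mul, RingHomCompTriple.comp_apply, RingHom.id_apply]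
  ring

lemma polyW {w : (Fin N → ℝ) → ℝ} (hw : w ∈ WW N) (j : Fin N) (θ : Fin N → ℝ) :
    ∃ p : Polynomial ℂ, p.natDegree ≤ 2 * N ∧ ∀ t : ℝ,
      (w (Function.update θ j t) : ℂ) * e t ^ N = p.eval (e t) := by
  induction hw using Submodule.span_induction with
  | mem x hx =>
    obtain ⟨q, rfl⟩ := hx
    set a : Fin N → ℕ := fun j => (q.1 j : ℕ) with ha
    set b : Fin N → ℕ := fun j => (q.2.1 j : ℕ) with hb
    have ha' : ∀ i, a i ≤ N := fun i => Nat.lt_succ_iff.1 (q.1 i).2
    have hb' : ∀ i, b i ≤ N := fun i => Nat.lt_succ_iff.1 (q.2.1 i).2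
    have hdeg : ∀ c d : ℂ, (Polynomial.C c * Polynomial.X ^ (N - b j + a j) +
        Polynomial.C d * Polynomial.X ^ (N - a j + b j)).natDegree ≤ 2 * N := by
      intro c d
      refine (Polynomial.natDegree_add_le _ _).trans (max_le ?_ ?_)
      · refine (Polynomial.natDegree_C_mul_X_pow_le _ _).trans ?_
        have := ha' j; have := hb' j; omega
      · refine (Polynomial.natDegree_C_mul_X_pow_le _ _).trans ?_
        have := ha' j; have := hb' j; omega
    by_cases hq : q.2.2 = true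
    · refine ⟨_, hdeg (rest a b θ j / 2) ((starRingEnd ℂ) (rest a b θ j) / 2), fun t => ?_⟩
      have h1 : gen N q (Function.update θ j t) = (mon a b (ez (Function.update θ j t))).re := by
        simp [gen, hq, ha, hb]
      rw [h1, Complex.re_eq_add_conj, Polynomial.eval_add, Polynomial.eval_mul,
        Polynomial.eval_mul, Polynomial.eval_C, Polynomial.eval_C, Polynomial.eval_pow,
        Polynomial.eval_pow, Polynomial.eval_X]
      have e1 := mon1 a b hb' θ j t
      have e2 := mon2 a b ha' θ j t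
      linear_combination (1 / 2 : ℂ) * e1 + (1 / 2 : ℂ) * e2
    · refine ⟨_, hdeg (rest a b θ j / (2 * Complex.I))
        (-((starRingEnd ℂ) (rest a b θ j) / (2 * Complex.I))), fun t => ?_⟩
      have h1 : gen N q (Function.update θ j t) = (mon a b (ez (Function.update θ j t))).im := by
        simp [gen, hq, ha, hb]
      rw [h1, Complex.im_eq_sub_conj, Polynomial.eval_add, Polynomial.eval_mul,
        Polynomial.eval_mul, Polynomial.eval_C, Polynomial.eval_C, Polynomial.eval_pow,
        Polynomial.eval_pow, Polynomial.eval_X]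
      have e1 := mon1 a b hb' θ j t
      have e2 := mon2 a b ha' θ j t
      linear_combination (1 / (2 * Complex.I) : ℂ) * e1 - (1 / (2 * Complex.I) : ℂ) * e2
  | zero => exact ⟨0, by simp, fun t => by simp⟩
  | add x y _ _ hx hy =>
    obtain ⟨p, hp, hp'⟩ := hx
    obtain ⟨q, hq, hq'⟩ := hy
    refine ⟨p + q, (Polynomial.natDegree_add_le _ _).trans (max_le hp hq), fun t => ?_⟩
    rw [Polynomial.eval_add, ← hp' t, ← hq' t, Pi.add_apply]
    push_cast
    ring
  | smul a x _ hx =>
    obtain ⟨p, hp, hp'⟩ := hx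
    refine ⟨Polynomial.C (a : ℂ) * p, (Polynomial.natDegree_C_mul_le _ _).trans hp, fun t => ?_⟩
    rw [Polynomial.eval_mul, Polynomial.eval_C, ← hp' t, Pi.smul_apply, smul_eq_mul]
    push_cast
    ring

/-- the linear factor -/
noncomputable def A (θ : Fin N → ℝ) (j i : Fin N) : Polynomial ℂ :=
  if i = j then Polynomial.X else Polynomial.C (ez θ i)

lemma A_eval (θ : Fin N → ℝ) (j i : Fin N) (t : ℝ) :
    (A θ j i).eval (e t) = ez (Function.update θ j t) i := by
  rw [ez_upd, A]
  split_ifs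
  · exact Polynomial.eval_X
  · exact Polynomial.eval_C

lemma A_deg (θ : Fin N → ℝ) (j i : Fin N) : (A θ j i).natDegree ≤ if i = j then 1 else 0 := by
  rw [A]
  split_ifs
  · exact Polynomial.natDegree_X_le
  · exact (Polynomial.natDegree_C _).le

/-- the product over the pairs outside of `c` -/
noncomputable def DD (c : Fin N → Fin N → Prop) [∀ i k, Decidable (c i k)] (θ : Fin N → ℝ)
    (j : Fin N) : Polynomial ℂ :=
  ∏ i, ∏ k ∈ Finset.Ioi i, if c i k then 1 else (A θ j k - A θ j i)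

lemma DD_eval (c : Fin N → Fin N → Prop) [∀ i k, Decidable (c i k)] (θ : Fin N → ℝ)
    (j : Fin N) (t : ℝ) : ‖(DD c θ j).eval (e t)‖ ^ 2 =
      ∏ i, ∏ k ∈ Finset.Ioi i, if c i k then 1 else
        ‖ez (Function.update θ j t) k - ez (Function.update θ j t) i‖ ^ 2 := by
  unfold DD
  rw [Polynomial.eval_prod, norm_prod, ← Finset.prod_pow]
  refine Finset.prod_congr rfl fun i _ => ?_
  rw [Polynomial.eval_prod, norm_prod, ← Finset.prod_pow]
  refine Finset.prod_congr rfl fun k _ => ?_
  by_cases h : c i k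
  · simp [h]
  · rw [if_neg h, if_neg h, Polynomial.eval_sub, A_eval, A_eval]

lemma DD_deg (c : Fin N → Fin N → Prop) [∀ i k, Decidable (c i k)] (θ : Fin N → ℝ)
    (j : Fin N) : (DD c θ j).natDegree ≤ N := by
  unfold DD
  have h1 : ∀ i k : Fin N, (if c i k then (1 : Polynomial ℂ) else (A θ j k - A θ j i)).natDegree ≤
      (if k = j then 1 else 0) + (if i = j then 1 else 0) := by
    intro i k
    by_cases h : c i k
    · rw [if_pos h]
      simp
    · rw [if_neg h]
      refine (Polynomial.natDegree_sub_le (A θ j k) (A θ j i)).trans (max_le ?_ ?_)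
      · refine (A_deg θ j k).trans ?_
        split_ifs <;> omega
      · refine (A_deg θ j i).trans ?_
        split_ifs <;> omega
  refine (Polynomial.natDegree_prod_le _ _).trans ?_
  have h2 : ∀ i : Fin N, (∏ k ∈ Finset.Ioi i, if c i k then (1 : Polynomial ℂ) else (A θ j k - A θ j i)).natDegree ≤
      ∑ k ∈ Finset.Ioi i, ((if k = j then 1 else 0) + (if i = j then 1 else 0)) := by
    intro i
    refine (Polynomial.natDegree_prod_le _ _).trans ?_
    exact Finset.sum_le_sum fun k _ => h1 i k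
  refine (Finset.sum_le_sum fun i _ => h2 i).trans ?_
  have h3 : ∀ i : Fin N, ∑ k ∈ Finset.Ioi i, ((if k = j then 1 else 0) +
      (if i = j then 1 else 0) : ℕ) = (if i < j then 1 else 0) +
        (if i = j then (Finset.Ioi j).card else 0) := by
    intro i
    rw [Finset.sum_add_distrib]
    congr 1
    · rw [Finset.sum_ite_eq']
      simp
    · by_cases h : i = j
      · subst h; simp
      · simp [h]
  rw [Finset.sum_congr rfl fun i _ => h3 i, Finset.sum_add_distrib, Finset.sum_ite_eq']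
  have h4 : ∑ i : Fin N, (if i < j then 1 else 0 : ℕ) = (j : ℕ) := by
    rw [← Finset.card_filter]
    have : (Finset.univ.filter fun i : Fin N => i < j) = Finset.Iio j := by
      ext i; simp
    rw [this, Fin.card_Iio]
  rw [h4, if_pos (Finset.mem_univ j), Fin.card_Ioi]
  have := j.2
  omega

lemma final {w : (Fin N → ℝ) → ℝ} (hw : w ∈ WW N) (j : Fin N) (θ : Fin N → ℝ)
    (c : Fin N → Fin N → Prop) [∀ i k, Decidable (c i k)] :
    ∃ p : Polynomial ℂ, p.natDegree ≤ 4 * N ∧ ∀ t : ℝ,
      |w (Function.update θ j t)| * (∏ i, ∏ k ∈ Finset.Ioi i, if c i k then 1 else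
        ‖ez (Function.update θ j t) k - ez (Function.update θ j t) i‖ ^ 2) =
        ‖p.eval (e t)‖ := by
  obtain ⟨P, hP, hP'⟩ := polyW hw j θ
  refine ⟨P * DD c θ j ^ 2, ?_, fun t => ?_⟩
  · refine Polynomial.natDegree_mul_le.trans ?_
    have h1 := Polynomial.natDegree_pow_le (p := DD c θ j) (n := 2)
    have h2 := DD_deg c θ j
    omega
  · rw [Polynomial.eval_mul, Polynomial.eval_pow, norm_mul, norm_pow, DD_eval, ← hP' t, norm_mul,
      norm_pow, norm_e, one_pow, mul_one]
    congr 1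
    rw [Complex.norm_real, Real.norm_eq_abs]

end PLx

open PLx

theorem polyV {N : ℕ} {w : (Fin N → ℝ) → ℝ} (hw : w ∈ WW N) (j : Fin N) (θ : Fin N → ℝ) :
    ∃ p : Polynomial ℂ, p.natDegree ≤ 4 * N ∧ ∀ t : ℝ,
      |w (Function.update θ j t)| * V2 (ez (Function.update θ j t)) =
        ‖p.eval (Complex.exp (Complex.I * t))‖ := by
  obtain ⟨p, hp, h⟩ := final hw j θ (fun _ _ => False)
  refine ⟨p, hp, fun t => ?_⟩
  have h1 := h t
  simp only [if_false] at h1
  exact h1

theorem polyQ {M : ℕ} {w : (Fin (M + 2) → ℝ) → ℝ} (hw : w ∈ WW (M + 2)) (θ : Fin (M + 2) → ℝ) :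
    ∃ p : Polynomial ℂ, p.natDegree ≤ 4 * (M + 2) ∧ ∀ t : ℝ,
      |w (Function.update θ 1 t)| * Q (ez (Function.update θ 1 t)) =
        ‖p.eval (Complex.exp (Complex.I * t))‖ := by
  obtain ⟨p, hp, h⟩ := final hw 1 θ (fun i k => i = 0 ∧ k = 1)
  exact ⟨p, hp, fun t => h t⟩

theorem polyQmv {M : ℕ} (s : ℝ) (j : Fin (M + 2)) (hj : 1 < j) (θ : Fin (M + 2) → ℝ) :
    ∃ p : Polynomial ℂ, p.natDegree ≤ 4 * (M + 2) ∧ ∀ t : ℝ,
      Q (ez (mv s (Function.update θ j t))) = ‖p.eval (Complex.exp (Complex.I * t))‖ := by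
  have h0 : (0 : Fin (M + 2)) ≠ j := by
    intro h
    rw [← h] at hj
    exact absurd hj (by simp)
  have h1 : (1 : Fin (M + 2)) ≠ j := ne_of_lt hj
  have hmv : ∀ t, mv s (Function.update θ j t) =
      Function.update (Function.update θ 1 (θ 0 + s)) j t := by
    intro t
    unfold mv
    rw [Function.update_of_ne h0, Function.update_comm h1.symm]
  obtain ⟨p, hp, h⟩ := final (one_mem (N := M + 2)) j (Function.update θ 1 (θ 0 + s))
    (fun i k => i = 0 ∧ k = 1)
  refine ⟨p, hp, fun t => ?_⟩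
  have h2 := h t
  rw [abs_one, one_mul] at h2
  rw [hmv]
  exact h2

end Pool.Agent.R319.SG
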