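import Pool.Agent.R319.SG.Defs3
import Pool.Agent.R319.SG.PL
import Pool.Agent.R319.SG.CV0

/-!
Upper bound for the law of the smallest gap of the Haar eigenvalues (helper381).
-/

open MeasureTheory ProbabilityTheory Filter Topology
open scoped ENNReal

namespace Pool.Agent.R319.SG

open Pool.Agent.R319.UM (box ez mon V2 cue)

namespace HUx

variable {N : ℕ}

/-- the Vandermonde product without the pair `(i, j)` -/
lemma V2_split {i j : Fin N} (hij : i < j) (z : Fin N → ℂ) :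
    V2 z = ‖z j - z i‖ ^ 2 * ∏ a, ∏ b ∈ Finset.Ioi a,
      if a = i ∧ b = j then 1 else ‖z b - z a‖ ^ 2 := by
  have h1 : ∀ a b : Fin N, ‖z b - z a‖ ^ 2 =
      (if a = i ∧ b = j then ‖z b - z a‖ ^ 2 else 1) *
        (if a = i ∧ b = j then 1 else ‖z b - z a‖ ^ 2) := by
    intro a b
    split_ifs <;> simp
  have h2 : V2 z = (∏ a, ∏ b ∈ Finset.Ioi a, if a = i ∧ b = j then ‖z b - z a‖ ^ 2 else 1) *
      ∏ a, ∏ b ∈ Finset.Ioi a, if a = i ∧ b = j then 1 else ‖z b - z a‖ ^ 2 := by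
    unfold V2
    rw [← Finset.prod_mul_distrib]
    refine Finset.prod_congr rfl fun a _ => ?_
    rw [← Finset.prod_mul_distrib]
    exact Finset.prod_congr rfl fun b _ => h1 a b
  rw [h2]
  congr 1
  rw [Finset.prod_eq_single i, Finset.prod_eq_single j]
  · rw [if_pos ⟨rfl, rfl⟩]
  · intro b _ hb
    rw [if_neg fun h => hb h.2]
  · intro h
    exact absurd (Finset.mem_Ioi.2 hij) h
  · intro a _ ha
    refine Finset.prod_eq_one fun b _ => ?_
    rw [if_neg fun h => ha h.1]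
  · intro h
    exact absurd (Finset.mem_univ _) h

/-- the structure in one variable -/
lemma one_var {i j : Fin N} (hij : i < j) (θ : Fin N → ℝ) :
    ∃ p : Polynomial ℂ, p.natDegree ≤ 4 * N ∧ ∀ t : ℝ, V2 (ez (Function.update θ j t)) =
      ‖p.eval (Complex.exp (Complex.I * t))‖ *
        ‖Complex.exp (Complex.I * t) - Complex.exp (Complex.I * θ i)‖ ^ 2 := by
  obtain ⟨p, hp, h⟩ := PLx.final (one_mem (N := N)) j θ (fun a b => a = i ∧ b = j)
  refine ⟨p, hp, fun t => ?_⟩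
  have h2 := h t
  rw [abs_one, one_mul] at h2
  have e1 : ez (Function.update θ j t) i = Complex.exp (Complex.I * θ i) := by
    unfold ez
    rw [Function.update_of_ne hij.ne]
  have e2 : ez (Function.update θ j t) j = Complex.exp (Complex.I * t) := by
    unfold ez
    rw [Function.update_self]
  rw [V2_split hij, h2, e1, e2, mul_comm]
  rfl

lemma pair_le {i j : Fin N} (hij : i < j) {δ : ℝ} (hδ : 0 ≤ δ) :
    ∫⁻ θ in box N ∩ {θ | ‖ez θ i - ez θ j‖ < δ}, ENNReal.ofReal (V2 (ez θ)) ≤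
      ENNReal.ofReal (57 * (4 * N + 1) ^ 3 * δ ^ 3) *
        ∫⁻ θ in box N, ENNReal.ofReal (V2 (ez θ)) := by
  have hfm : Measurable fun θ : Fin N → ℝ => ENNReal.ofReal (V2 (ez θ)) :=
    V2_cont.measurable.ennreal_ofReal
  have hS : MeasurableSet {θ : Fin N → ℝ | ‖ez θ i - ez θ j‖ < δ} :=
    (isOpen_lt (dist_cont i j) continuous_const).measurableSet
  refine slice hfm j hS fun θ => ?_
  obtain ⟨p, hp, hpe⟩ := one_var hij θ
  have hpi := Real.pi_pos
  have hpi2 := Real.pi_lt_d2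
  set T : Set ℝ := {t : ℝ | ‖Complex.exp (Complex.I * t) - Complex.exp (Complex.I * θ i)‖ < δ}
    with hT
  have hcT : Continuous fun t : ℝ =>
      ‖Complex.exp (Complex.I * t) - Complex.exp (Complex.I * θ i)‖ := by fun_prop
  have hTm : MeasurableSet T := (isOpen_lt hcT continuous_const).measurableSet
  have hcp : Continuous fun t : ℝ => ‖p.eval (Complex.exp (Complex.I * t))‖ *
      ‖Complex.exp (Complex.I * t) - Complex.exp (Complex.I * θ i)‖ ^ 2 := by
    have h1 : Continuous fun z : ℂ => p.eval z := p.continuous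
    have h2 : Continuous fun t : ℝ => Complex.exp (Complex.I * t) := by fun_prop
    exact (h1.comp h2).norm.mul (hcT.pow 2)
  have hint : IntegrableOn (fun t : ℝ => ‖p.eval (Complex.exp (Complex.I * t))‖ *
      ‖Complex.exp (Complex.I * t) - Complex.exp (Complex.I * θ i)‖ ^ 2)
      (Set.Ioc (0 : ℝ) (2 * Real.pi)) :=
    (hcp.continuousOn.integrableOn_compact isCompact_Icc).mono_set Set.Ioc_subset_Icc_self
  set J := ∫ t in Set.Ioc (0 : ℝ) (2 * Real.pi), ‖p.eval (Complex.exp (Complex.I * t))‖ *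
      ‖Complex.exp (Complex.I * t) - Complex.exp (Complex.I * θ i)‖ ^ 2 with hJ
  have hJ0 : 0 ≤ J := integral_nonneg fun t => by positivity
  have hR : ∫⁻ t in Set.Ioc (0 : ℝ) (2 * Real.pi),
      ENNReal.ofReal (V2 (ez (Function.update θ j t))) = ENNReal.ofReal J := by
    rw [hJ, ofReal_integral_eq_lintegral_ofReal hint (Eventually.of_forall fun t => by positivity)]
    refine lintegral_congr fun t => ?_
    rw [hpe]
  have hL : ∫⁻ t in Set.Ioc (0 : ℝ) (2 * Real.pi),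
      {θ : Fin N → ℝ | ‖ez θ i - ez θ j‖ < δ}.indicator
        (fun θ => ENNReal.ofReal (V2 (ez θ))) (Function.update θ j t) ≤
      ENNReal.ofReal (6 * (4 * N + 1) ^ 3 * J * δ ^ 2) * ENNReal.ofReal (3 * Real.pi * δ) := by
    have h1 : ∀ t : ℝ, {θ : Fin N → ℝ | ‖ez θ i - ez θ j‖ < δ}.indicator
        (fun θ => ENNReal.ofReal (V2 (ez θ))) (Function.update θ j t) ≤
        T.indicator (fun _ => ENNReal.ofReal (6 * (4 * N + 1) ^ 3 * J * δ ^ 2)) t := by
      intro t
      have e1 : ez (Function.update θ j t) i = Complex.exp (Complex.I * θ i) := by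
        unfold ez
        rw [Function.update_of_ne hij.ne]
      have e2 : ez (Function.update θ j t) j = Complex.exp (Complex.I * t) := by
        unfold ez
        rw [Function.update_self]
      by_cases ht : t ∈ T
      · have h1 : Function.update θ j t ∈ {θ : Fin N → ℝ | ‖ez θ i - ez θ j‖ < δ} := by
          change ‖ez (Function.update θ j t) i - ez (Function.update θ j t) j‖ < δ
          rw [e1, e2, norm_sub_rev]
          exact ht
        rw [Set.indicator_of_mem h1, Set.indicator_of_mem ht, hpe]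
        refine ENNReal.ofReal_le_ofReal ?_
        have h3 := nikw (4 * N) p hp t (θ i)
        push_cast at h3
        have h4 : ‖Complex.exp (Complex.I * t) - Complex.exp (Complex.I * θ i)‖ < δ := ht
        have h5 : ‖Complex.exp (Complex.I * t) - Complex.exp (Complex.I * θ i)‖ ^ 2 ≤ δ ^ 2 := by
          gcongr
        exact mul_le_mul h3 h5 (by positivity) (by positivity)
      · have h1 : Function.update θ j t ∉ {θ : Fin N → ℝ | ‖ez θ i - ez θ j‖ < δ} := by
          change ¬ ‖ez (Function.update θ j t) i - ez (Function.update θ j t) j‖ < δ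
          rw [e1, e2, norm_sub_rev]
          exact ht
        rw [Set.indicator_of_notMem h1, Set.indicator_of_notMem ht]
    refine (lintegral_mono h1).trans ?_
    rw [lintegral_indicator hTm, lintegral_const, Measure.restrict_restrict hTm,
      Measure.restrict_apply_univ]
    gcongr
    have h2 := NKaux.arc_measure (θ i) δ hδ
    rw [Set.inter_comm]
    have hfin : volume (Set.Ioc (0 : ℝ) (2 * Real.pi) ∩ T) ≠ ⊤ :=
      ((measure_mono Set.inter_subset_left).trans_lt measure_Ioc_lt_top).ne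
    rw [← ENNReal.ofReal_toReal hfin]
    exact ENNReal.ofReal_le_ofReal h2
  change ∫⁻ t in Set.Ioc (0 : ℝ) (2 * Real.pi),
      {θ : Fin N → ℝ | ‖ez θ i - ez θ j‖ < δ}.indicator
        (fun θ => ENNReal.ofReal (V2 (ez θ))) (Function.update θ j t) ≤
      ENNReal.ofReal (57 * (4 * N + 1) ^ 3 * δ ^ 3) * ∫⁻ t in Set.Ioc (0 : ℝ) (2 * Real.pi),
        ENNReal.ofReal (V2 (ez (Function.update θ j t)))
  rw [hR]
  refine hL.trans ?_
  rw [← ENNReal.ofReal_mul (by positivity), ← ENNReal.ofReal_mul (by positivity)]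
  refine ENNReal.ofReal_le_ofReal ?_
  have h6 : 6 * (4 * (N : ℝ) + 1) ^ 3 * J * δ ^ 2 * (3 * Real.pi * δ) =
      (18 * Real.pi) * ((4 * (N : ℝ) + 1) ^ 3 * J * δ ^ 3) := by ring
  have h7 : 57 * (4 * (N : ℝ) + 1) ^ 3 * δ ^ 3 * J =
      57 * ((4 * (N : ℝ) + 1) ^ 3 * J * δ ^ 3) := by ring
  rw [h6, h7]
  refine mul_le_mul_of_nonneg_right ?_ (by positivity)
  linarith

lemma muN_apply {A : Set (Fin N → ℝ)} (hA : MeasurableSet A) :
    (muN N) A = (∫⁻ θ in box N ∩ A, ENNReal.ofReal (V2 (ez θ))) * ENNReal.ofReal (nc N)⁻¹ := by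
  have hfm : Measurable fun θ : Fin N → ℝ => ENNReal.ofReal (V2 (ez θ)) :=
    V2_cont.measurable.ennreal_ofReal
  unfold muN
  rw [withDensity_apply _ hA, Measure.restrict_restrict hA, Set.inter_comm,
    ← lintegral_mul_const _ hfm]
  refine lintegral_congr fun θ => ?_
  rw [div_eq_mul_inv, ENNReal.ofReal_mul (V2_nonneg _)]

lemma pair_muN (h1 : cue (N := N) (fun _ => 1) = 1) {i j : Fin N} (hij : i < j) {δ : ℝ}
    (hδ : 0 ≤ δ) : (muN N) {θ | ‖ez θ i - ez θ j‖ < δ} ≤
      ENNReal.ofReal (57 * (4 * N + 1) ^ 3 * δ ^ 3) := by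
  have hS : MeasurableSet {θ : Fin N → ℝ | ‖ez θ i - ez θ j‖ < δ} :=
    (isOpen_lt (dist_cont i j) continuous_const).measurableSet
  have hprob := muN_prob h1
  have h2 : (muN N) Set.univ = 1 := measure_univ
  rw [muN_apply MeasurableSet.univ, Set.inter_univ] at h2
  rw [muN_apply hS]
  refine (mul_le_mul_left (pair_le hij hδ) _).trans ?_
  rw [mul_assoc, h2, mul_one]

lemma gap_lt {δ : ℝ} (hδ : 0 < δ) {z : Fin N → ℂ} (h : gap z < ENNReal.ofReal δ) :
    ∃ i j : Fin N, i < j ∧ ‖z i - z j‖ < δ := by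
  unfold gap at h
  rw [iInf_lt_iff] at h
  obtain ⟨i, h⟩ := h
  rw [iInf_lt_iff] at h
  obtain ⟨j, h⟩ := h
  rw [iInf_lt_iff] at h
  obtain ⟨hij, h⟩ := h
  rw [ENNReal.ofReal_lt_ofReal_iff hδ] at h
  rcases lt_or_gt_of_ne hij with h2 | h2
  · exact ⟨i, j, h2, h⟩
  · exact ⟨j, i, h2, by rwa [norm_sub_rev]⟩

end HUx

open HUx in
/-- SG4-H1, with the normalisation as a hypothesis -/
theorem haarUp_aux {N : ℕ} (h1 : cue (N := N) (fun _ => 1) = 1) {t : ℝ} (ht : 0 ≤ t) :
    (muN N) {θ | gap (ez θ) ≤ ENNReal.ofReal t} ≤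
      ENNReal.ofReal (200 * (4 * N + 1) ^ 3 * N ^ 2 * t ^ 3) := by
  have key : ∀ δ : ℝ, t < δ → (muN N) {θ | gap (ez θ) ≤ ENNReal.ofReal t} ≤
      ENNReal.ofReal (200 * (4 * N + 1) ^ 3 * N ^ 2 * δ ^ 3) := by
    intro δ hδ
    have hδ0 : 0 < δ := lt_of_le_of_lt ht hδ
    have h2 : {θ : Fin N → ℝ | gap (ez θ) ≤ ENNReal.ofReal t} ⊆
        ⋃ p ∈ Finset.univ.filter (fun p : Fin N × Fin N => p.1 < p.2),
          {θ | ‖ez θ p.1 - ez θ p.2‖ < δ} := by
      intro θ hθ
      have h3 : gap (ez θ) < ENNReal.ofReal δ :=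
        lt_of_le_of_lt hθ ((ENNReal.ofReal_lt_ofReal_iff hδ0).2 hδ)
      obtain ⟨i, j, hij, h4⟩ := gap_lt hδ0 h3
      simp only [Set.mem_iUnion]
      exact ⟨(i, j), Finset.mem_filter.2 ⟨Finset.mem_univ _, hij⟩, h4⟩
    refine (measure_mono h2).trans ((measure_biUnion_finset_le _ _).trans ?_)
    refine (Finset.sum_le_sum fun p hp =>
      pair_muN h1 (Finset.mem_filter.1 hp).2 hδ0.le).trans ?_
    rw [Finset.sum_const, nsmul_eq_mul]
    have h5 : (Finset.univ.filter (fun p : Fin N × Fin N => p.1 < p.2)).card ≤ N ^ 2 := by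
      refine (Finset.card_filter_le _ _).trans ?_
      rw [Finset.card_univ, Fintype.card_prod, Fintype.card_fin, sq]
    have h6 : ((Finset.univ.filter (fun p : Fin N × Fin N => p.1 < p.2)).card : ℝ≥0∞) ≤
        ENNReal.ofReal ((N : ℝ) ^ 2) := by
      rw [← ENNReal.ofReal_natCast]
      refine ENNReal.ofReal_le_ofReal ?_
      exact_mod_cast h5
    refine (mul_le_mul_left h6 _).trans ?_
    rw [← ENNReal.ofReal_mul (by positivity)]
    refine ENNReal.ofReal_le_ofReal ?_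
    have h7 : (N : ℝ) ^ 2 * (57 * (4 * N + 1) ^ 3 * δ ^ 3) =
        57 * ((4 * (N : ℝ) + 1) ^ 3 * N ^ 2 * δ ^ 3) := by ring
    have h8 : 200 * (4 * (N : ℝ) + 1) ^ 3 * N ^ 2 * δ ^ 3 =
        200 * ((4 * (N : ℝ) + 1) ^ 3 * N ^ 2 * δ ^ 3) := by ring
    rw [h7, h8]
    refine mul_le_mul_of_nonneg_right (by norm_num) (by positivity)
  have hlim : Tendsto (fun δ : ℝ => ENNReal.ofReal (200 * (4 * N + 1) ^ 3 * N ^ 2 * δ ^ 3))
      (𝓝[>] t) (𝓝 (ENNReal.ofReal (200 * (4 * N + 1) ^ 3 * N ^ 2 * t ^ 3))) := by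
    refine tendsto_nhdsWithin_of_tendsto_nhds ?_
    have hc : Continuous fun δ : ℝ => ENNReal.ofReal (200 * (4 * N + 1) ^ 3 * N ^ 2 * δ ^ 3) :=
      ENNReal.continuous_ofReal.comp (by fun_prop)
    exact hc.tendsto t
  refine ge_of_tendsto hlim ?_
  filter_upwards [self_mem_nhdsWithin] with δ hδ
  exact key δ hδ

/-- SG4-H1 -/
theorem haarUp {N : ℕ} (h1 : cue (N := N) (fun _ => 1) = 1) (_hN : 2 ≤ N) {t : ℝ} (ht : 0 ≤ t) :
    (muN N) {θ | gap (ez θ) ≤ ENNReal.ofReal t} ≤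
      ENNReal.ofReal (200 * (4 * N + 1) ^ 3 * N ^ 2 * t ^ 3) :=
  haarUp_aux h1 ht

end Pool.Agent.R319.SG
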