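import Pool.Agent.R319.SG.Defs2

/-!
Lower bound of the mass after the move (piece `LQ`).
-/

open MeasureTheory ProbabilityTheory Filter Topology
open scoped ENNReal

namespace Pool.Agent.R319.SG

open Pool.Agent.R319.UM (box ez mon V2 cue)

/-- the integral of the squared Vandermonde determinant -/
lemma lq_intV2 (M : ℕ) :
    ∫ θ in box M, (V2 (ez θ) : ℂ) = (M.factorial : ℂ) * (2 * Real.pi : ℂ) ^ M := by
  classical
  have hV : ∀ z : Fin M → ℂ, (V2 z : ℂ) = ∑ σ : Equiv.Perm (Fin M), ∑ τ : Equiv.Perm (Fin M),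
      ((((Equiv.Perm.sign σ : ℤ) : ℂ) * ((Equiv.Perm.sign τ : ℤ) : ℂ)) *
        mon (fun j => (σ j : ℕ)) (fun j => (τ j : ℕ)) z) := by
    intro z
    have h1 : (V2 z : ℂ) = (Matrix.vandermonde z).transpose.det *
        (starRingEnd ℂ) (Matrix.vandermonde z).transpose.det := by
      rw [Matrix.det_transpose, Matrix.det_vandermonde, Complex.mul_conj,
        Complex.normSq_eq_norm_sq, norm_prod]
      unfold V2
      congr 1
      rw [← Finset.prod_pow]
      refine Finset.prod_congr rfl fun i _ => ?_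
      rw [norm_prod, ← Finset.prod_pow]
    rw [h1, Matrix.det_apply', map_sum, Finset.sum_mul_sum]
    refine Finset.sum_congr rfl fun σ _ => Finset.sum_congr rfl fun τ _ => ?_
    rw [map_mul, map_prod, map_intCast]
    unfold mon
    rw [Finset.prod_mul_distrib]
    simp only [Matrix.transpose_apply, Matrix.vandermonde_apply]
    ring
  simp only [hV]
  have hi : ∀ σ τ : Equiv.Perm (Fin M), IntegrableOn (fun θ : Fin M → ℝ =>
      (((Equiv.Perm.sign σ : ℤ) : ℂ) * ((Equiv.Perm.sign τ : ℤ) : ℂ)) *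
        mon (fun j => (σ j : ℕ)) (fun j => (τ j : ℕ)) (ez θ)) (box M) := fun σ τ =>
    Pool.Agent.R319.UM.int_box (continuous_const.mul (Pool.Agent.R319.UM.mon_cont _ _))
  rw [integral_finsetSum _ fun σ _ => integrable_finsetSum _ fun τ _ => hi σ τ]
  have h2 : ∀ σ : Equiv.Perm (Fin M), ∫ θ in box M, ∑ τ : Equiv.Perm (Fin M),
      ((((Equiv.Perm.sign σ : ℤ) : ℂ) * ((Equiv.Perm.sign τ : ℤ) : ℂ)) *
        mon (fun j => (σ j : ℕ)) (fun j => (τ j : ℕ)) (ez θ)) = (2 * Real.pi : ℂ) ^ M := by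
    intro σ
    rw [integral_finsetSum _ fun τ _ => hi σ τ]
    rw [Finset.sum_eq_single σ]
    · rw [integral_const_mul, Pool.Agent.R319.UM.mon_int, if_pos rfl]
      have h3 : ((Equiv.Perm.sign σ : ℤ) : ℂ) * ((Equiv.Perm.sign σ : ℤ) : ℂ) = 1 := by
        rw [← Int.cast_mul, Int.units_coe_mul_self, Int.cast_one]
      rw [h3, one_mul]
    · intro τ _ hne
      rw [integral_const_mul, Pool.Agent.R319.UM.mon_int, if_neg, mul_zero]
      intro h
      apply hne
      apply Equiv.ext
      intro j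
      exact (Fin.ext (congrFun h j)).symm
    · intro h
      exact absurd (Finset.mem_univ σ) h
  rw [Finset.sum_congr rfl fun σ _ => h2 σ, Finset.sum_const, Finset.card_univ,
    Fintype.card_perm, Fintype.card_fin, nsmul_eq_mul]

lemma lq_lintV2 (M : ℕ) :
    ∫⁻ θ in box M, ENNReal.ofReal (V2 (ez θ)) =
      ENNReal.ofReal (M.factorial * (2 * Real.pi) ^ M) := by
  have h := lq_intV2 M
  rw [integral_complex_ofReal] at h
  have h2 : ∫ θ in box M, V2 (ez θ) = M.factorial * (2 * Real.pi) ^ M := by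
    exact_mod_cast h
  have hi : IntegrableOn (fun θ : Fin M → ℝ => V2 (ez θ)) (box M) := by
    have h : IntegrableOn (fun θ : Fin M → ℝ => V2 (ez θ))
        (Set.univ.pi fun _ : Fin M => Set.Icc (0 : ℝ) (2 * Real.pi)) :=
      V2_cont.continuousOn.integrableOn_compact (isCompact_univ_pi fun _ => isCompact_Icc)
    exact h.mono_set (Set.pi_mono fun _ _ => Set.Ioc_subset_Icc_self)
  rw [← ofReal_integral_eq_lintegral_ofReal hi (Eventually.of_forall fun θ => V2_nonneg _), h2]

/-- the factorisation of `Q` -/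
lemma lq_Q {M : ℕ} (a b : ℂ) (z : Fin M → ℂ) :
    Q (Fin.cons a (Fin.cons b z : Fin (M + 1) → ℂ) : Fin (M + 2) → ℂ) =
      ((∏ j, ‖z j - a‖ ^ 2) * ∏ j, ‖z j - b‖ ^ 2) * V2 z := by
  unfold Q V2
  rw [Fin.prod_univ_succ, Fin.prod_univ_succ, Fin.prod_Ioi_zero, Fin.prod_univ_succ]
  have h1 : ((0 : Fin (M + 1)).succ : Fin (M + 2)) = 1 := rfl
  rw [Fin.prod_Ioi_succ, Fin.prod_Ioi_zero]
  simp only [Fin.prod_Ioi_succ]
  have h2 : ∀ j : Fin M, (j.succ.succ : Fin (M + 2)) ≠ 1 := by
    intro j h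
    rw [← h1, Fin.succ_inj] at h
    exact Fin.succ_ne_zero _ h
  have h3 : ∀ j : Fin (M + 1), (j.succ : Fin (M + 2)) ≠ 0 := fun j => Fin.succ_ne_zero _
  simp only [h1, h2, h3, and_false, and_true, if_false, if_true, Fin.cons_zero, Fin.cons_succ,
    one_mul]
  have h5 : (Fin.cons a (Fin.cons b z : Fin (M + 1) → ℂ) : Fin (M + 2) → ℂ) 1 = b := by
    rw [← h1, Fin.cons_succ, Fin.cons_zero]
  simp only [h5]
  ring

/-- Fubini for the first coordinate -/
lemma lq_fub {n : ℕ} {F : (Fin (n + 1) → ℝ) → ℝ≥0∞} (hF : Measurable F) :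
    ∫⁻ θ in box (n + 1), F θ =
      ∫⁻ t in Set.Ioc (0 : ℝ) (2 * Real.pi), ∫⁻ θ in box n,
        F (Fin.cons t θ : Fin (n + 1) → ℝ) := by
  have e := (volume_preserving_piFinSuccAbove (fun _ : Fin (n + 1) => ℝ) 0).symm
  have hsymm : ∀ p : ℝ × (Fin n → ℝ),
      (MeasurableEquiv.piFinSuccAbove (fun _ : Fin (n + 1) => ℝ) 0).symm p =
        (Fin.cons p.1 p.2 : Fin (n + 1) → ℝ) := by
    intro p
    funext j
    refine Fin.cases ?_ (fun k => ?_) j
    · rfl
    · rfl
  have hpre : (MeasurableEquiv.piFinSuccAbove (fun _ : Fin (n + 1) => ℝ) 0).symm ⁻¹' box (n + 1) =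
      Set.Ioc (0 : ℝ) (2 * Real.pi) ×ˢ box n := by
    ext p
    rw [Set.mem_preimage, hsymm, Set.mem_prod]
    unfold box
    rw [Set.mem_univ_pi, Set.mem_univ_pi, Fin.forall_fin_succ]
    simp only [Fin.cons_zero, Fin.cons_succ]
  have h := e.setLIntegral_comp_preimage_emb
    (MeasurableEquiv.piFinSuccAbove (fun _ : Fin (n + 1) => ℝ) 0).symm.measurableEmbedding F
    (box (n + 1))
  rw [← h, hpre]
  have hm : Measurable fun p : ℝ × (Fin n → ℝ) =>
      F ((MeasurableEquiv.piFinSuccAbove (fun _ : Fin (n + 1) => ℝ) 0).symm p) :=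
    hF.comp (MeasurableEquiv.piFinSuccAbove (fun _ : Fin (n + 1) => ℝ) 0).symm.measurable
  rw [Measure.volume_eq_prod, ← Measure.prod_restrict, lintegral_prod _ hm.aemeasurable]
  simp only [hsymm]

/-- the one-variable inequality -/
lemma lq_one {M : ℕ} (z : Fin M → ℂ) (s : ℝ) :
    ENNReal.ofReal (2 * Real.pi) ≤ ∫⁻ t in Set.Ioc (0 : ℝ) (2 * Real.pi),
      ENNReal.ofReal ((∏ j, ‖z j - Complex.exp (Complex.I * t)‖ ^ 2) *
        ∏ j, ‖z j - Complex.exp (Complex.I * ((t + s : ℝ) : ℂ))‖ ^ 2) := by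
  set u := Complex.exp (Complex.I * s) with hu
  have hu1 : ‖u‖ = 1 := by rw [hu, mul_comm, Complex.norm_exp_ofReal_mul_I]
  set p : Polynomial ℂ := ∏ j, ((Polynomial.C (z j) * Polynomial.X - 1) *
    (Polynomial.C (z j) * Polynomial.X - Polynomial.C u)) with hp
  have hpe : ∀ y, p.eval y = ∏ j, ((z j * y - 1) * (z j * y - u)) := by
    intro y
    rw [hp, Polynomial.eval_prod]
    refine Finset.prod_congr rfl fun j _ => ?_
    simp
  have hc : ‖p.eval 0‖ = 1 := by
    rw [hpe, norm_prod]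
    refine Finset.prod_eq_one fun j _ => ?_
    simp [hu1]
  have hnorm : ∀ t : ℝ, (∏ j, ‖z j - Complex.exp (Complex.I * t)‖ ^ 2) *
      ∏ j, ‖z j - Complex.exp (Complex.I * ((t + s : ℝ) : ℂ))‖ ^ 2 =
      ‖p.eval ((starRingEnd ℂ) (Complex.exp (Complex.I * t)))‖ ^ 2 := by
    intro t
    have h1 : ‖Complex.exp (Complex.I * t)‖ = 1 := by
      rw [mul_comm, Complex.norm_exp_ofReal_mul_I]
    have h2 : Complex.exp (Complex.I * t) * (starRingEnd ℂ) (Complex.exp (Complex.I * t)) = 1 := by
      rw [Complex.mul_conj, Complex.normSq_eq_norm_sq, h1]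
      simp
    have h3 : Complex.exp (Complex.I * ((t + s : ℝ) : ℂ)) = Complex.exp (Complex.I * t) * u := by
      rw [hu, ← Complex.exp_add]
      congr 1
      push_cast
      ring
    rw [hpe, norm_prod, ← Finset.prod_pow, ← Finset.prod_mul_distrib]
    refine Finset.prod_congr rfl fun j _ => ?_
    rw [norm_mul, mul_pow, h3]
    congr 2
    · have : z j - Complex.exp (Complex.I * t) = Complex.exp (Complex.I * t) *
          (z j * (starRingEnd ℂ) (Complex.exp (Complex.I * t)) - 1) := by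
        have e1 : Complex.exp (Complex.I * t) *
          (z j * (starRingEnd ℂ) (Complex.exp (Complex.I * t)) - 1) =
          z j * (Complex.exp (Complex.I * t) * (starRingEnd ℂ) (Complex.exp (Complex.I * t))) -
            Complex.exp (Complex.I * t) := by ring
        rw [e1, h2, mul_one]
      rw [this, norm_mul, h1, one_mul]
    · have : z j - Complex.exp (Complex.I * t) * u = Complex.exp (Complex.I * t) *
          (z j * (starRingEnd ℂ) (Complex.exp (Complex.I * t)) - u) := by
        have e1 : Complex.exp (Complex.I * t) *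
          (z j * (starRingEnd ℂ) (Complex.exp (Complex.I * t)) - u) =
          z j * (Complex.exp (Complex.I * t) * (starRingEnd ℂ) (Complex.exp (Complex.I * t))) -
            Complex.exp (Complex.I * t) * u := by ring
        rw [e1, h2, mul_one]
      rw [this, norm_mul, h1, one_mul]
  simp only [hnorm]
  -- continuity
  have hcg : Continuous fun t : ℝ => p.eval ((starRingEnd ℂ) (Complex.exp (Complex.I * t))) := by
    have h1 : Continuous fun t : ℝ => Complex.exp (Complex.I * (t : ℂ)) := by fun_prop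
    exact p.continuous.comp (Complex.continuous_conj.comp h1)
  -- mean value
  have hmean : ∫ t in Set.Ioc (0 : ℝ) (2 * Real.pi),
      p.eval ((starRingEnd ℂ) (Complex.exp (Complex.I * t))) = 2 * Real.pi * p.eval 0 := by
    have h1 : ∀ t : ℝ, p.eval ((starRingEnd ℂ) (Complex.exp (Complex.I * t))) =
        ∑ k ∈ Finset.range (p.natDegree + 1), p.coeff k * (Complex.exp (Complex.I * t) ^ 0 *
          (starRingEnd ℂ) (Complex.exp (Complex.I * t) ^ k)) := by
      intro t
      rw [Polynomial.eval_eq_sum_range]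
      refine Finset.sum_congr rfl fun k _ => ?_
      rw [pow_zero, one_mul, map_pow]
    simp only [h1]
    rw [integral_finsetSum]
    · simp only [integral_const_mul, Pool.Agent.R319.UM.one_dim]
      rw [Finset.sum_eq_single 0]
      · rw [if_pos rfl, Polynomial.coeff_zero_eq_eval_zero]
        ring
      · intro k _ hk
        rw [if_neg (Ne.symm hk), mul_zero]
      · intro h
        exact absurd (Finset.mem_range.2 (Nat.succ_pos _)) h
    · intro k _
      have h2 : Continuous fun t : ℝ => p.coeff k * (Complex.exp (Complex.I * (t : ℂ)) ^ 0 *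
          (starRingEnd ℂ) (Complex.exp (Complex.I * (t : ℂ)) ^ k)) := by
        have h3 : Continuous fun t : ℝ => Complex.exp (Complex.I * (t : ℂ)) := by fun_prop
        exact continuous_const.mul ((h3.pow 0).mul (Complex.continuous_conj.comp (h3.pow k)))
      exact h2.integrableOn_Ioc
  have hI1 : IntegrableOn (fun t : ℝ =>
      ‖p.eval ((starRingEnd ℂ) (Complex.exp (Complex.I * t)))‖ ^ 2)
      (Set.Ioc (0 : ℝ) (2 * Real.pi)) := (hcg.norm.pow 2).integrableOn_Ioc
  rw [← ofReal_integral_eq_lintegral_ofReal hI1 (Eventually.of_forall fun t => by positivity)]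
  apply ENNReal.ofReal_le_ofReal
  have hlow : ∀ t : ℝ, 2 * ((starRingEnd ℂ) (p.eval 0) *
      p.eval ((starRingEnd ℂ) (Complex.exp (Complex.I * t)))).re - 1 ≤
      ‖p.eval ((starRingEnd ℂ) (Complex.exp (Complex.I * t)))‖ ^ 2 := by
    intro t
    set g := p.eval ((starRingEnd ℂ) (Complex.exp (Complex.I * t)))
    set c := p.eval 0
    have h1 : 0 ≤ Complex.normSq (g - c) := Complex.normSq_nonneg _
    have h2 : Complex.normSq c = 1 := by rw [Complex.normSq_eq_norm_sq, hc]; norm_num
    have h3 : Complex.normSq g = ‖g‖ ^ 2 := Complex.normSq_eq_norm_sq g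
    rw [← h3]
    rw [Complex.normSq_apply] at h1 h2 ⊢
    simp only [Complex.sub_re, Complex.sub_im, Complex.mul_re, Complex.conj_re,
      Complex.conj_im] at h1 ⊢
    nlinarith
  have hcl : Continuous fun t : ℝ => (starRingEnd ℂ) (p.eval 0) *
      p.eval ((starRingEnd ℂ) (Complex.exp (Complex.I * t))) := continuous_const.mul hcg
  have hre : ∫ t in Set.Ioc (0 : ℝ) (2 * Real.pi), ((starRingEnd ℂ) (p.eval 0) *
      p.eval ((starRingEnd ℂ) (Complex.exp (Complex.I * t)))).re = 2 * Real.pi := by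
    have h1 := integral_re (𝕜 := ℂ) (hcl.integrableOn_Ioc (a := 0) (b := 2 * Real.pi)
      (μ := volume))
    rw [integral_const_mul, hmean] at h1
    have h2 : (starRingEnd ℂ) (p.eval 0) * (2 * Real.pi * p.eval 0) = ((2 * Real.pi : ℝ) : ℂ) := by
      have e1 : (starRingEnd ℂ) (p.eval 0) * (2 * Real.pi * p.eval 0) =
        2 * Real.pi * (p.eval 0 * (starRingEnd ℂ) (p.eval 0)) := by ring
      rw [e1, Complex.mul_conj, Complex.normSq_eq_norm_sq, hc]
      push_cast
      ring
    rw [h2] at h1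
    simpa using h1
  have hcre : Continuous fun t : ℝ => 2 * ((starRingEnd ℂ) (p.eval 0) *
      p.eval ((starRingEnd ℂ) (Complex.exp (Complex.I * t)))).re - 1 :=
    (continuous_const.mul (Complex.continuous_re.comp hcl)).sub continuous_const
  calc 2 * Real.pi = ∫ t in Set.Ioc (0 : ℝ) (2 * Real.pi), (2 * ((starRingEnd ℂ) (p.eval 0) *
      p.eval ((starRingEnd ℂ) (Complex.exp (Complex.I * t)))).re - 1) := by
        have e3 : IntegrableOn (fun t : ℝ => 2 * ((starRingEnd ℂ) (p.eval 0) *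
            p.eval ((starRingEnd ℂ) (Complex.exp (Complex.I * t)))).re)
            (Set.Ioc (0 : ℝ) (2 * Real.pi)) :=
          (continuous_const.mul (Complex.continuous_re.comp hcl)).integrableOn_Ioc
        have e4 : IntegrableOn (fun _ : ℝ => (1 : ℝ)) (Set.Ioc (0 : ℝ) (2 * Real.pi)) :=
          continuous_const.integrableOn_Ioc
        rw [integral_sub e3 e4, integral_const_mul, hre]
        simp only [integral_const, MeasurableSet.univ, measureReal_restrict_apply, Set.univ_inter,
          Real.volume_real_Ioc, sub_zero, smul_eq_mul, mul_one]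
        rw [max_eq_left (by positivity)]
        ring
    _ ≤ _ := setIntegral_mono hcre.integrableOn_Ioc hI1 hlow

lemma lq_mv {M : ℕ} (s t0 t1 : ℝ) (θ : Fin M → ℝ) :
    ez (mv s (Fin.cons t0 (Fin.cons t1 θ : Fin (M + 1) → ℝ) : Fin (M + 2) → ℝ)) =
      (Fin.cons (Complex.exp (Complex.I * t0))
        (Fin.cons (Complex.exp (Complex.I * ((t0 + s : ℝ) : ℂ))) (ez θ) : Fin (M + 1) → ℂ) :
        Fin (M + 2) → ℂ) := by
  have h1 : ((0 : Fin (M + 1)).succ : Fin (M + 2)) = 1 := rfl
  funext j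
  refine Fin.cases ?_ (fun k => ?_) j
  · unfold ez mv
    rw [Function.update_of_ne (by rw [← h1]; exact (Fin.succ_ne_zero _).symm)]
    rfl
  · refine Fin.cases ?_ (fun l => ?_) k
    · unfold ez mv
      rw [h1, Function.update_self]
      rfl
    · unfold ez mv
      rw [Function.update_of_ne (by
        rw [← h1]; intro h; rw [Fin.succ_inj] at h; exact Fin.succ_ne_zero _ h)]
      rfl

lemma lq_Qcont {M : ℕ} (s : ℝ) :
    Continuous fun θ : Fin (M + 2) → ℝ => Q (ez (mv s θ)) := by
  have hm : Continuous fun θ : Fin (M + 2) → ℝ => mv s θ := by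
    unfold mv
    exact continuous_id.update 1 ((continuous_apply 0).add continuous_const)
  have h2 := (ez_cont (N := M + 2)).comp hm
  have hi : ∀ i : Fin (M + 2), Continuous fun θ : Fin (M + 2) → ℝ => ez (mv s θ) i :=
    fun i => (continuous_apply i).comp h2
  unfold Q
  refine continuous_finsetProd _ fun i _ => continuous_finsetProd _ fun j _ => ?_
  by_cases h : i = 0 ∧ j = 1
  · simp only [if_pos h]
    exact continuous_const
  · simp only [if_neg h]
    exact ((hi j).sub (hi i)).norm.pow 2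

/-- S6 -/
theorem lowQ {M : ℕ} (s : ℝ) :
    ENNReal.ofReal ((2 * Real.pi) ^ (M + 2) * M.factorial) ≤
      ∫⁻ θ in box (M + 2), ENNReal.ofReal (Q (ez (mv s θ))) := by
  have hpi : 0 < 2 * Real.pi := by positivity
  have hm : Measurable fun θ : Fin (M + 2) → ℝ => ENNReal.ofReal (Q (ez (mv s θ))) :=
    (lq_Qcont s).measurable.ennreal_ofReal
  rw [lq_fub hm]
  have hcons : ∀ t : ℝ, Measurable fun θ : Fin (M + 1) → ℝ => ENNReal.ofReal
      (Q (ez (mv s (Fin.cons t θ : Fin (M + 2) → ℝ)))) := by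
    intro t
    refine hm.comp ?_
    refine measurable_pi_iff.2 fun j => ?_
    refine Fin.cases ?_ (fun k => ?_) j
    · simp only [Fin.cons_zero]; exact measurable_const
    · simp only [Fin.cons_succ]; exact measurable_pi_apply k
  simp only [fun t => lq_fub (hcons t), lq_mv, lq_Q]
  set G : ℝ → (Fin M → ℝ) → ℝ≥0∞ := fun t θ => ENNReal.ofReal
    (((∏ j, ‖ez θ j - Complex.exp (Complex.I * t)‖ ^ 2) *
      ∏ j, ‖ez θ j - Complex.exp (Complex.I * ((t + s : ℝ) : ℂ))‖ ^ 2) * V2 (ez θ)) with hG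
  have hGm : Measurable (Function.uncurry G) := by
    have hc : Continuous fun q : ℝ × (Fin M → ℝ) =>
      (((∏ j, ‖ez q.2 j - Complex.exp (Complex.I * q.1)‖ ^ 2) *
      ∏ j, ‖ez q.2 j - Complex.exp (Complex.I * ((q.1 + s : ℝ) : ℂ))‖ ^ 2) * V2 (ez q.2)) := by
      have h1 : ∀ j : Fin M, Continuous fun q : ℝ × (Fin M → ℝ) => ez q.2 j := fun j =>
        (ezi_cont j).comp continuous_snd
      have h2 : Continuous fun q : ℝ × (Fin M → ℝ) => Complex.exp (Complex.I * (q.1 : ℂ)) := by
        fun_prop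
      have h3 : Continuous fun q : ℝ × (Fin M → ℝ) =>
        Complex.exp (Complex.I * ((q.1 + s : ℝ) : ℂ)) := by
        fun_prop
      refine ((continuous_finsetProd _ fun j _ => ?_).mul
        (continuous_finsetProd _ fun j _ => ?_)).mul (V2_cont.comp continuous_snd)
      · exact ((h1 j).sub h2).norm.pow 2
      · exact ((h1 j).sub h3).norm.pow 2
    exact hc.measurable.ennreal_ofReal
  have hstep : ∫⁻ t in Set.Ioc (0 : ℝ) (2 * Real.pi), ∫⁻ _ in Set.Ioc (0 : ℝ) (2 * Real.pi),
      ∫⁻ θ in box M, G t θ = ENNReal.ofReal (2 * Real.pi) *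
        ∫⁻ θ in box M, ∫⁻ t in Set.Ioc (0 : ℝ) (2 * Real.pi), G t θ := by
    simp only [lintegral_const, Measure.restrict_apply MeasurableSet.univ, Set.univ_inter,
      Real.volume_Ioc, sub_zero]
    rw [lintegral_mul_const', mul_comm]
    · congr 1
      exact lintegral_lintegral_swap hGm.aemeasurable
    · exact ENNReal.ofReal_ne_top
  have hfin : ENNReal.ofReal ((2 * Real.pi) ^ (M + 2) * M.factorial) =
      ENNReal.ofReal (2 * Real.pi) * ∫⁻ θ in box M, ENNReal.ofReal (2 * Real.pi) *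
        ENNReal.ofReal (V2 (ez θ)) := by
    rw [lintegral_const_mul' _ _ ENNReal.ofReal_ne_top, lq_lintV2, ← ENNReal.ofReal_mul hpi.le,
      ← ENNReal.ofReal_mul hpi.le]
    congr 1
    ring
  rw [hfin]
  refine le_trans (mul_le_mul' le_rfl (lintegral_mono fun θ => ?_)) hstep.ge
  have h1 : ∀ t : ℝ, G t θ = ENNReal.ofReal
      ((∏ j, ‖ez θ j - Complex.exp (Complex.I * t)‖ ^ 2) *
      ∏ j, ‖ez θ j - Complex.exp (Complex.I * ((t + s : ℝ) : ℂ))‖ ^ 2) *
        ENNReal.ofReal (V2 (ez θ)) := by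
    intro t
    rw [hG]
    exact ENNReal.ofReal_mul (by positivity)
  simp only [h1]
  rw [lintegral_mul_const' _ _ ENNReal.ofReal_ne_top]
  exact mul_le_mul' (lq_one (ez θ) s) le_rfl

end Pool.Agent.R319.SG
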