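import Pool.Agent.R319.SG.LQ

/-!
The normalisation of the Weyl density.
-/

open MeasureTheory

namespace Pool.Agent.R319.SG

open Pool.Agent.R319.UM (box ez mon V2 cue)

theorem cue_norm (N : ℕ) : cue (N := N) (fun _ => 1) = 1 := by
  unfold cue
  simp only [one_mul]
  rw [lq_intV2]
  have hpi : (Real.pi : ℂ) ≠ 0 := by exact_mod_cast Real.pi_ne_zero
  have hf : (N.factorial : ℂ) ≠ 0 := by exact_mod_cast N.factorial_ne_zero
  field_simp

end Pool.Agent.R319.SG
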