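import Pool.Agent.R319.SG.Defs2

/-!
Moving a point next to another one.
-/

open MeasureTheory ProbabilityTheory Filter Topology
open scoped ENNReal

namespace Pool.Agent.R319.SG

open Pool.Agent.R319.UM (box ez mon V2 cue)

lemma mq_Qcont {M : ℕ} : Continuous (Q : (Fin (M + 2) → ℂ) → ℝ) := by
  unfold Q
  refine continuous_finsetProd _ fun i _ => continuous_finsetProd _ fun j _ => ?_
  by_cases h : i = 0 ∧ j = 1
  · simp only [if_pos h]
    exact continuous_const
  · simp only [if_neg h]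
    fun_prop

lemma mq_V2 {M : ℕ} (z : Fin (M + 2) → ℂ) : V2 z = ‖z 1 - z 0‖ ^ 2 * Q z := by
  have h1 : ∏ i : Fin (M + 2), ∏ j ∈ Finset.Ioi i, (if i = 0 ∧ j = 1 then ‖z 1 - z 0‖ ^ 2 else 1)
      = ‖z 1 - z 0‖ ^ 2 := by
    rw [Finset.prod_eq_single (0 : Fin (M + 2)) _ (fun h => absurd (Finset.mem_univ _) h)]
    · rw [Finset.prod_eq_single (1 : Fin (M + 2))]
      · simp
      · intro j _ hj
        rw [if_neg (fun h => hj h.2)]
      · intro h
        exact absurd (Finset.mem_Ioi.2 (by simp)) h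
    · intro i _ hi
      exact Finset.prod_eq_one fun j _ => if_neg fun h => hi h.1
  rw [← h1]
  unfold V2 Q
  rw [← Finset.prod_mul_distrib]
  refine Finset.prod_congr rfl fun i _ => ?_
  rw [← Finset.prod_mul_distrib]
  refine Finset.prod_congr rfl fun j _ => ?_
  by_cases h : i = 0 ∧ j = 1
  · rw [if_pos h, if_pos h, h.1, h.2, mul_one]
  · rw [if_neg h, if_neg h, one_mul]

lemma mq_mv {M : ℕ} (s : ℝ) (x : Fin (M + 2) → ℝ) (t : ℝ) :
    mv s (Function.update x 1 t) = Function.update x 1 (x 0 + s) := by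
  unfold mv
  rw [Function.update_of_ne (by simp), Function.update_idem]

theorem moveQ_of {M : ℕ} {w : (Fin (M + 2) → ℝ) → ℝ} (hw : w ∈ WW (M + 2)) (s : ℝ)
    (nikw : ∀ (n : ℕ) (p : Polynomial ℂ), p.natDegree ≤ n → ∀ θ₀ u : ℝ,
      ‖p.eval (Complex.exp (Complex.I * θ₀))‖ ≤ 6 * (n + 1) ^ 3 *
        ∫ θ in Set.Ioc (0 : ℝ) (2 * Real.pi), ‖p.eval (Complex.exp (Complex.I * θ))‖ *
          ‖Complex.exp (Complex.I * θ) - Complex.exp (Complex.I * u)‖ ^ 2)
    (polyQ : ∀ θ : Fin (M + 2) → ℝ,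
      ∃ p : Polynomial ℂ, p.natDegree ≤ 4 * (M + 2) ∧ ∀ t : ℝ,
        |w (Function.update θ 1 t)| * Q (ez (Function.update θ 1 t)) =
          ‖p.eval (Complex.exp (Complex.I * t))‖) :
    ∫⁻ θ in box (M + 2), ENNReal.ofReal (|w (mv s θ)| * Q (ez (mv s θ))) ≤
      ENNReal.ofReal (12 * Real.pi * (4 * (M + 2) + 1) ^ 3) *
        ∫⁻ θ in box (M + 2), ENNReal.ofReal (|w θ| * V2 (ez θ)) := by
  have hwc : Continuous w := cont hw
  have hmv : Continuous (mv s : (Fin (M + 2) → ℝ) → (Fin (M + 2) → ℝ)) := by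
    unfold mv
    exact continuous_id.update 1 ((continuous_apply 0).add continuous_const)
  have hf : Measurable fun θ : Fin (M + 2) → ℝ => ENNReal.ofReal (|w (mv s θ)| * Q (ez (mv s θ))) := by
    apply ENNReal.measurable_ofReal.comp
    exact (((hwc.comp hmv).abs).mul (mq_Qcont.comp (ez_cont.comp hmv))).measurable
  have hV : Continuous (V2 : (Fin (M + 2) → ℂ) → ℝ) := by
    have : (V2 : (Fin (M + 2) → ℂ) → ℝ) = fun z => ‖z 1 - z 0‖ ^ 2 * Q z := funext mq_V2
    rw [this]
    exact (((continuous_apply 1).sub (continuous_apply 0)).norm.pow 2).mul mq_Qcont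
  have hg : Measurable fun θ : Fin (M + 2) → ℝ => ENNReal.ofReal (|w θ| * V2 (ez θ)) := by
    apply ENNReal.measurable_ofReal.comp
    exact (hwc.abs.mul (hV.comp ez_cont)).measurable
  have hbox : (volume : Measure (Fin (M + 2) → ℝ)).restrict (box (M + 2))
      = Measure.pi fun _ : Fin (M + 2) => (volume : Measure ℝ).restrict (Set.Ioc 0 (2 * Real.pi)) := by
    unfold box
    rw [volume_pi, Measure.restrict_pi_pi]
  rw [← lintegral_const_mul _ hg, hbox]
  refine lintegral_le_of_lmarginal_le {1} hf (hg.const_mul _) ?_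
  rw [lmarginal_singleton, lmarginal_singleton]
  intro x
  show ∫⁻ t in Set.Ioc 0 (2 * Real.pi), ENNReal.ofReal (|w (mv s (Function.update x 1 t))| *
      Q (ez (mv s (Function.update x 1 t)))) ≤ ∫⁻ t in Set.Ioc 0 (2 * Real.pi),
      ENNReal.ofReal (12 * Real.pi * (4 * (M + 2) + 1) ^ 3) *
        ENNReal.ofReal (|w (Function.update x 1 t)| * V2 (ez (Function.update x 1 t)))
  obtain ⟨p, hp, hpt⟩ := polyQ x
  have hA : ∀ t : ℝ, ENNReal.ofReal (|w (mv s (Function.update x 1 t))| *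
      Q (ez (mv s (Function.update x 1 t))))
      = ENNReal.ofReal ‖p.eval (Complex.exp (Complex.I * ((x 0 + s : ℝ) : ℂ)))‖ := by
    intro t
    rw [mq_mv, hpt]
  have hB : ∀ t : ℝ, |w (Function.update x 1 t)| * V2 (ez (Function.update x 1 t))
      = ‖p.eval (Complex.exp (Complex.I * t))‖ *
          ‖Complex.exp (Complex.I * t) - Complex.exp (Complex.I * ((x 0 : ℝ) : ℂ))‖ ^ 2 := by
    intro t
    rw [mq_V2, ← hpt t]
    have e1 : ez (Function.update x 1 t) 1 = Complex.exp (Complex.I * t) := by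
      unfold ez
      rw [Function.update_self]
    have e0 : ez (Function.update x 1 t) 0 = Complex.exp (Complex.I * ((x 0 : ℝ) : ℂ)) := by
      unfold ez
      rw [Function.update_of_ne (by simp)]
    rw [e1, e0]
    ring
  simp only [hA, hB]
  have hcont : Continuous fun t : ℝ => ‖p.eval (Complex.exp (Complex.I * t))‖ *
          ‖Complex.exp (Complex.I * t) - Complex.exp (Complex.I * ((x 0 : ℝ) : ℂ))‖ ^ 2 := by
    fun_prop
  have hmeas : Measurable fun t : ℝ => ENNReal.ofReal (‖p.eval (Complex.exp (Complex.I * t))‖ *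
      ‖Complex.exp (Complex.I * t) - Complex.exp (Complex.I * ((x 0 : ℝ) : ℂ))‖ ^ 2) :=
    ENNReal.measurable_ofReal.comp hcont.measurable
  rw [lintegral_const, lintegral_const_mul _ hmeas,
    Measure.restrict_apply MeasurableSet.univ, Set.univ_inter, Real.volume_Ioc, sub_zero]
  have hint : Integrable (fun t : ℝ => ‖p.eval (Complex.exp (Complex.I * t))‖ *
          ‖Complex.exp (Complex.I * t) - Complex.exp (Complex.I * ((x 0 : ℝ) : ℂ))‖ ^ 2)
      (volume.restrict (Set.Ioc 0 (2 * Real.pi))) :=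
    (hcont.integrableOn_Icc).mono_set Set.Ioc_subset_Icc_self
  rw [← ofReal_integral_eq_lintegral_ofReal hint (Eventually.of_forall fun t => by positivity),
    ← ENNReal.ofReal_mul (norm_nonneg _), ← ENNReal.ofReal_mul (by positivity)]
  apply ENNReal.ofReal_le_ofReal
  have h := nikw (4 * (M + 2)) p hp (x 0 + s) (x 0)
  push_cast at h
  have hpi := Real.pi_pos
  have h2 := mul_le_mul_of_nonneg_right h (show 0 ≤ 2 * Real.pi by positivity)
  push_cast
  refine h2.trans (le_of_eq ?_)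
  ring

end Pool.Agent.R319.SG
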