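import Pool.Agent.R319.SG.Defs3
import Pool.Agent.R319.SG.MQ0
import Pool.Agent.R319.SG.LQ

/-!
Lower bound for the probability of a small gap under the Haar law.
-/

open MeasureTheory ProbabilityTheory Filter Topology
open scoped ENNReal

namespace Pool.Agent.R319.SG

open Pool.Agent.R319.UM (box ez mon V2 cue)

/-- periodic functions: integral over an interval of length one period -/
lemma hl_per {h : ℝ → ℝ≥0∞} (hper : ∀ x, h (x + 2 * Real.pi) = h x) (a : ℝ) :
    ∫⁻ x in Set.Ioc (0 : ℝ) (2 * Real.pi), h x = ∫⁻ x in Set.Ioc a (a + 2 * Real.pi), h x := by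
  have hp : 0 < 2 * Real.pi := by positivity
  have h1 := isAddFundamentalDomain_Ioc hp 0
  have h2 := isAddFundamentalDomain_Ioc hp a
  have h3 := h1.setLIntegral_eq h2 h (fun g x => by
    obtain ⟨g, n, hn⟩ := g
    have hpe : Function.Periodic h (2 * Real.pi) := hper
    have h4 : (⟨g, ⟨n, hn⟩⟩ : AddSubgroup.zmultiples (2 * Real.pi)) +ᵥ x = g + x := rfl
    rw [h4]
    have h5 : g = n • (2 * Real.pi) := hn.symm
    rw [h5, add_comm]
    exact hpe.zsmul n x)
  rwa [zero_add] at h3

lemma hl_shift (h : ℝ → ℝ≥0∞) (a t : ℝ) :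
    ∫⁻ x in Set.Ioc a (a + t), h x = ∫⁻ s in Set.Ioc (0 : ℝ) t, h (a + s) := by
  have h1 := (measurePreserving_add_left (volume : Measure ℝ) a).setLIntegral_comp_preimage_emb
    (measurableEmbedding_addLeft a) h (Set.Ioc a (a + t))
  rw [← h1]
  congr 2
  ext x
  simp

lemma hl_norm_le {a s : ℝ} (hs : 0 ≤ s) :
    ‖Complex.exp (Complex.I * ((a + s : ℝ) : ℂ)) - Complex.exp (Complex.I * (a : ℂ))‖ ≤ s := by
  have h1 : Complex.exp (Complex.I * ((a + s : ℝ) : ℂ)) - Complex.exp (Complex.I * (a : ℂ)) =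
      Complex.exp (Complex.I * (a : ℂ)) * (Complex.exp (Complex.I * (s : ℂ)) - 1) := by
    push_cast
    rw [mul_add, Complex.exp_add]
    ring
  rw [h1, norm_mul, mul_comm Complex.I (a : ℂ), Complex.norm_exp_ofReal_mul_I, one_mul]
  have := Real.norm_exp_I_mul_ofReal_sub_one_le (x := s)
  rwa [Real.norm_eq_abs, abs_of_nonneg hs] at this

lemma hl_norm_ge {a s : ℝ} (hs : 0 ≤ s) (hs1 : s ≤ 1) :
    s ^ 2 / 4 ≤ ‖Complex.exp (Complex.I * ((a + s : ℝ) : ℂ)) -
      Complex.exp (Complex.I * (a : ℂ))‖ ^ 2 := by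
  have h1 : Complex.exp (Complex.I * ((a + s : ℝ) : ℂ)) - Complex.exp (Complex.I * (a : ℂ)) =
      Complex.exp (Complex.I * (a : ℂ)) * (Complex.exp (Complex.I * (s : ℂ)) - 1) := by
    push_cast
    rw [mul_add, Complex.exp_add]
    ring
  rw [h1, norm_mul, mul_comm Complex.I (a : ℂ), Complex.norm_exp_ofReal_mul_I, one_mul]
  have h2 : Real.sin s ≤ ‖Complex.exp (Complex.I * (s : ℂ)) - 1‖ := by
    have h3 : (Complex.exp (Complex.I * (s : ℂ)) - 1).im = Real.sin s := by
      rw [mul_comm, Complex.sub_im, Complex.exp_ofReal_mul_I_im]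
      simp
    rw [← h3]
    exact (le_abs_self _).trans (Complex.abs_im_le_norm _)
  have h4 : s / 2 ≤ Real.sin s := by
    rcases hs.eq_or_lt with h | h
    · rw [← h]; simp
    · have := Real.sin_gt_sub_cube h
      have h3 : s ^ 3 ≤ s := by
        have : s ^ 3 = s * (s * s) := by ring
        rw [this]
        have : s * s ≤ 1 := by nlinarith
        nlinarith
      linarith
  have h5 : s / 2 ≤ ‖Complex.exp (Complex.I * (s : ℂ)) - 1‖ := h4.trans h2
  have h6 : 0 ≤ s / 2 := by linarith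
  nlinarith [mul_le_mul h5 h5 h6 (h6.trans h5)]

lemma hl_Qnonneg {M : ℕ} (z : Fin (M + 2) → ℂ) : 0 ≤ Q z := by
  unfold Q
  refine Finset.prod_nonneg fun i _ => Finset.prod_nonneg fun j _ => ?_
  split_ifs
  · exact zero_le_one
  · positivity

/-- joint continuity -/
lemma hl_jc {M : ℕ} : Continuous fun p : (Fin (M + 2) → ℝ) × ℝ =>
    p.2 ^ 2 / 4 * Q (ez (mv p.2 p.1)) := by
  have h1 : Continuous fun p : (Fin (M + 2) → ℝ) × ℝ => mv p.2 p.1 := by
    unfold mv
    exact continuous_fst.update 1 (((continuous_apply 0).comp continuous_fst).add continuous_snd)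
  have h2 := mq_Qcont.comp ((ez_cont (N := M + 2)).comp h1)
  exact ((continuous_snd.pow 2).div_const 4).mul h2

/-- the lower bound for the unnormalised mass -/
lemma hl_main {M : ℕ} {t : ℝ} (ht : 0 ≤ t) (ht1 : t ≤ 1) :
    ENNReal.ofReal (t ^ 3 / 12 * ((2 * Real.pi) ^ (M + 1) * M.factorial)) ≤
      ∫⁻ θ in box (M + 2), ({θ : Fin (M + 2) → ℝ | ‖ez θ 1 - ez θ 0‖ ≤ t}.indicator
        (fun θ => ENNReal.ofReal (V2 (ez θ)))) θ := by
  have hpi : 0 < 2 * Real.pi := by positivity
  set S : Set (Fin (M + 2) → ℝ) := {θ | ‖ez θ 1 - ez θ 0‖ ≤ t} with hS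
  have hSm : MeasurableSet S := (isClosed_le (dist_cont 1 0) continuous_const).measurableSet
  have hGm : Measurable (Function.uncurry fun (θ : Fin (M + 2) → ℝ) (s : ℝ) =>
      ENNReal.ofReal (s ^ 2 / 4 * Q (ez (mv s θ)))) := hl_jc.measurable.ennreal_ofReal
  set f : (Fin (M + 2) → ℝ) → ℝ≥0∞ := fun θ => (ENNReal.ofReal (2 * Real.pi))⁻¹ *
    ∫⁻ s in Set.Ioc (0 : ℝ) t, ENNReal.ofReal (s ^ 2 / 4 * Q (ez (mv s θ))) with hf
  have hfm : Measurable f := by
    apply Measurable.const_mul
    exact Measurable.lintegral_prod_right' (f := fun p : (Fin (M + 2) → ℝ) × ℝ =>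
      ENNReal.ofReal (p.2 ^ 2 / 4 * Q (ez (mv p.2 p.1)))) hGm
  set g : (Fin (M + 2) → ℝ) → ℝ≥0∞ := S.indicator (fun θ => ENNReal.ofReal (V2 (ez θ))) with hg
  have hgm : Measurable g := (V2_cont.measurable.ennreal_ofReal).indicator hSm
  have hbox : (volume : Measure (Fin (M + 2) → ℝ)).restrict (box (M + 2)) =
      Measure.pi fun _ : Fin (M + 2) => (volume : Measure ℝ).restrict (Set.Ioc 0 (2 * Real.pi)) := by
    unfold box
    rw [volume_pi, Measure.restrict_pi_pi]
  have h01 : (0 : Fin (M + 2)) ≠ 1 := by simp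
  have hmain : ∫⁻ θ in box (M + 2), f θ ≤ ∫⁻ θ in box (M + 2), g θ := by
    rw [hbox]
    refine lintegral_le_of_lmarginal_le {1} hfm hgm ?_
    rw [lmarginal_singleton, lmarginal_singleton]
    intro θ
    change ∫⁻ u in Set.Ioc (0 : ℝ) (2 * Real.pi), f (Function.update θ 1 u) ≤
      ∫⁻ u in Set.Ioc (0 : ℝ) (2 * Real.pi), g (Function.update θ 1 u)
    have hL : ∀ u : ℝ, f (Function.update θ 1 u) = f θ := by
      intro u
      simp only [hf]
      have : ∀ s : ℝ, mv s (Function.update θ 1 u) = mv s θ := by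
        intro s
        unfold mv
        rw [Function.update_idem, Function.update_of_ne h01]
      simp only [this]
    simp only [hL]
    have hL2 : ∫⁻ _ in Set.Ioc (0 : ℝ) (2 * Real.pi), f θ =
        ∫⁻ s in Set.Ioc (0 : ℝ) t, ENNReal.ofReal (s ^ 2 / 4 * Q (ez (mv s θ))) := by
      rw [lintegral_const, Measure.restrict_apply MeasurableSet.univ, Set.univ_inter,
        Real.volume_Ioc, sub_zero]
      simp only [hf]
      rw [mul_comm, ← mul_assoc, ENNReal.mul_inv_cancel, one_mul]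
      · simpa using Real.pi_pos
      · exact ENNReal.ofReal_ne_top
    rw [hL2]
    have hez : ∀ u : ℝ, ez (Function.update θ 1 (u + 2 * Real.pi)) =
        ez (Function.update θ 1 u) := by
      intro u
      funext j
      unfold ez
      by_cases hj : j = 1
      · subst hj
        rw [Function.update_self, Function.update_self]
        push_cast
        rw [mul_add, Complex.exp_add]
        have : Complex.exp (Complex.I * (2 * Real.pi)) = 1 := by
          rw [mul_comm]; exact Complex.exp_two_pi_mul_I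
        rw [this, mul_one]
      · rw [Function.update_of_ne hj, Function.update_of_ne hj]
    have hper : ∀ u : ℝ, g (Function.update θ 1 (u + 2 * Real.pi)) =
        g (Function.update θ 1 u) := by
      intro u
      simp only [hg, Set.indicator, hS, Set.mem_ofPred_eq, hez]
    rw [hl_per (h := fun u => g (Function.update θ 1 u)) hper (θ 0)]
    have hsub : Set.Ioc (θ 0) (θ 0 + t) ⊆ Set.Ioc (θ 0) (θ 0 + 2 * Real.pi) := by
      apply Set.Ioc_subset_Ioc_right
      have := Real.pi_gt_three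
      linarith
    refine le_trans ?_ (lintegral_mono_set hsub)
    rw [hl_shift]
    refine setLIntegral_mono' measurableSet_Ioc fun s hs => ?_
    have e0 : ez (Function.update θ 1 (θ 0 + s)) 0 = Complex.exp (Complex.I * (θ 0 : ℂ)) := by
      unfold ez
      rw [Function.update_of_ne h01]
    have e1 : ez (Function.update θ 1 (θ 0 + s)) 1 =
        Complex.exp (Complex.I * ((θ 0 + s : ℝ) : ℂ)) := by
      unfold ez
      rw [Function.update_self]
    have hmem : Function.update θ 1 (θ 0 + s) ∈ S := by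
      change ‖ez (Function.update θ 1 (θ 0 + s)) 1 - ez (Function.update θ 1 (θ 0 + s)) 0‖ ≤ t
      rw [e0, e1]
      exact (hl_norm_le hs.1.le).trans hs.2
    simp only [hg]
    rw [Set.indicator_of_mem hmem]
    apply ENNReal.ofReal_le_ofReal
    rw [mq_V2, e0, e1]
    change s ^ 2 / 4 * Q (ez (mv s θ)) ≤ _ * Q (ez (mv s θ))
    exact mul_le_mul_of_nonneg_right (hl_norm_ge hs.1.le (hs.2.trans ht1)) (hl_Qnonneg _)
  refine le_trans ?_ hmain
  simp only [hf]
  rw [lintegral_const_mul' _ _ (by simpa using Real.pi_pos)]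
  rw [lintegral_lintegral_swap hGm.aemeasurable]
  have hstep : ∀ s : ℝ, ENNReal.ofReal (s ^ 2 / 4) *
      ENNReal.ofReal ((2 * Real.pi) ^ (M + 2) * M.factorial) ≤
      ∫⁻ θ in box (M + 2), ENNReal.ofReal (s ^ 2 / 4 * Q (ez (mv s θ))) := by
    intro s
    have : ∀ θ : Fin (M + 2) → ℝ, ENNReal.ofReal (s ^ 2 / 4 * Q (ez (mv s θ))) =
        ENNReal.ofReal (s ^ 2 / 4) * ENNReal.ofReal (Q (ez (mv s θ))) := fun θ =>
      ENNReal.ofReal_mul (by positivity)
    simp only [this]
    rw [lintegral_const_mul' _ _ ENNReal.ofReal_ne_top]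
    exact mul_le_mul' le_rfl (lowQ s)
  refine le_trans ?_ (mul_le_mul' le_rfl (lintegral_mono fun s => hstep s))
  rw [lintegral_mul_const' _ _ ENNReal.ofReal_ne_top]
  have hint : ∫⁻ s in Set.Ioc (0 : ℝ) t, ENNReal.ofReal (s ^ 2 / 4) =
      ENNReal.ofReal (t ^ 3 / 12) := by
    rw [← ofReal_integral_eq_lintegral_ofReal]
    · congr 1
      rw [← intervalIntegral.integral_of_le ht, intervalIntegral.integral_div, integral_pow]
      norm_num
      ring
    · have : Continuous fun s : ℝ => s ^ 2 / 4 := by fun_prop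
      exact this.integrableOn_Ioc
    · exact Eventually.of_forall fun s => by positivity
  rw [hint, ← ENNReal.ofReal_inv_of_pos hpi, ← ENNReal.ofReal_mul (by positivity),
    ← ENNReal.ofReal_mul (by positivity)]
  apply ENNReal.ofReal_le_ofReal
  apply le_of_eq
  field_simp
  ring

theorem haarLow {N : ℕ} (hN : 2 ≤ N) {t : ℝ} (ht : 0 ≤ t) (ht1 : t ≤ 1) :
    ENNReal.ofReal (t ^ 3 / (200 * N ^ 2)) ≤
      (muN N) {θ | gap (ez θ) ≤ ENNReal.ofReal t} := by
  obtain ⟨M, rfl⟩ : ∃ M, N = M + 2 := ⟨N - 2, by omega⟩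
  have h01 : (1 : Fin (M + 2)) ≠ 0 := by simp
  set S : Set (Fin (M + 2) → ℝ) := {θ | ‖ez θ 1 - ez θ 0‖ ≤ t} with hS
  have hSm : MeasurableSet S := (isClosed_le (dist_cont 1 0) continuous_const).measurableSet
  have hsub : S ⊆ {θ | gap (ez θ) ≤ ENNReal.ofReal t} := by
    intro θ hθ
    change gap (ez θ) ≤ ENNReal.ofReal t
    unfold gap
    refine (iInf_le _ 1).trans ((iInf_le _ 0).trans ((iInf_le _ h01).trans ?_))
    exact ENNReal.ofReal_le_ofReal hθ
  refine le_trans ?_ (measure_mono hsub)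
  unfold muN
  rw [withDensity_apply _ hSm, ← lintegral_indicator hSm]
  have h1 : ∀ θ : Fin (M + 2) → ℝ,
      S.indicator (fun θ => ENNReal.ofReal (V2 (ez θ) / nc (M + 2))) θ =
      ENNReal.ofReal (1 / nc (M + 2)) * S.indicator (fun θ => ENNReal.ofReal (V2 (ez θ))) θ := by
    intro θ
    by_cases h : θ ∈ S
    · rw [Set.indicator_of_mem h, Set.indicator_of_mem h,
        ← ENNReal.ofReal_mul (by have := nc_pos (N := M + 2); positivity)]
      congr 1
      ring
    · rw [Set.indicator_of_notMem h, Set.indicator_of_notMem h, mul_zero]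
  simp only [h1]
  rw [lintegral_const_mul' _ _ ENNReal.ofReal_ne_top]
  refine le_trans ?_ (mul_le_mul' le_rfl (hl_main ht ht1))
  have hnc := nc_pos (N := M + 2)
  rw [← ENNReal.ofReal_mul (by positivity)]
  apply ENNReal.ofReal_le_ofReal
  unfold nc
  have hfac : ((M + 2).factorial : ℝ) = (M + 2) * ((M + 1) * M.factorial) := by
    rw [Nat.factorial_succ, Nat.factorial_succ]
    push_cast
    ring
  rw [hfac]
  have hMf : (0 : ℝ) < M.factorial := by exact_mod_cast M.factorial_pos
  have hpi := Real.pi_pos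
  have hpi4 := Real.pi_lt_d2
  have e1 : 1 / ((M + 2) * ((M + 1) * (M.factorial : ℝ)) * (2 * Real.pi) ^ (M + 2)) *
      (t ^ 3 / 12 * ((2 * Real.pi) ^ (M + 1) * M.factorial)) =
      t ^ 3 / (24 * Real.pi * ((M + 2) * (M + 1))) := by
    rw [pow_succ (2 * Real.pi) (M + 1)]
    field_simp
    ring
  rw [e1]
  apply div_le_div_of_nonneg_left (by positivity) (by positivity)
  push_cast
  have hM : (0 : ℝ) ≤ M := Nat.cast_nonneg M
  nlinarith [mul_nonneg hM hM, mul_nonneg (mul_nonneg hM hM) hpi.le, mul_nonneg hM hpi.le,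
    mul_nonneg (mul_nonneg hM hM) (sub_nonneg.2 hpi4.le), mul_nonneg hM (sub_nonneg.2 hpi4.le)]

end Pool.Agent.R319.SG
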