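import Mathlib

set_option autoImplicit false

open MeasureTheory Set Filter Topology
open scoped CompactlySupported NNReal

namespace Pool.Agent.R319.SG

namespace PX

variable {Z : Type*} [TopologicalSpace Z] [CompactSpace Z]

/-- cone of nonnegative continuous functions -/
def cone (Z : Type*) [TopologicalSpace Z] : PointedCone ℝ C(Z, ℝ) where
  carrier := {f | ∀ x, 0 ≤ f x}
  add_mem' := fun {a b} ha hb x => add_nonneg (ha x) (hb x)
  zero_mem' := fun _ => le_rfl
  smul_mem' := fun c f hf x => mul_nonneg c.2 (hf x)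

theorem mem_cone (f : C(Z, ℝ)) : f ∈ cone Z ↔ ∀ x, 0 ≤ f x := Iff.rfl

/-- a linear map which vanishes on the kernel factors through the range -/
theorem factor {W E : Type*} [AddCommGroup W] [Module ℝ W] [AddCommGroup E] [Module ℝ E]
    (r : W →ₗ[ℝ] E) (l : W →ₗ[ℝ] ℝ) (h : ∀ w, r w = 0 → l w = 0) :
    ∃ m : LinearMap.range r →ₗ[ℝ] ℝ, ∀ w, m ⟨r w, LinearMap.mem_range_self r w⟩ = l w := by
  have hk : LinearMap.ker r ≤ LinearMap.ker l := fun w hw => h w hw
  refine ⟨((LinearMap.ker r).liftQ l hk).comp r.quotKerEquivRange.symm.toLinearMap, ?_⟩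
  intro w
  rw [LinearMap.comp_apply]
  have : r.quotKerEquivRange.symm.toLinearMap ⟨r w, LinearMap.mem_range_self r w⟩ =
      (LinearMap.ker r).mkQ w := by
    exact LinearMap.quotKerEquivRange_symm_apply_image r w _
  rw [this]
  exact Submodule.liftQ_apply _ _ _

end PX

theorem posExt {Y : Type*} [MetricSpace Y] [MeasurableSpace Y] [BorelSpace Y]
    (K : Set Y) (hK : IsCompact K) (W : Submodule ℝ (Y → ℝ)) (hc : ∀ w ∈ W, Continuous w)
    (h1 : (fun _ => (1 : ℝ)) ∈ W) (l : W →ₗ[ℝ] ℝ)
    (hpos : ∀ w : W, (∀ x ∈ K, 0 ≤ (w : Y → ℝ) x) → 0 ≤ l w) :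
    ∃ κ : Measure Y, IsFiniteMeasure κ ∧ κ Kᶜ = 0 ∧ ∀ w : W, ∫ x, (w : Y → ℝ) x ∂κ = l w := by
  have hKc : CompactSpace K := isCompact_iff_compactSpace.mp hK
  -- restriction
  let r : W →ₗ[ℝ] C(K, ℝ) :=
    { toFun := fun w => ⟨fun x => (w : Y → ℝ) x, (hc w w.2).comp continuous_subtype_val⟩
      map_add' := fun _ _ => rfl
      map_smul' := fun _ _ => rfl }
  have hr : ∀ (w : W) (x : K), r w x = (w : Y → ℝ) x := fun _ _ => rfl
  have hker : ∀ w, r w = 0 → l w = 0 := by
    intro w hw
    have h0 : ∀ x ∈ K, (w : Y → ℝ) x = 0 := by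
      intro x hx
      have := hr w ⟨x, hx⟩
      rw [hw] at this
      exact this.symm
    have h2 := hpos w (fun x hx => (h0 x hx).symm.le)
    have h3 := hpos (-w) (fun x hx => by
      change 0 ≤ -((w : Y → ℝ) x)
      rw [h0 x hx]
      simp)
    rw [map_neg] at h3
    linarith
  obtain ⟨m, hm⟩ := PX.factor r l hker
  obtain ⟨g, hg1, hg2⟩ := riesz_extension (PX.cone K) ⟨LinearMap.range r, m⟩ (by
    rintro ⟨_, w, rfl⟩ hx
    change 0 ≤ m ⟨r w, LinearMap.mem_range_self r w⟩
    rw [hm]
    apply hpos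
    intro x hxK
    exact hx ⟨x, hxK⟩) (by
    intro y
    refine ⟨⟨r (‖y‖ • ⟨_, h1⟩), LinearMap.mem_range_self r _⟩, ?_⟩
    intro x
    change 0 ≤ r (‖y‖ • ⟨_, h1⟩) x + y x
    have h2 : r (‖y‖ • (⟨_, h1⟩ : W)) x = ‖y‖ := by
      rw [hr]
      change ‖y‖ * 1 = ‖y‖
      rw [mul_one]
    rw [h2]
    have h3 := y.norm_coe_le_norm x
    rw [Real.norm_eq_abs] at h3
    have h4 := neg_le_of_abs_le h3
    linarith)
  let Λ : C_c(K, ℝ) →ₚ[ℝ] ℝ :=
    { toFun := fun f => g f.toContinuousMap
      map_add' := fun f h => by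
        have : (f + h).toContinuousMap = f.toContinuousMap + h.toContinuousMap := rfl
        rw [this, map_add]
      map_smul' := fun c f => by
        have : (c • f).toContinuousMap = c • f.toContinuousMap := rfl
        rw [this, map_smul]
        rfl
      monotone' := fun f h hfh => by
        have h2 : 0 ≤ g (h.toContinuousMap - f.toContinuousMap) := by
          apply hg2
          intro x
          have := hfh x
          change 0 ≤ h x - f x
          exact sub_nonneg.2 this
        rw [map_sub] at h2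
        exact sub_nonneg.1 h2 }
  refine ⟨(RealRMK.rieszMeasure Λ).map Subtype.val, by infer_instance, ?_, ?_⟩
  · rw [Measure.map_apply (by fun_prop) hK.measurableSet.compl]
    simp
  · intro w
    rw [integral_map (by fun_prop) (hc w w.2).aestronglyMeasurable]
    let f : C_c(K, ℝ) :=
      { toFun := r w
        hasCompactSupport' := HasCompactSupport.of_compactSpace _ }
    have h2 := RealRMK.integral_rieszMeasure Λ f
    have h3 : Λ f = l w := by
      change g (r w) = l w
      have h4 := hg1 ⟨r w, LinearMap.mem_range_self r w⟩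
      rw [← hm w]
      exact h4
    rw [← h3, ← h2]
    rfl

end Pool.Agent.R319.SG
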