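import Pool.Agent.R319.SG.CV0
import Pool.Agent.R319.SG.PL

/-!
The mass near the diagonal.
-/

open MeasureTheory ProbabilityTheory Filter Topology
open scoped ENNReal

namespace Pool.Agent.R319.SG

open Pool.Agent.R319.UM (box ez mon V2 cue)

theorem closeV {N : ℕ} {w : (Fin N → ℝ) → ℝ} (hw : w ∈ WW N) {i j : Fin N} (hij : i ≠ j)
    {δ : ℝ} (hδ : 0 ≤ δ) :
    ∫⁻ θ in box N ∩ {θ | ‖ez θ i - ez θ j‖ < δ}, ENNReal.ofReal (|w θ| * V2 (ez θ)) ≤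
      ENNReal.ofReal (2 * (4 * N + 1) * δ) *
        ∫⁻ θ in box N, ENNReal.ofReal (|w θ| * V2 (ez θ)) :=
  closeV_aux hw hij (fun θ => polyV hw j θ) hδ

end Pool.Agent.R319.SG
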