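import Pool.Agent.R319.SG.Defs3
import Pool.Agent.R319.SG.CV

/-!
Positivity from separated configurations.
-/

open MeasureTheory ProbabilityTheory Filter Topology
open scoped ENNReal

namespace Pool.Agent.R319.SG

open Pool.Agent.R319.UM (box ez mon V2 cue)

theorem posK_aux {N : ℕ} (hN : 2 ≤ N) {w : (Fin N → ℝ) → ℝ} (hw : w ∈ WW N)
    (hK : ∀ θ ∈ KK N, 0 ≤ w θ)
    (hcl : ∀ i j : Fin N, i ≠ j → ∀ δ : ℝ, 0 ≤ δ →
      ∫⁻ θ in box N ∩ {θ | ‖ez θ i - ez θ j‖ < δ}, ENNReal.ofReal (|w θ| * V2 (ez θ)) ≤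
      ENNReal.ofReal (2 * (4 * N + 1) * δ) *
        ∫⁻ θ in box N, ENNReal.ofReal (|w θ| * V2 (ez θ))) :
    (1 / 2) * ∫ θ in box N, |w θ| * V2 (ez θ) ≤ ∫ θ in box N, w θ * V2 (ez θ) := by
  classical
  have hN' : (0 : ℝ) < N := by
    have : 0 < N := by omega
    exact_mod_cast this
  have hwc := cont hw
  have hVc := V2_cont (N := N)
  set g : (Fin N → ℝ) → ℝ := fun θ => |w θ| * V2 (ez θ) with hg
  set h : (Fin N → ℝ) → ℝ := fun θ => w θ * V2 (ez θ) with hh
  have gc : Continuous g := hwc.abs.mul hVc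
  have hc : Continuous h := hwc.mul hVc
  have g0 : ∀ θ, 0 ≤ g θ := fun θ => mul_nonneg (abs_nonneg _) (V2_nonneg _)
  have hgh : ∀ θ, -g θ ≤ h θ := by
    intro θ
    have h1 : -|w θ| ≤ w θ := neg_abs_le _
    have h2 := mul_le_mul_of_nonneg_right h1 (V2_nonneg (ez θ))
    have h3 : -|w θ| * V2 (ez θ) = -g θ := by rw [hg]; ring
    rw [h3] at h2
    exact h2
  have hint : ∀ {f : (Fin N → ℝ) → ℝ}, Continuous f → IntegrableOn f (box N) := by
    intro f hf
    have h1 : IntegrableOn f (Set.univ.pi fun _ : Fin N => Set.Icc (0 : ℝ) (2 * Real.pi)) :=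
      hf.continuousOn.integrableOn_compact (isCompact_univ_pi fun _ => isCompact_Icc)
    exact h1.mono_set (Set.pi_mono fun _ _ => Set.Ioc_subset_Icc_self)
  have gi := hint gc
  have hi := hint hc
  have hdl : 0 < dl N := by
    unfold dl
    positivity
  set B : Fin N × Fin N → Set (Fin N → ℝ) := fun p => {θ | ‖ez θ p.1 - ez θ p.2‖ < dl N} with hB
  have hBm : ∀ p, MeasurableSet (B p) := fun p =>
    (isOpen_lt (dist_cont p.1 p.2) continuous_const).measurableSet
  set P : Finset (Fin N × Fin N) := Finset.univ.filter (fun p => p.1 ≠ p.2) with hP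
  set G := ∫ θ in box N, g θ with hG
  have hG0 : 0 ≤ G := integral_nonneg g0
  -- the mass of one bad set
  have hI : ∀ p ∈ P, ∫ θ in box N, (B p).indicator g θ ≤ 2 * (4 * N + 1) * dl N * G := by
    intro p hp
    have hne : p.1 ≠ p.2 := (Finset.mem_filter.1 hp).2
    have h1 := hcl p.1 p.2 hne (dl N) hdl.le
    rw [setIntegral_indicator (hBm p)]
    have hgi' : IntegrableOn g (box N ∩ B p) := gi.mono_set Set.inter_subset_left
    have e1 : ∫⁻ θ in box N ∩ B p, ENNReal.ofReal (g θ) =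
        ENNReal.ofReal (∫ θ in box N ∩ B p, g θ) :=
      (ofReal_integral_eq_lintegral_ofReal hgi' (Eventually.of_forall g0)).symm
    have e2 : ∫⁻ θ in box N, ENNReal.ofReal (g θ) = ENNReal.ofReal G :=
      (ofReal_integral_eq_lintegral_ofReal gi (Eventually.of_forall g0)).symm
    have hc0 : (0 : ℝ) ≤ 2 * (4 * N + 1) * dl N := by positivity
    have h2 : ENNReal.ofReal (∫ θ in box N ∩ B p, g θ) ≤
        ENNReal.ofReal (2 * (4 * N + 1) * dl N * G) := by
      rw [ENNReal.ofReal_mul hc0, ← e1, ← e2]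
      exact h1
    exact (ENNReal.ofReal_le_ofReal_iff (mul_nonneg hc0 hG0)).1 h2
  have hIi : ∀ p, IntegrableOn (fun θ => (B p).indicator g θ) (box N) := fun p =>
    gi.indicator (hBm p)
  -- pointwise
  have hpt : ∀ θ ∈ box N, g θ - 2 * ∑ p ∈ P, (B p).indicator g θ ≤ h θ := by
    intro θ hθ
    have hs0 : ∀ p, 0 ≤ (B p).indicator g θ := fun p => Set.indicator_nonneg (fun x _ => g0 x) θ
    by_cases hbad : ∃ p ∈ P, θ ∈ B p
    · obtain ⟨p, hp, hpB⟩ := hbad
      have h1 : g θ ≤ ∑ p ∈ P, (B p).indicator g θ := by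
        calc g θ = (B p).indicator g θ := (Set.indicator_of_mem hpB g).symm
          _ ≤ ∑ p ∈ P, (B p).indicator g θ := Finset.single_le_sum (fun q _ => hs0 q) hp
      have h2 := hgh θ
      linarith
    · have hθK : θ ∈ KK N := by
        refine ⟨fun j => ?_, fun i j hij => ?_⟩
        · exact Set.Ioc_subset_Icc_self (hθ j (Set.mem_univ j))
        · by_contra hlt
          exact hbad ⟨(i, j), Finset.mem_filter.2 ⟨Finset.mem_univ _, hij⟩, not_le.1 hlt⟩
      have h1 : g θ = h θ := by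
        rw [hg, hh]
        simp only
        rw [abs_of_nonneg (hK θ hθK)]
      have h2 : 0 ≤ ∑ p ∈ P, (B p).indicator g θ := Finset.sum_nonneg fun p _ => hs0 p
      linarith
  have hsi : IntegrableOn (fun θ => ∑ p ∈ P, (B p).indicator g θ) (box N) :=
    integrable_finsetSum _ fun p _ => hIi p
  have h1 : ∫ θ in box N, (g θ - 2 * ∑ p ∈ P, (B p).indicator g θ) ≤ ∫ θ in box N, h θ :=
    setIntegral_mono_on (gi.sub (hsi.const_mul 2)) hi box_meas hpt
  have h2 : ∫ θ in box N, (g θ - 2 * ∑ p ∈ P, (B p).indicator g θ) =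
      G - 2 * ∑ p ∈ P, ∫ θ in box N, (B p).indicator g θ := by
    rw [integral_sub gi (hsi.const_mul 2), integral_const_mul,
      integral_finsetSum _ fun p _ => hIi p]
  have h3 : ∑ p ∈ P, ∫ θ in box N, (B p).indicator g θ ≤ G / 4 := by
    calc ∑ p ∈ P, ∫ θ in box N, (B p).indicator g θ
        ≤ ∑ _p ∈ P, 2 * (4 * N + 1) * dl N * G := Finset.sum_le_sum hI
      _ = P.card * (2 * (4 * N + 1) * dl N * G) := by rw [Finset.sum_const, nsmul_eq_mul]
      _ ≤ (N : ℝ) ^ 2 * (2 * (4 * N + 1) * dl N * G) := by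
          apply mul_le_mul_of_nonneg_right _ (by positivity)
          have h4 : P.card ≤ N ^ 2 := by
            refine (Finset.card_filter_le _ _).trans ?_
            rw [Finset.card_univ, Fintype.card_prod, Fintype.card_fin, sq]
          exact_mod_cast h4
      _ = G / 4 := by
          unfold dl
          field_simp
          ring
  rw [h2] at h1
  linarith

theorem posK {N : ℕ} (hN : 2 ≤ N) {w : (Fin N → ℝ) → ℝ} (hw : w ∈ WW N)
    (hK : ∀ θ ∈ KK N, 0 ≤ w θ) :
    (1 / 2) * ∫ θ in box N, |w θ| * V2 (ez θ) ≤ ∫ θ in box N, w θ * V2 (ez θ) :=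
  posK_aux hN hw hK fun _ _ hij _ hδ => closeV hw hij hδ

end Pool.Agent.R319.SG
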