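import Pool.Agent.R319.SG.Defs2
import Pool.Agent.R319.SG.NK
import Pool.Agent.R319.SG.PL

/-!
Mass near the other diagonals after the move.
-/

open MeasureTheory ProbabilityTheory Filter Topology
open scoped ENNReal

namespace Pool.Agent.R319.SG

open Pool.Agent.R319.UM (box ez mon V2 cue)

namespace CQ

theorem mv_cont {M : ℕ} (s : ℝ) : Continuous (mv (M := M) s) := by
  unfold mv
  exact continuous_id.update 1 ((continuous_apply 0).add continuous_const)

theorem Q_cont {M : ℕ} : Continuous (Q (M := M)) := by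
  unfold Q
  refine continuous_finsetProd _ fun i _ => continuous_finsetProd _ fun j _ => ?_
  split_ifs
  · exact continuous_const
  · exact (((continuous_apply j).sub (continuous_apply i)).norm).pow 2

theorem f_meas {M : ℕ} (s : ℝ) :
    Measurable fun θ : Fin (M + 2) → ℝ => ENNReal.ofReal (Q (ez (mv s θ))) :=
  (Q_cont.comp (ez_cont.comp (mv_cont s))).measurable.ennreal_ofReal

theorem S_meas {M : ℕ} (s : ℝ) (i j : Fin (M + 2)) (δ : ℝ) :
    MeasurableSet {θ : Fin (M + 2) → ℝ | ‖ez (mv s θ) i - ez (mv s θ) j‖ < δ} := by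
  have h : Continuous fun θ : Fin (M + 2) → ℝ => ‖ez (mv s θ) i - ez (mv s θ) j‖ :=
    (dist_cont i j).comp (mv_cont s)
  exact (isOpen_lt h continuous_const).measurableSet

theorem box_restrict (N : ℕ) : (volume : Measure (Fin N → ℝ)).restrict (box N) =
    Measure.pi fun _ => (volume : Measure ℝ).restrict (Set.Ioc 0 (2 * Real.pi)) := by
  unfold box
  rw [volume_pi, Measure.restrict_pi_pi]

/-- the inequality in one variable -/
theorem one_var (n : ℕ) (p : Polynomial ℂ) (hp : p.natDegree ≤ n) (u δ : ℝ) (hδ : 0 ≤ δ) :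
    ∫⁻ t in Set.Ioc (0 : ℝ) (2 * Real.pi),
      ({t : ℝ | ‖Complex.exp (Complex.I * t) - Complex.exp (Complex.I * u)‖ < δ}).indicator
        (fun t => ENNReal.ofReal ‖p.eval (Complex.exp (Complex.I * t))‖) t ≤
      ENNReal.ofReal (2 * (n + 1) * δ) * ∫⁻ t in Set.Ioc (0 : ℝ) (2 * Real.pi),
        ENNReal.ofReal ‖p.eval (Complex.exp (Complex.I * t))‖ := by
  have hc : Continuous fun t : ℝ => ‖p.eval (Complex.exp (Complex.I * t))‖ :=
    ((Polynomial.continuous p).comp
      (Complex.continuous_exp.comp (continuous_const.mul Complex.continuous_ofReal))).norm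
  have hA : MeasurableSet
      {t : ℝ | ‖Complex.exp (Complex.I * t) - Complex.exp (Complex.I * u)‖ < δ} := by
    have h : Continuous fun t : ℝ => ‖Complex.exp (Complex.I * t) - Complex.exp (Complex.I * u)‖ :=
      ((Complex.continuous_exp.comp (continuous_const.mul Complex.continuous_ofReal)).sub
        continuous_const).norm
    exact (isOpen_lt h continuous_const).measurableSet
  have hint : IntegrableOn (fun t : ℝ => ‖p.eval (Complex.exp (Complex.I * t))‖)
      (Set.Ioc (0 : ℝ) (2 * Real.pi)) :=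
    (hc.integrableOn_Icc (a := 0) (b := 2 * Real.pi)).mono_set Set.Ioc_subset_Icc_self
  rw [lintegral_indicator hA, Measure.restrict_restrict hA, Set.inter_comm,
    ← ofReal_integral_eq_lintegral_ofReal (hint.mono_set Set.inter_subset_left)
      (Eventually.of_forall fun _ => norm_nonneg _),
    ← ofReal_integral_eq_lintegral_ofReal hint (Eventually.of_forall fun _ => norm_nonneg _),
    ← ENNReal.ofReal_mul (by positivity)]
  exact ENNReal.ofReal_le_ofReal (arc n p hp u δ hδ)

theorem aux {M : ℕ} (s : ℝ) {i j : Fin (M + 2)} (hij : i ≠ j) (hj : 1 < j)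
    {δ : ℝ} (hδ : 0 ≤ δ) :
    ∫⁻ θ in box (M + 2) ∩ {θ | ‖ez (mv s θ) i - ez (mv s θ) j‖ < δ},
      ENNReal.ofReal (Q (ez (mv s θ))) ≤
      ENNReal.ofReal (2 * (4 * (M + 2) + 1) * δ) *
        ∫⁻ θ in box (M + 2), ENNReal.ofReal (Q (ez (mv s θ))) := by
  have hS := S_meas s i j δ
  have hf := f_meas (M := M) s
  rw [Set.inter_comm, ← Measure.restrict_restrict hS, ← lintegral_indicator hS,
    ← lintegral_const_mul _ hf, box_restrict]
  apply lintegral_le_of_lmarginal_le {j} (hf.indicator hS) (hf.const_mul _)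
  rw [lmarginal_singleton, lmarginal_singleton]
  intro x
  obtain ⟨p, hp, hpe⟩ := polyQmv s j hj x
  have h0j : (0 : Fin (M + 2)) ≠ j := by
    intro h
    rw [← h] at hj
    exact absurd hj (by simp)
  have hmj : ∀ t : ℝ, mv s (Function.update x j t) j = t := by
    intro t
    unfold mv
    rw [Function.update_of_ne hj.ne', Function.update_self]
  have hmi : ∀ t : ℝ, mv s (Function.update x j t) i = mv s x i := by
    intro t
    unfold mv
    by_cases h1 : i = 1
    · subst h1
      rw [Function.update_self, Function.update_self, Function.update_of_ne h0j]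
    · rw [Function.update_of_ne h1, Function.update_of_ne h1, Function.update_of_ne hij]
  have key := one_var (4 * (M + 2)) p hp (mv s x i) δ hδ
  show ∫⁻ t in Set.Ioc (0 : ℝ) (2 * Real.pi), _ ≤ ∫⁻ t in Set.Ioc (0 : ℝ) (2 * Real.pi), _
  have e1 : ∀ t : ℝ, ({θ : Fin (M + 2) → ℝ | ‖ez (mv s θ) i - ez (mv s θ) j‖ < δ}).indicator
      (fun θ => ENNReal.ofReal (Q (ez (mv s θ)))) (Function.update x j t) =
      ({t : ℝ | ‖Complex.exp (Complex.I * t) - Complex.exp (Complex.I * (mv s x i))‖ < δ}).indicator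
        (fun t => ENNReal.ofReal ‖p.eval (Complex.exp (Complex.I * t))‖) t := by
    intro t
    have e : (Function.update x j t ∈
        {θ : Fin (M + 2) → ℝ | ‖ez (mv s θ) i - ez (mv s θ) j‖ < δ}) ↔
        (t ∈ {t : ℝ | ‖Complex.exp (Complex.I * t) - Complex.exp (Complex.I * (mv s x i))‖ < δ}) := by
      rw [Set.mem_ofPred_eq, Set.mem_ofPred_eq, ez, ez, hmj, hmi, norm_sub_rev]
    by_cases h : Function.update x j t ∈
        {θ : Fin (M + 2) → ℝ | ‖ez (mv s θ) i - ez (mv s θ) j‖ < δ}
    · rw [Set.indicator_of_mem h, Set.indicator_of_mem (e.1 h), hpe]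
    · rw [Set.indicator_of_notMem h, Set.indicator_of_notMem (fun h' => h (e.2 h'))]
  have hmeas : Measurable fun t : ℝ => ENNReal.ofReal ‖p.eval (Complex.exp (Complex.I * t))‖ :=
    (((Polynomial.continuous p).comp
      (Complex.continuous_exp.comp (continuous_const.mul Complex.continuous_ofReal))).norm
        ).measurable.ennreal_ofReal
  calc _ = ∫⁻ t in Set.Ioc (0 : ℝ) (2 * Real.pi),
      ({t : ℝ | ‖Complex.exp (Complex.I * t) - Complex.exp (Complex.I * (mv s x i))‖ < δ}).indicator
        (fun t => ENNReal.ofReal ‖p.eval (Complex.exp (Complex.I * t))‖) t :=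
        lintegral_congr fun t => e1 t
    _ ≤ _ := key
    _ = ∫⁻ t in Set.Ioc (0 : ℝ) (2 * Real.pi), ENNReal.ofReal (2 * (4 * (M + 2) + 1) * δ) *
        ENNReal.ofReal ‖p.eval (Complex.exp (Complex.I * t))‖ := by
        rw [lintegral_const_mul _ hmeas]
        push_cast
        rfl
    _ = _ := by
        apply lintegral_congr
        intro t
        rw [hpe]

end CQ

open CQ in
theorem closeQ {M : ℕ} (s : ℝ) {i j : Fin (M + 2)} (hij : i ≠ j) (h1 : ¬ (i = 0 ∧ j = 1))
    (h2 : ¬ (i = 1 ∧ j = 0)) {δ : ℝ} (hδ : 0 ≤ δ) :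
    ∫⁻ θ in box (M + 2) ∩ {θ | ‖ez (mv s θ) i - ez (mv s θ) j‖ < δ},
      ENNReal.ofReal (Q (ez (mv s θ))) ≤
      ENNReal.ofReal (2 * (4 * (M + 2) + 1) * δ) *
        ∫⁻ θ in box (M + 2), ENNReal.ofReal (Q (ez (mv s θ))) := by
  have h01 : ∀ k : Fin (M + 2), ¬ 1 < k → k = 0 ∨ k = 1 := by
    intro k hk
    rw [Fin.lt_def, Fin.val_one] at hk
    rcases (by omega : (k : ℕ) = 0 ∨ (k : ℕ) = 1) with h | h
    · left
      exact Fin.ext h
    · right
      apply Fin.ext
      rw [h, Fin.val_one]
  by_cases hj : 1 < j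
  · exact aux s hij hj hδ
  · by_cases hi : 1 < i
    · have := aux s hij.symm hi hδ
      simp only [norm_sub_rev (ez (mv s _) j)] at this
      exact this
    · exfalso
      rcases h01 i hi with hi | hi <;> rcases h01 j hj with hj | hj
      · exact hij (hi.trans hj.symm)
      · exact h1 ⟨hi, hj⟩
      · exact h2 ⟨hi, hj⟩
      · exact hij (hi.trans hj.symm)

end Pool.Agent.R319.SG
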