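import Pool.Agent.R319.UM7

/-!
Definitions for the exponent of the small gaps in the unitary model.
-/

open MeasureTheory ProbabilityTheory Filter Topology
open scoped ENNReal

namespace Pool.Agent.R319.SG

noncomputable section

/-- the smallest distance between two of the points -/
def gap {N : ℕ} (z : Fin N → ℂ) : ℝ≥0∞ :=
  ⨅ i, ⨅ j, ⨅ (_ : i ≠ j), ENNReal.ofReal ‖z i - z j‖

/-- angles of a configuration with the gap about `s` -/
def conf (N : ℕ) (s : ℝ) : Fin N → ℝ := fun j =>
  if (j : ℕ) = 0 then 0 else if (j : ℕ) = 1 then s else 2 + (j : ℕ) / (N : ℝ)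

end

end Pool.Agent.R319.SG
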