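import Pool.Agent.R319.SG.W2

/-!
Definitions for the quantitative version.
-/

open MeasureTheory ProbabilityTheory Filter Topology
open scoped ENNReal

namespace Pool.Agent.R319.SG

noncomputable section

/-- the squared Vandermonde determinant without the factor of the pair `(0, 1)` -/
def Q {M : ℕ} (z : Fin (M + 2) → ℂ) : ℝ :=
  ∏ i, ∏ j ∈ Finset.Ioi i, if i = 0 ∧ j = 1 then 1 else ‖z j - z i‖ ^ 2

/-- move the point `1` next to the point `0` -/
def mv {M : ℕ} (s : ℝ) (θ : Fin (M + 2) → ℝ) : Fin (M + 2) → ℝ :=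
  Function.update θ 1 (θ 0 + s)

end

end Pool.Agent.R319.SG
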