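import Pool.Agent.R319.SG.Defs2

/-!
Constants for the quantitative version.
-/

open MeasureTheory ProbabilityTheory Filter Topology
open scoped ENNReal

namespace Pool.Agent.R319.SG

open Pool.Agent.R319.UM (box ez mon V2 cue)

noncomputable section

/-- separation -/
def dl (N : ℕ) : ℝ := 1 / (8 * (4 * N + 1) * N ^ 2)

/-- constant -/
def AA (N : ℕ) : ℝ := 64 * (4 * N + 1) ^ 3 * N ^ 2

/-- separated configurations in the closed box -/
def KK (N : ℕ) : Set (Fin N → ℝ) :=
  {θ | (∀ j, θ j ∈ Set.Icc (0 : ℝ) (2 * Real.pi)) ∧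
    ∀ i j, i ≠ j → dl N ≤ ‖ez θ i - ez θ j‖}

end

end Pool.Agent.R319.SG
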