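import Pool.Agent.R319.SG.PC
import Pool.Agent.R319.SG.Defs3

/-!
# SG3-D: the almost sure exponent for growing block sizes (piece `finalBC`, by helper609)
-/

open MeasureTheory ProbabilityTheory Filter Topology
open scoped ENNReal

namespace Pool.Agent.R319.SG

namespace FBAux

/-- finiteness of a sum is a matter of the tail -/
lemma tsum_ne_top_of_eventually_le {f g : ℕ → ℝ≥0∞} (hf : ∀ k, f k ≠ ∞)
    (h : ∀ᶠ k in atTop, f k ≤ g k) (hg : ∑' k, g k ≠ ∞) : ∑' k, f k ≠ ∞ := by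
  obtain ⟨K, hK⟩ := eventually_atTop.1 h
  have h1 : ∀ k, f k ≤ g k + (if k < K then f k else 0) := by
    intro k
    by_cases hk : k < K
    · rw [if_pos hk]
      exact le_add_self
    · rw [if_neg hk, add_zero]
      exact hK k (not_lt.1 hk)
  have h2 : ∑' k, (if k < K then f k else 0) ≠ ∞ := by
    rw [tsum_eq_sum (s := Finset.range K) (fun k hk => if_neg (by simpa using hk))]
    refine ENNReal.sum_ne_top.2 fun k _ => ?_
    split_ifs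
    · exact hf k
    · exact ENNReal.zero_ne_top
  refine ne_top_of_le_ne_top ?_ (ENNReal.tsum_le_tsum h1)
  rw [ENNReal.tsum_add]
  exact ENNReal.add_ne_top.2 ⟨hg, h2⟩

lemma N_le {N : ℕ → ℕ} (hN : ∀ k, 2 ≤ N k)
    (hlog : Tendsto (fun k : ℕ => Real.log (N k) / Real.log k) atTop (𝓝 0)) {η : ℝ}
    (hη : 0 < η) : ∀ᶠ k : ℕ in atTop, (N k : ℝ) ≤ (k : ℝ) ^ η := by
  filter_upwards [hlog.eventually_lt_const hη, eventually_ge_atTop 2] with k hk hk2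
  have hk1 : (1 : ℝ) < k := by exact_mod_cast hk2
  have hk0 : (0 : ℝ) < k := by linarith
  have hl : 0 < Real.log k := Real.log_pos hk1
  rw [div_lt_iff₀ hl] at hk
  have hN0 : (0 : ℝ) < N k := by
    have := hN k
    exact_mod_cast (by omega : 0 < N k)
  rw [← Real.log_le_log_iff hN0 (Real.rpow_pos_of_pos hk0 _), Real.log_rpow hk0]
  exact hk.le

lemma dl_ge {N : ℕ} (hN : 2 ≤ N) : 1 / (40 * (N : ℝ) ^ 3) ≤ dl N := by
  have hN' : (2 : ℝ) ≤ N := by exact_mod_cast hN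
  unfold dl
  refine one_div_le_one_div_of_le (by positivity) ?_
  have h : 4 * (N : ℝ) + 1 ≤ 5 * N := by linarith
  calc 8 * (4 * (N : ℝ) + 1) * (N : ℝ) ^ 2 ≤ 8 * (5 * N) * (N : ℝ) ^ 2 := by gcongr
    _ = 40 * (N : ℝ) ^ 3 := by ring

lemma AA_pos {N : ℕ} (hN : 2 ≤ N) : 0 < AA N := by
  have hN' : (2 : ℝ) ≤ N := by exact_mod_cast hN
  unfold AA
  positivity

lemma AA_le {N : ℕ} (hN : 2 ≤ N) : AA N ≤ 8000 * (N : ℝ) ^ 5 := by
  have hN' : (2 : ℝ) ≤ N := by exact_mod_cast hN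
  unfold AA
  have h : 4 * (N : ℝ) + 1 ≤ 5 * N := by linarith
  calc 64 * (4 * (N : ℝ) + 1) ^ 3 * (N : ℝ) ^ 2 ≤ 64 * (5 * N) ^ 3 * (N : ℝ) ^ 2 := by gcongr
    _ = 8000 * (N : ℝ) ^ 5 := by ring

lemma pow_lt_dl {N : ℕ → ℕ} (hN : ∀ k, 2 ≤ N k)
    (hlog : Tendsto (fun k : ℕ => Real.log (N k) / Real.log k) atTop (𝓝 0)) {b : ℝ}
    (hb : b < 0) : ∀ᶠ k : ℕ in atTop, (k : ℝ) ^ b < dl (N k) := by
  have ht : Tendsto (fun k : ℕ => (k : ℝ) ^ (-(-b / 4))) atTop (𝓝 0) :=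
    (tendsto_rpow_neg_atTop (by linarith : 0 < -b / 4)).comp tendsto_natCast_atTop_atTop
  filter_upwards [N_le hN hlog (by linarith : 0 < -b / 4),
    ht.eventually_lt_const (by norm_num : (0 : ℝ) < 1 / 40), eventually_ge_atTop 1] with
    k hk hk2 hk1
  have hk0 : (0 : ℝ) < k := by exact_mod_cast hk1
  refine lt_of_lt_of_le ?_ (dl_ge (hN k))
  have hN0 : (0 : ℝ) < N k := by
    have := hN k
    exact_mod_cast (by omega : 0 < N k)
  rw [lt_div_iff₀ (by positivity)]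
  have h1 : (N k : ℝ) ^ 3 ≤ ((k : ℝ) ^ (-b / 4)) ^ 3 := pow_le_pow_left₀ hN0.le hk 3
  have h2 : ((k : ℝ) ^ (-b / 4)) ^ 3 = (k : ℝ) ^ (-b / 4 * 3) := by
    rw [← Real.rpow_natCast, ← Real.rpow_mul hk0.le]
    norm_num
  have h3 : (k : ℝ) ^ b * (k : ℝ) ^ (-b / 4 * 3) = (k : ℝ) ^ (-(-b / 4)) := by
    rw [← Real.rpow_add hk0]
    congr 1
    ring
  calc (k : ℝ) ^ b * (40 * (N k : ℝ) ^ 3) ≤ (k : ℝ) ^ b * (40 * (k : ℝ) ^ (-b / 4 * 3)) := by
        rw [← h2]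
        have := Real.rpow_nonneg hk0.le b
        gcongr
    _ = 40 * ((k : ℝ) ^ b * (k : ℝ) ^ (-b / 4 * 3)) := by ring
    _ = 40 * (k : ℝ) ^ (-(-b / 4)) := by rw [h3]
    _ < 1 := by linarith

lemma const_ge {N : ℕ → ℕ} (hN : ∀ k, 2 ≤ N k)
    (hlog : Tendsto (fun k : ℕ => Real.log (N k) / Real.log k) atTop (𝓝 0)) {η : ℝ}
    (hη : 0 < η) : ∀ᶠ k : ℕ in atTop,
      (1 / 128000000) / (k : ℝ) ≤ 1 / (2 * AA (N k) ^ 2) * (k : ℝ) ^ (-1 + η) := by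
  filter_upwards [N_le hN hlog (by linarith : 0 < η / 10), eventually_ge_atTop 1] with k hk hk1
  have hk0 : (0 : ℝ) < k := by exact_mod_cast hk1
  have hN0 : (0 : ℝ) < N k := by
    have := hN k
    exact_mod_cast (by omega : 0 < N k)
  have hA := AA_pos (hN k)
  have h1 : AA (N k) ^ 2 ≤ 64000000 * (N k : ℝ) ^ 10 := by
    calc AA (N k) ^ 2 ≤ (8000 * (N k : ℝ) ^ 5) ^ 2 := pow_le_pow_left₀ hA.le (AA_le (hN k)) 2
      _ = 64000000 * (N k : ℝ) ^ 10 := by ring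
  have h2 : (N k : ℝ) ^ 10 ≤ (k : ℝ) ^ η := by
    calc (N k : ℝ) ^ 10 ≤ ((k : ℝ) ^ (η / 10)) ^ 10 := pow_le_pow_left₀ hN0.le hk 10
      _ = (k : ℝ) ^ η := by
        rw [← Real.rpow_natCast, ← Real.rpow_mul hk0.le]
        congr 1
        push_cast
        ring
  have h3 : (k : ℝ) ^ (-1 + η) = (k : ℝ) ^ η / k := by
    rw [Real.rpow_add hk0, Real.rpow_neg_one]
    ring
  rw [h3, div_mul_div_comm, one_mul, div_le_div_iff₀ hk0 (by positivity)]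
  have h4 : 2 * AA (N k) ^ 2 ≤ 128000000 * (k : ℝ) ^ η := by linarith
  calc 1 / 128000000 * (2 * AA (N k) ^ 2 * (k : ℝ))
      ≤ 1 / 128000000 * (128000000 * (k : ℝ) ^ η * (k : ℝ)) := by gcongr
    _ = (k : ℝ) ^ η * k := by ring

end FBAux

open FBAux in
theorem finalBC {N : ℕ → ℕ} (hN : ∀ k, 2 ≤ N k)
    (hlog : Tendsto (fun k : ℕ => Real.log (N k) / Real.log k) atTop (𝓝 0))
    (α : EReal) (hα : α ≤ 0) (τ : Measure ℝ) [IsProbabilityMeasure τ]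
    (h1 : ∀ b : ℝ, (b : EReal) < α → ∀ c : ℝ, 0 < c →
      ∑' k : ℕ, τ (Set.Iic (c * (k : ℝ) ^ b)) ≠ ∞)
    (h2 : ∀ b : ℝ, α < (b : EReal) → ∃ η : ℝ, 0 < η ∧ ∀ k : ℕ, 1 ≤ k →
      ENNReal.ofReal ((k : ℝ) ^ (-1 + η)) ≤ τ (Set.Iic ((k : ℝ) ^ b)))
    {Ω : Type*} [MeasurableSpace Ω] (P : Measure Ω) [IsProbabilityMeasure P]
    (Y : ℕ → Ω → ℝ≥0∞) (hY : ∀ k, Measurable (Y k)) (hind : iIndepFun Y P)
    (h3 : ∀ (k : ℕ) (t : ℝ), 0 ≤ t → t < dl (N k) →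
      P {ω | Y k ω ≤ ENNReal.ofReal t} ≤ τ (Set.Iic (2 * t)))
    (h4 : ∀ (k : ℕ) (t : ℝ), ENNReal.ofReal (1 / (2 * AA (N k) ^ 2)) * τ (Set.Iic t) ≤
      P {ω | Y k ω ≤ ENNReal.ofReal t}) :
    ∀ᵐ ω ∂P, liminf (fun k : ℕ => ENNReal.log (Y k ω) / ((Real.log k : ℝ) : EReal)) atTop = α := by
  refine bc P Y hY hind α ?_ ?_
  · intro b hb
    have hb0 : b < 0 := by
      have h := lt_of_lt_of_le hb hα
      exact_mod_cast h
    refine tsum_ne_top_of_eventually_le (fun k => measure_ne_top P _) ?_ (h1 b hb 2 two_pos)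
    filter_upwards [pow_lt_dl hN hlog hb0] with k hk
    exact h3 k _ (Real.rpow_nonneg (Nat.cast_nonneg k) b) hk
  · intro b hb
    obtain ⟨η, hη, hk⟩ := h2 b hb
    by_contra hne
    have h5 : ∑' k : ℕ, ENNReal.ofReal ((1 / 128000000) / (k : ℝ)) ≠ ∞ := by
      refine tsum_ne_top_of_eventually_le (fun k => ENNReal.ofReal_ne_top) ?_ hne
      filter_upwards [const_ge hN hlog hη, eventually_ge_atTop 1] with k h6 hk1
      refine le_trans ?_ (h4 k _)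
      have hA := AA_pos (hN k)
      calc ENNReal.ofReal ((1 / 128000000) / (k : ℝ))
          ≤ ENNReal.ofReal (1 / (2 * AA (N k) ^ 2) * (k : ℝ) ^ (-1 + η)) :=
            ENNReal.ofReal_le_ofReal h6
        _ = ENNReal.ofReal (1 / (2 * AA (N k) ^ 2)) * ENNReal.ofReal ((k : ℝ) ^ (-1 + η)) :=
            ENNReal.ofReal_mul (by positivity)
        _ ≤ _ := by
            gcongr
            exact hk k hk1
    have h7 := ENNReal.summable_toReal h5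
    have h8 : Summable (fun k : ℕ => (1 / 128000000 : ℝ) * (1 / (k : ℝ))) := by
      refine h7.congr fun k => ?_
      rw [ENNReal.toReal_ofReal (by positivity)]
      ring
    have h9 : Summable (fun k : ℕ => 1 / (k : ℝ)) :=
      (summable_mul_left_iff (by norm_num : (1 / 128000000 : ℝ) ≠ 0)).1 h8
    exact Real.not_summable_one_div_natCast h9

end Pool.Agent.R319.SG
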