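import Pool.Agent.R319.SG.Defs3
import Pool.Agent.R319.SG.FB

/-!
# SG4-H3: the almost sure exponent -1/3 for the Haar law (piece `finalHaar`, by helper880)
-/

open MeasureTheory ProbabilityTheory Filter Topology
open scoped ENNReal

namespace Pool.Agent.R319.SG

namespace HBAux

lemma sum_fin {p : ℝ} (hp : p < -1) (C : ℝ) :
    ∑' k : ℕ, ENNReal.ofReal (C * (k : ℝ) ^ p) ≠ ∞ :=
  ((Real.summable_nat_rpow.2 hp).mul_left C).tsum_ofReal_ne_top

lemma up_le {N : ℕ → ℕ} (hN : ∀ k, 2 ≤ N k)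
    (hlog : Tendsto (fun k : ℕ => Real.log (N k) / Real.log k) atTop (𝓝 0)) {η b : ℝ}
    (hη : 0 < η) : ∀ᶠ k : ℕ in atTop,
      200 * (4 * (N k : ℝ) + 1) ^ 3 * (N k : ℝ) ^ 2 * ((k : ℝ) ^ b) ^ 3 ≤
        25000 * (k : ℝ) ^ (5 * η + 3 * b) := by
  filter_upwards [FBAux.N_le hN hlog hη, eventually_ge_atTop 1] with k hk hk1
  have hk0 : (0 : ℝ) < k := by exact_mod_cast hk1
  have hN1 : (1 : ℝ) ≤ N k := by
    have := hN k
    exact_mod_cast (by omega : 1 ≤ N k)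
  have h1 : (4 * (N k : ℝ) + 1) ^ 3 ≤ (5 * (N k : ℝ)) ^ 3 :=
    pow_le_pow_left₀ (by linarith) (by linarith) 3
  have h2 : (N k : ℝ) ^ 5 ≤ (k : ℝ) ^ (5 * η) := by
    calc (N k : ℝ) ^ 5 ≤ ((k : ℝ) ^ η) ^ 5 := pow_le_pow_left₀ (by linarith) hk 5
      _ = (k : ℝ) ^ (5 * η) := by
        rw [← Real.rpow_natCast, ← Real.rpow_mul hk0.le]
        congr 1
        push_cast
        ring
  have h3 : ((k : ℝ) ^ b) ^ 3 = (k : ℝ) ^ (3 * b) := by
    rw [← Real.rpow_natCast, ← Real.rpow_mul hk0.le]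
    congr 1
    push_cast
    ring
  rw [h3, Real.rpow_add hk0]
  have h4 : 0 ≤ (k : ℝ) ^ (3 * b) := Real.rpow_nonneg hk0.le _
  calc 200 * (4 * (N k : ℝ) + 1) ^ 3 * (N k : ℝ) ^ 2 * (k : ℝ) ^ (3 * b)
      ≤ 200 * (5 * (N k : ℝ)) ^ 3 * (N k : ℝ) ^ 2 * (k : ℝ) ^ (3 * b) := by gcongr
    _ = 25000 * ((N k : ℝ) ^ 5 * (k : ℝ) ^ (3 * b)) := by ring
    _ ≤ 25000 * ((k : ℝ) ^ (5 * η) * (k : ℝ) ^ (3 * b)) := by gcongr

lemma lo_le {N : ℕ → ℕ} (hN : ∀ k, 2 ≤ N k)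
    (hlog : Tendsto (fun k : ℕ => Real.log (N k) / Real.log k) atTop (𝓝 0)) {b : ℝ}
    (hb : -1 / 3 < b) : ∀ᶠ k : ℕ in atTop,
      (1 / 200) * (1 / (k : ℝ)) ≤ ((k : ℝ) ^ b) ^ 3 / (200 * (N k : ℝ) ^ 2) := by
  filter_upwards [FBAux.N_le hN hlog (by linarith : 0 < (3 * b + 1) / 2),
    eventually_ge_atTop 1] with k hk hk1
  have hk0 : (0 : ℝ) < k := by exact_mod_cast hk1
  have hN1 : (1 : ℝ) ≤ N k := by
    have := hN k
    exact_mod_cast (by omega : 1 ≤ N k)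
  have h2 : (N k : ℝ) ^ 2 ≤ (k : ℝ) ^ (3 * b + 1) := by
    calc (N k : ℝ) ^ 2 ≤ ((k : ℝ) ^ ((3 * b + 1) / 2)) ^ 2 :=
          pow_le_pow_left₀ (by linarith) hk 2
      _ = (k : ℝ) ^ (3 * b + 1) := by
        rw [← Real.rpow_natCast, ← Real.rpow_mul hk0.le]
        congr 1
        push_cast
        ring
  have h3 : ((k : ℝ) ^ b) ^ 3 = (k : ℝ) ^ (3 * b) := by
    rw [← Real.rpow_natCast, ← Real.rpow_mul hk0.le]
    congr 1
    push_cast
    ring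
  have h4 : (k : ℝ) ^ (3 * b + 1) = (k : ℝ) ^ (3 * b) * k := by
    rw [Real.rpow_add hk0, Real.rpow_one]
  rw [h3, div_mul_div_comm, one_mul, div_le_div_iff₀ (by positivity) (by positivity)]
  rw [h4] at h2
  nlinarith [h2]

end HBAux

open HBAux in
theorem finalHaar {N : ℕ → ℕ} (hN : ∀ k, 2 ≤ N k)
    (hlog : Tendsto (fun k : ℕ => Real.log (N k) / Real.log k) atTop (𝓝 0))
    {Ω : Type*} [MeasurableSpace Ω] (P : Measure Ω) [IsProbabilityMeasure P]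
    (Y : ℕ → Ω → ℝ≥0∞) (hY : ∀ k, Measurable (Y k)) (hind : iIndepFun Y P)
    (h3 : ∀ (k : ℕ) (t : ℝ), 0 ≤ t →
      P {ω | Y k ω ≤ ENNReal.ofReal t} ≤
        ENNReal.ofReal (200 * (4 * (N k : ℝ) + 1) ^ 3 * (N k : ℝ) ^ 2 * t ^ 3))
    (h4 : ∀ (k : ℕ) (t : ℝ), 0 ≤ t → t ≤ 1 →
      ENNReal.ofReal (t ^ 3 / (200 * (N k : ℝ) ^ 2)) ≤ P {ω | Y k ω ≤ ENNReal.ofReal t}) :
    ∀ᵐ ω ∂P, liminf (fun k : ℕ => ENNReal.log (Y k ω) / ((Real.log k : ℝ) : EReal)) atTop =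
      ((-1 / 3 : ℝ) : EReal) := by
  refine bc P Y hY hind ((-1 / 3 : ℝ) : EReal) ?_ ?_
  · intro b hb
    have hb' : b < -1 / 3 := by exact_mod_cast hb
    set η : ℝ := (-1 / 3 - b) * (3 / 10) with hη
    have hη0 : 0 < η := by rw [hη]; nlinarith
    have hp : 5 * η + 3 * b < -1 := by rw [hη]; linarith
    refine FBAux.tsum_ne_top_of_eventually_le (fun k => measure_ne_top P _) ?_ (sum_fin hp 25000)
    filter_upwards [up_le (b := b) hN hlog hη0] with k hk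
    exact (h3 k _ (Real.rpow_nonneg (Nat.cast_nonneg k) b)).trans (ENNReal.ofReal_le_ofReal hk)
  · intro b hb
    have hb' : -1 / 3 < b := by exact_mod_cast hb
    by_contra hne
    have hc : -1 / 3 < min b (-1 / 6) := lt_min hb' (by norm_num)
    have h5 : ∑' k : ℕ, ENNReal.ofReal ((1 / 200) * (1 / (k : ℝ))) ≠ ∞ := by
      refine FBAux.tsum_ne_top_of_eventually_le (fun k => ENNReal.ofReal_ne_top) ?_ hne
      filter_upwards [lo_le hN hlog hc, eventually_ge_atTop 1] with k h6 hk1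
      have hk1' : (1 : ℝ) ≤ k := by exact_mod_cast hk1
      have hle1 : (k : ℝ) ^ (min b (-1 / 6)) ≤ 1 :=
        Real.rpow_le_one_of_one_le_of_nonpos hk1' ((min_le_right _ _).trans (by norm_num))
      refine (ENNReal.ofReal_le_ofReal h6).trans
        ((h4 k _ (Real.rpow_nonneg (Nat.cast_nonneg k) _) hle1).trans (measure_mono ?_))
      intro ω hω
      exact le_trans hω (ENNReal.ofReal_le_ofReal
        (Real.rpow_le_rpow_of_exponent_le hk1' (min_le_left _ _)))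
    have h7 := ENNReal.summable_toReal h5
    have h8 : Summable (fun k : ℕ => (1 / 200 : ℝ) * (1 / (k : ℝ))) := by
      refine h7.congr fun k => ?_
      rw [ENNReal.toReal_ofReal (by positivity)]
    have h9 : Summable (fun k : ℕ => 1 / (k : ℝ)) :=
      (summable_mul_left_iff (by norm_num : (1 / 200 : ℝ) ≠ 0)).1 h8
    exact Real.not_summable_one_div_natCast h9

end Pool.Agent.R319.SG
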