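import Pool.Agent.R319.SG.MQ0
import Pool.Agent.R319.SG.NK
import Pool.Agent.R319.SG.PL

/-!
Moving a point next to another one.
-/

open MeasureTheory ProbabilityTheory Filter Topology
open scoped ENNReal

namespace Pool.Agent.R319.SG

open Pool.Agent.R319.UM (box ez mon V2 cue)

/-- S4 -/
theorem moveQ {M : ℕ} {w : (Fin (M + 2) → ℝ) → ℝ} (hw : w ∈ WW (M + 2)) (s : ℝ) :
    ∫⁻ θ in box (M + 2), ENNReal.ofReal (|w (mv s θ)| * Q (ez (mv s θ))) ≤
      ENNReal.ofReal (12 * Real.pi * (4 * (M + 2) + 1) ^ 3) *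
        ∫⁻ θ in box (M + 2), ENNReal.ofReal (|w θ| * V2 (ez θ)) :=
  moveQ_of hw s nikw (polyQ hw)

end Pool.Agent.R319.SG
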