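import Mathlib

/-!
Project SG, piece PA: an abstract finite-dimensional perturbation lemma (helper606).
-/

set_option autoImplicit false

namespace Pool.Agent.R319.SG

open MeasureTheory Filter Topology

section PA

variable {X : Type*} [MeasurableSpace X]

theorem pa_integrable {W : Submodule ℝ (X → ℝ)} (hm : ∀ w ∈ W, Measurable w)
    (hb : ∀ w ∈ W, ∃ C : ℝ, ∀ x, |w x| ≤ C) (ν : Measure X) [IsFiniteMeasure ν]
    {w : X → ℝ} (hw : w ∈ W) : Integrable w ν := by
  obtain ⟨C, hC⟩ := hb w hw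
  exact Integrable.of_bound (hm w hw).aestronglyMeasurable C (ae_of_all _ fun x => by
    rw [Real.norm_eq_abs]; exact hC x)

theorem pa_integrable_mul {W : Submodule ℝ (X → ℝ)} (hm : ∀ w ∈ W, Measurable w)
    (hb : ∀ w ∈ W, ∃ C : ℝ, ∀ x, |w x| ≤ C) (ν : Measure X) [IsFiniteMeasure ν]
    {v w : X → ℝ} (hv : v ∈ W) (hw : w ∈ W) : Integrable (fun x => v x * w x) ν := by
  obtain ⟨C, hC⟩ := hb w hw
  obtain ⟨D, hD⟩ := hb v hv
  refine Integrable.of_bound ((hm v hv).mul (hm w hw)).aestronglyMeasurable (D * C)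
    (ae_of_all _ fun x => ?_)
  rw [Real.norm_eq_abs, abs_mul]
  exact mul_le_mul (hD x) (hC x) (abs_nonneg _) ((abs_nonneg _).trans (hD x))

/-- integration as a linear functional -/
noncomputable def paInt (W : Submodule ℝ (X → ℝ)) (hm : ∀ w ∈ W, Measurable w)
    (hb : ∀ w ∈ W, ∃ C : ℝ, ∀ x, |w x| ≤ C) (ν : Measure X) [IsFiniteMeasure ν] : W →ₗ[ℝ] ℝ where
  toFun w := ∫ x, (w : X → ℝ) x ∂ν
  map_add' v w := by
    have := integral_add (pa_integrable hm hb ν v.2) (pa_integrable hm hb ν w.2)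
    simpa using this
  map_smul' c w := by
    have := integral_const_mul (μ := ν) c (fun x => (w : X → ℝ) x)
    simpa using this

/-- the bilinear form -/
noncomputable def paBil (W : Submodule ℝ (X → ℝ)) (hm : ∀ w ∈ W, Measurable w)
    (hb : ∀ w ∈ W, ∃ C : ℝ, ∀ x, |w x| ≤ C) (ν : Measure X) [IsFiniteMeasure ν] :
    W →ₗ[ℝ] W →ₗ[ℝ] ℝ :=
  LinearMap.mk₂ ℝ (fun v w => ∫ x, (v : X → ℝ) x * (w : X → ℝ) x ∂ν)
    (fun v v' w => by
      have := integral_add (pa_integrable_mul hm hb ν v.2 w.2) (pa_integrable_mul hm hb ν v'.2 w.2)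
      rw [← this]
      refine integral_congr_ae (ae_of_all _ fun x => ?_)
      change ((v : X → ℝ) x + (v' : X → ℝ) x) * (w : X → ℝ) x = _
      ring)
    (fun c v w => by
      have := integral_const_mul (μ := ν) c (fun x => (v : X → ℝ) x * (w : X → ℝ) x)
      rw [smul_eq_mul, ← this]
      refine integral_congr_ae (ae_of_all _ fun x => ?_)
      change (c * (v : X → ℝ) x) * (w : X → ℝ) x = _
      ring)
    (fun v w w' => by
      have := integral_add (pa_integrable_mul hm hb ν v.2 w.2) (pa_integrable_mul hm hb ν v.2 w'.2)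
      rw [← this]
      refine integral_congr_ae (ae_of_all _ fun x => ?_)
      change (v : X → ℝ) x * ((w : X → ℝ) x + (w' : X → ℝ) x) = _
      ring)
    (fun c v w => by
      have := integral_const_mul (μ := ν) c (fun x => (v : X → ℝ) x * (w : X → ℝ) x)
      rw [smul_eq_mul, ← this]
      refine integral_congr_ae (ae_of_all _ fun x => ?_)
      change (v : X → ℝ) x * (c * (w : X → ℝ) x) = _
      ring)

theorem perturb {X : Type*} [MeasurableSpace X] (μ : Measure X) [IsProbabilityMeasure μ]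
    (W : Submodule ℝ (X → ℝ)) [FiniteDimensional ℝ W]
    (hm : ∀ w ∈ W, Measurable w) (hb : ∀ w ∈ W, ∃ C : ℝ, ∀ x, |w x| ≤ C)
    (U : Set X) (hU : MeasurableSet U) (hpos : ∀ w ∈ W, ∫ x in U, w x ^ 2 ∂μ = 0 → w = 0)
    (S : ℕ → Set X) (hS : ∀ n, MeasurableSet (S n)) (hUS : ∀ n, U ⊆ S n)
    (hlim : Tendsto (fun n => μ (S n)ᶜ) atTop (𝓝 0)) :
    ∃ (n : ℕ) (ε : ℝ), 0 < ε ∧ ε < 1 ∧ ∀ (ρ : Measure X) [IsProbabilityMeasure ρ],
      ∃ κ : Measure X, IsFiniteMeasure κ ∧ κ (S n)ᶜ = 0 ∧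
        ∀ w ∈ W, ε * ∫ x, w x ∂ρ + ∫ x, w x ∂κ = ∫ x, w x ∂μ := by
  classical
  set L := paBil W hm hb (μ.restrict U) with hL
  have hLinj : Function.Injective L := by
    rw [injective_iff_map_eq_zero]
    intro φ hφ
    have h1 : L φ φ = 0 := by rw [hφ]; rfl
    have h2 : ∫ x in U, (φ : X → ℝ) x ^ 2 ∂μ = 0 := by
      rw [← h1]
      change _ = ∫ x, (φ : X → ℝ) x * (φ : X → ℝ) x ∂(μ.restrict U)
      refine integral_congr_ae (ae_of_all _ fun x => ?_)
      change (φ : X → ℝ) x ^ 2 = (φ : X → ℝ) x * (φ : X → ℝ) x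
      ring
    exact Subtype.ext (hpos φ φ.2 h2)
  have hLsurj : Function.Surjective L :=
    (LinearMap.injective_iff_surjective_of_finrank_eq_finrank
      (Subspace.dual_finrank_eq (K := ℝ) (V := W)).symm).1 hLinj
  let b := Module.finBasis ℝ W
  choose φ hφ using fun i => hLsurj (b.coord i)
  choose M hM using fun i => hb (φ i) (φ i).2
  choose B hB using fun i => hb (b i) (b i).2
  set D : ℝ := ∑ i, |B i| * |M i| with hD
  have hD0 : 0 ≤ D := Finset.sum_nonneg fun i _ => mul_nonneg (abs_nonneg _) (abs_nonneg _)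
  set δ : ℝ := 1 / (2 * (D + 1)) with hδ
  have hδ0 : 0 < δ := by positivity
  have hδ1 : δ < 1 := by
    rw [hδ, div_lt_one (by positivity)]
    linarith
  have hδD : 2 * δ * D ≤ 1 := by
    rw [hδ]
    have : 2 * (1 / (2 * (D + 1))) * D = D / (D + 1) := by field_simp
    rw [this, div_le_one (by positivity)]
    linarith
  obtain ⟨n, hn⟩ : ∃ n, μ (S n)ᶜ < ENNReal.ofReal δ :=
    (hlim.eventually (gt_mem_nhds (ENNReal.ofReal_pos.2 hδ0))).exists
  have hn' : μ.real (S n)ᶜ ≤ δ := by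
    rw [measureReal_def]
    exact (ENNReal.toReal_lt_of_lt_ofReal hn).le
  refine ⟨n, δ, hδ0, hδ1, fun ρ _ => ?_⟩
  set lam : W →ₗ[ℝ] ℝ := paInt W hm hb (μ.restrict (S n)ᶜ) - δ • paInt W hm hb ρ with hlam
  have hlamv : ∀ w : W, lam w = ∫ x in (S n)ᶜ, (w : X → ℝ) x ∂μ - δ * ∫ x, (w : X → ℝ) x ∂ρ :=
    fun w => rfl
  have hlamb : ∀ i, |lam (b i)| ≤ 2 * δ * |B i| := by
    intro i
    rw [hlamv]
    have h1 : |∫ x in (S n)ᶜ, ((b i : W) : X → ℝ) x ∂μ| ≤ |B i| * δ := by
      have h2 := norm_setIntegral_le_of_norm_le_const (μ := μ) (s := (S n)ᶜ)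
        (f := ((b i : W) : X → ℝ)) (C := |B i|) (measure_lt_top _ _)
        (fun x _ => by rw [Real.norm_eq_abs]; exact (hB i x).trans (le_abs_self _))
      rw [Real.norm_eq_abs] at h2
      exact h2.trans (mul_le_mul_of_nonneg_left hn' (abs_nonneg _))
    have h3 : |∫ x, ((b i : W) : X → ℝ) x ∂ρ| ≤ |B i| := by
      have h2 := norm_integral_le_of_norm_le_const (μ := ρ)
        (f := ((b i : W) : X → ℝ)) (C := |B i|)
        (ae_of_all _ fun x => by rw [Real.norm_eq_abs]; exact (hB i x).trans (le_abs_self _))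
      rw [Real.norm_eq_abs] at h2
      simpa using h2
    have h4 : |δ * ∫ x, ((b i : W) : X → ℝ) x ∂ρ| ≤ δ * |B i| := by
      rw [abs_mul, abs_of_pos hδ0]
      exact mul_le_mul_of_nonneg_left h3 hδ0.le
    calc |∫ x in (S n)ᶜ, ((b i : W) : X → ℝ) x ∂μ - δ * ∫ x, ((b i : W) : X → ℝ) x ∂ρ|
        ≤ |∫ x in (S n)ᶜ, ((b i : W) : X → ℝ) x ∂μ| + |δ * ∫ x, ((b i : W) : X → ℝ) x ∂ρ| :=
          abs_sub _ _
      _ ≤ |B i| * δ + δ * |B i| := add_le_add h1 h4
      _ = 2 * δ * |B i| := by ring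
  set Φ : W := ∑ i, lam (b i) • φ i with hΦ
  have hΦv : ∀ x, (Φ : X → ℝ) x = ∑ i, lam (b i) * ((φ i : W) : X → ℝ) x := by
    intro x
    rw [hΦ, Submodule.coe_sum, Finset.sum_apply]
    rfl
  have hΦb : ∀ x, |(Φ : X → ℝ) x| ≤ 1 := by
    intro x
    rw [hΦv]
    refine (Finset.abs_sum_le_sum_abs _ _).trans ?_
    have h1 : ∀ i ∈ Finset.univ, |lam (b i) * ((φ i : W) : X → ℝ) x| ≤ 2 * δ * (|B i| * |M i|) := by
      intro i _
      rw [abs_mul, ← mul_assoc]
      exact mul_le_mul (hlamb i) ((hM i x).trans (le_abs_self _)) (abs_nonneg _) (by positivity)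
    refine (Finset.sum_le_sum h1).trans ?_
    rw [← Finset.mul_sum]
    exact hδD
  have hLΦ : ∀ w : W, L Φ w = lam w := by
    intro w
    rw [hΦ, map_sum, LinearMap.sum_apply]
    have h1 : ∀ i, (L (lam (b i) • φ i)) w = lam (b.repr w i • b i) := by
      intro i
      rw [map_smul, LinearMap.smul_apply, hφ, map_smul, smul_eq_mul, smul_eq_mul, mul_comm]
      rfl
    rw [Finset.sum_congr rfl fun i _ => h1 i, ← map_sum, b.sum_repr]
  have hΦm : Measurable (Φ : X → ℝ) := hm Φ Φ.2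
  let d : X → ℝ := fun x => (S n).indicator (fun _ => (1 : ℝ)) x + U.indicator (Φ : X → ℝ) x
  have hdm : Measurable d :=
    (measurable_const.indicator (hS n)).add (hΦm.indicator hU)
  have hd0 : ∀ x, 0 ≤ d x := by
    intro x
    change 0 ≤ (S n).indicator (fun _ => (1 : ℝ)) x + U.indicator (Φ : X → ℝ) x
    by_cases hx : x ∈ U
    · rw [Set.indicator_of_mem hx, Set.indicator_of_mem (hUS n hx)]
      have := (abs_le.1 (hΦb x)).1
      linarith
    · rw [Set.indicator_of_notMem hx, add_zero]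
      exact Set.indicator_nonneg (fun _ _ => zero_le_one) x
  have hd2 : ∀ x, d x ≤ 2 := by
    intro x
    change (S n).indicator (fun _ => (1 : ℝ)) x + U.indicator (Φ : X → ℝ) x ≤ 2
    have h1 : (S n).indicator (fun _ => (1 : ℝ)) x ≤ 1 := by
      by_cases hx : x ∈ S n
      · rw [Set.indicator_of_mem hx]
      · rw [Set.indicator_of_notMem hx]
        exact zero_le_one
    have h2 : U.indicator (Φ : X → ℝ) x ≤ 1 := by
      by_cases hx : x ∈ U
      · rw [Set.indicator_of_mem hx]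
        exact (abs_le.1 (hΦb x)).2
      · rw [Set.indicator_of_notMem hx]
        exact zero_le_one
    linarith
  have hdint : Integrable d μ := Integrable.of_bound hdm.aestronglyMeasurable 2
    (ae_of_all _ fun x => by rw [Real.norm_eq_abs, abs_of_nonneg (hd0 x)]; exact hd2 x)
  refine ⟨μ.withDensity fun x => ENNReal.ofReal (d x),
    isFiniteMeasure_withDensity_ofReal hdint.2, ?_, ?_⟩
  · rw [withDensity_apply _ (hS n).compl, lintegral_eq_zero_iff hdm.ennreal_ofReal]
    refine (ae_restrict_iff' (hS n).compl).2 (ae_of_all _ fun x hx => ?_)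
    have h1 : x ∉ S n := hx
    have h2 : x ∉ U := fun h => h1 (hUS n h)
    change ENNReal.ofReal ((S n).indicator (fun _ => (1 : ℝ)) x + U.indicator (Φ : X → ℝ) x) = 0
    rw [Set.indicator_of_notMem h1, Set.indicator_of_notMem h2, add_zero, ENNReal.ofReal_zero]
  · intro w hw
    have h1 : ∫ x, w x ∂(μ.withDensity fun x => ENNReal.ofReal (d x)) =
        ∫ x, (ENNReal.ofReal (d x)).toReal • w x ∂μ :=
      integral_withDensity_eq_integral_toReal_smul hdm.ennreal_ofReal
        (ae_of_all _ fun x => ENNReal.ofReal_lt_top) _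
    have hwi : Integrable w μ := pa_integrable hm hb μ hw
    have hpi : Integrable (fun x => (Φ : X → ℝ) x * w x) μ := pa_integrable_mul hm hb μ Φ.2 hw
    have h2 : ∀ x, (ENNReal.ofReal (d x)).toReal • w x =
        (S n).indicator w x + U.indicator (fun x => (Φ : X → ℝ) x * w x) x := by
      intro x
      rw [ENNReal.toReal_ofReal (hd0 x), smul_eq_mul]
      change ((S n).indicator (fun _ => (1 : ℝ)) x + U.indicator (Φ : X → ℝ) x) * w x = _
      rw [add_mul]
      congr 1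
      · by_cases hx : x ∈ S n
        · rw [Set.indicator_of_mem hx, Set.indicator_of_mem hx, one_mul]
        · rw [Set.indicator_of_notMem hx, Set.indicator_of_notMem hx, zero_mul]
      · by_cases hx : x ∈ U
        · rw [Set.indicator_of_mem hx, Set.indicator_of_mem hx]
        · rw [Set.indicator_of_notMem hx, Set.indicator_of_notMem hx, zero_mul]
    rw [h1, integral_congr_ae (ae_of_all _ h2), integral_add (hwi.indicator (hS n))
      (hpi.indicator hU), integral_indicator (hS n), integral_indicator hU]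
    have h3 : ∫ x in U, (Φ : X → ℝ) x * w x ∂μ =
        ∫ x in (S n)ᶜ, w x ∂μ - δ * ∫ x, w x ∂ρ := hLΦ ⟨w, hw⟩
    rw [h3]
    have h4 := integral_add_compl (hS n) hwi
    linarith

end PA

end Pool.Agent.R319.SG
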