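import Pool.Agent.R319.SG.LQ

/-!
Normalisation of the density of the eigenvalues (piece `PB1`).
-/

open MeasureTheory

namespace Pool.Agent.R319.SG

open Pool.Agent.R319.UM (box ez mon V2 cue)

theorem cue_one (N : ℕ) : cue (N := N) (fun _ => 1) = 1 := by
  unfold cue
  simp only [one_mul]
  rw [lq_intV2]
  apply inv_mul_cancel₀
  refine mul_ne_zero (by exact_mod_cast N.factorial_ne_zero) (pow_ne_zero _ ?_)
  exact mul_ne_zero two_ne_zero (by exact_mod_cast Real.pi_ne_zero)

end Pool.Agent.R319.SG
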