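import Mathlib

/-!
# SG-PC: Borel–Cantelli in both directions for `liminf log Y_k / log k`
-/

open MeasureTheory ProbabilityTheory Filter Topology
open scoped ENNReal

namespace Pool.Agent.R319.SG

/-- comparison of `log Y / log k` with a real exponent `b`, from above. -/
private lemma log_div_le {y : ℝ≥0∞} {k : ℕ} (hk : 2 ≤ k) {b : ℝ}
    (h : y ≤ ENNReal.ofReal ((k : ℝ) ^ b)) :
    ENNReal.log y / ((Real.log k : ℝ) : EReal) ≤ (b : EReal) := by
  have hk1 : (1 : ℝ) < (k : ℝ) := by exact_mod_cast hk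
  have hk0 : (0 : ℝ) < (k : ℝ) := by linarith
  have hlog : 0 < Real.log k := Real.log_pos hk1
  have h1 : ENNReal.log y ≤ ((b * Real.log k : ℝ) : EReal) := by
    refine (ENNReal.log_monotone h).trans ?_
    rw [ENNReal.log_ofReal_of_pos (Real.rpow_pos_of_pos hk0 b), Real.log_rpow hk0]
  rw [EReal.div_le_iff_le_mul (by exact_mod_cast hlog) (EReal.coe_ne_top _)]
  rw [EReal.coe_mul] at h1
  rw [mul_comm]
  exact h1

/-- comparison of `log Y / log k` with a real exponent `b`, from below. -/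
private lemma le_log_div {y : ℝ≥0∞} {k : ℕ} (hk : 2 ≤ k) {b : ℝ}
    (h : ENNReal.ofReal ((k : ℝ) ^ b) ≤ y) :
    (b : EReal) ≤ ENNReal.log y / ((Real.log k : ℝ) : EReal) := by
  have hk1 : (1 : ℝ) < (k : ℝ) := by exact_mod_cast hk
  have hk0 : (0 : ℝ) < (k : ℝ) := by linarith
  have hlog : 0 < Real.log k := Real.log_pos hk1
  have h1 : ((b * Real.log k : ℝ) : EReal) ≤ ENNReal.log y := by
    refine le_trans ?_ (ENNReal.log_monotone h)
    rw [ENNReal.log_ofReal_of_pos (Real.rpow_pos_of_pos hk0 b), Real.log_rpow hk0]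
  rw [EReal.le_div_iff_mul_le (by exact_mod_cast hlog) (EReal.coe_ne_top _)]
  rw [EReal.coe_mul] at h1
  exact h1

theorem bc {Ω : Type*} [MeasurableSpace Ω] (P : Measure Ω) [IsProbabilityMeasure P]
    (Y : ℕ → Ω → ℝ≥0∞) (hY : ∀ k, Measurable (Y k)) (hind : iIndepFun Y P) (α : EReal)
    (hlow : ∀ b : ℝ, (b : EReal) < α →
      ∑' k : ℕ, P {ω | Y k ω ≤ ENNReal.ofReal ((k : ℝ) ^ b)} ≠ ∞)
    (hup : ∀ b : ℝ, α < (b : EReal) →
      ∑' k : ℕ, P {ω | Y k ω ≤ ENNReal.ofReal ((k : ℝ) ^ b)} = ∞) :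
    ∀ᵐ ω ∂P, liminf (fun k : ℕ => ENNReal.log (Y k ω) / ((Real.log k : ℝ) : EReal)) atTop
      = α := by
  -- lower bound
  have hA : ∀ᵐ ω ∂P, ∀ q : ℚ, (((q : ℝ)) : EReal) < α →
      (((q : ℝ)) : EReal) ≤
        liminf (fun k : ℕ => ENNReal.log (Y k ω) / ((Real.log k : ℝ) : EReal)) atTop := by
    rw [ae_all_iff]
    intro q
    by_cases hq : (((q : ℝ)) : EReal) < α
    · filter_upwards [ae_eventually_notMem (hlow q hq)] with ω hω _
      refine le_liminf_of_le (by isBoundedDefault) ?_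
      filter_upwards [hω, eventually_ge_atTop 2] with k hk hk2
      refine le_log_div hk2 ?_
      simp only [not_le] at hk
      exact hk.le
    · exact Eventually.of_forall (fun ω h => absurd h hq)
  -- upper bound
  have hB : ∀ᵐ ω ∂P, ∀ q : ℚ, α < (((q : ℝ)) : EReal) →
        liminf (fun k : ℕ => ENNReal.log (Y k ω) / ((Real.log k : ℝ) : EReal)) atTop
          ≤ (((q : ℝ)) : EReal) := by
    rw [ae_all_iff]
    intro q
    by_cases hq : α < (((q : ℝ)) : EReal)
    · have hmeas : ∀ k : ℕ, MeasurableSet {ω | Y k ω ≤ ENNReal.ofReal ((k : ℝ) ^ (q : ℝ))} :=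
        fun k => measurableSet_le (hY k) measurable_const
      have hindep : iIndepSet
          (fun k : ℕ => {ω | Y k ω ≤ ENNReal.ofReal ((k : ℝ) ^ (q : ℝ))}) P := by
        rw [iIndepSet_iff_meas_biInter hmeas]
        intro S
        exact hind.measure_inter_preimage_eq_mul S
          (sets := fun k : ℕ => Set.Iic (ENNReal.ofReal ((k : ℝ) ^ (q : ℝ))))
          (fun k _ => measurableSet_Iic)
      have h1 := measure_limsup_eq_one hmeas hindep (hup q hq)
      have hms : MeasurableSet (limsup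
          (fun k : ℕ => {ω | Y k ω ≤ ENNReal.ofReal ((k : ℝ) ^ (q : ℝ))}) atTop) :=
        MeasurableSet.measurableSet_limsup hmeas
      have h2 : ∀ᵐ ω ∂P, ω ∈ limsup
          (fun k : ℕ => {ω | Y k ω ≤ ENNReal.ofReal ((k : ℝ) ^ (q : ℝ))}) atTop := by
        rw [← prob_compl_eq_zero_iff hms] at h1
        exact h1
      filter_upwards [h2] with ω hω _
      rw [mem_limsup_iff_frequently_mem] at hω
      refine liminf_le_of_frequently_le' ?_
      have h3 : ∃ᶠ k : ℕ in atTop, 2 ≤ k ∧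
          ω ∈ {ω | Y k ω ≤ ENNReal.ofReal ((k : ℝ) ^ (q : ℝ))} := by
        exact (hω.and_eventually (eventually_ge_atTop 2)).mono (fun k hk => ⟨hk.2, hk.1⟩)
      exact h3.mono (fun k hk => log_div_le hk.1 hk.2)
    · exact Eventually.of_forall (fun ω h => absurd h hq)
  filter_upwards [hA, hB] with ω h1 h2
  refine le_antisymm ?_ ?_
  · by_contra hcon
    push Not at hcon
    obtain ⟨q, hq1, hq2⟩ := EReal.lt_iff_exists_rat_btwn.1 hcon
    exact absurd (h2 q hq1) (not_le.2 hq2)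
  · by_contra hcon
    push Not at hcon
    obtain ⟨q, hq1, hq2⟩ := EReal.lt_iff_exists_rat_btwn.1 hcon
    exact absurd (h1 q hq2) (not_le.2 hq1)

end Pool.Agent.R319.SG
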