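import Mathlib

/-!
# SG-PD: one-dimensional laws with prescribed exponent
-/

set_option autoImplicit false

open MeasureTheory Filter Topology
open scoped ENNReal

namespace Pool.Agent.R319.SG

namespace PDAux

/-- the law of `V ^ a`, `V` uniform on `(0, 1]` -/
noncomputable def law (a : ℝ) : Measure ℝ :=
  (volume.restrict (Set.Ioc (0 : ℝ) 1)).map fun v => v ^ a

lemma meas (a : ℝ) : Measurable fun v : ℝ => v ^ a := measurable_id.pow_const a

lemma law_prob (a : ℝ) : IsProbabilityMeasure (law a) := by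
  have : IsProbabilityMeasure (volume.restrict (Set.Ioc (0 : ℝ) 1)) := ⟨by
    rw [Measure.restrict_apply_univ, Real.volume_Ioc]
    simp⟩
  exact Measure.isProbabilityMeasure_map (meas a).aemeasurable

lemma law_supp {a : ℝ} (ha : 0 < a) : law a (Set.Icc 0 1)ᶜ = 0 := by
  unfold law
  rw [Measure.map_apply (meas a) measurableSet_Icc.compl,
    Measure.restrict_apply ((meas a) measurableSet_Icc.compl)]
  have h : (fun v : ℝ => v ^ a) ⁻¹' (Set.Icc 0 1)ᶜ ∩ Set.Ioc 0 1 = ∅ := by
    refine Set.eq_empty_iff_forall_notMem.2 fun v hv => hv.1 ?_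
    exact ⟨Real.rpow_nonneg hv.2.1.le a, Real.rpow_le_one hv.2.1.le hv.2.2 ha.le⟩
  rw [h, measure_empty]

lemma law_Iic {a : ℝ} (t : ℝ) : law a (Set.Iic t) =
    volume {v : ℝ | v ^ a ≤ t ∧ v ∈ Set.Ioc (0 : ℝ) 1} := by
  unfold law
  rw [Measure.map_apply (meas a) measurableSet_Iic,
    Measure.restrict_apply ((meas a) measurableSet_Iic)]
  rfl

lemma law_le {a : ℝ} (ha : 0 < a) {t : ℝ} (ht : 0 ≤ t) :
    law a (Set.Iic t) ≤ ENNReal.ofReal (t ^ (1 / a)) := by
  rw [law_Iic]
  calc volume {v : ℝ | v ^ a ≤ t ∧ v ∈ Set.Ioc (0 : ℝ) 1} ≤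
        volume (Set.Ioc (0 : ℝ) (t ^ (1 / a))) := by
        refine measure_mono fun v hv => ⟨hv.2.1, ?_⟩
        have h1 : v = (v ^ a) ^ (1 / a) := by
          rw [← Real.rpow_mul hv.2.1.le, mul_one_div_cancel ha.ne', Real.rpow_one]
        rw [h1]
        exact Real.rpow_le_rpow (Real.rpow_nonneg hv.2.1.le a) hv.1 (by positivity)
    _ = ENNReal.ofReal (t ^ (1 / a)) := by rw [Real.volume_Ioc, sub_zero]

lemma le_law {a : ℝ} (ha : 0 < a) {t : ℝ} (ht : 0 ≤ t) :
    ENNReal.ofReal (min 1 (t ^ (1 / a))) ≤ law a (Set.Iic t) := by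
  rw [law_Iic]
  calc ENNReal.ofReal (min 1 (t ^ (1 / a))) =
        volume (Set.Ioc (0 : ℝ) (min 1 (t ^ (1 / a)))) := by rw [Real.volume_Ioc, sub_zero]
    _ ≤ _ := by
        refine measure_mono fun v hv => ⟨?_, hv.1, hv.2.trans (min_le_left _ _)⟩
        have h1 : t = (t ^ (1 / a)) ^ a := by
          rw [← Real.rpow_mul ht, one_div_mul_cancel ha.ne', Real.rpow_one]
        change v ^ a ≤ t
        rw [h1]
        exact Real.rpow_le_rpow hv.1.le (hv.2.trans (min_le_right _ _)) ha.le

lemma sum_top {f : ℕ → ℝ≥0∞} (h : ∀ k : ℕ, ENNReal.ofReal (1 / (k : ℝ)) ≤ f k) :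
    ∑' k : ℕ, f k = ∞ := by
  have h1 : ∑' k : ℕ, ENNReal.ofReal (1 / (k : ℝ)) = ∞ := by
    by_contra hcon
    have h2 := ENNReal.summable_toReal hcon
    have h3 : (fun k : ℕ => (ENNReal.ofReal (1 / (k : ℝ))).toReal) = fun k : ℕ => 1 / (k : ℝ) := by
      funext k
      exact ENNReal.toReal_ofReal (by positivity)
    rw [h3] at h2
    exact Real.not_summable_one_div_natCast h2
  rw [← top_le_iff, ← h1]
  exact ENNReal.tsum_le_tsum h

end PDAux

open PDAux in
theorem exTau (α : EReal) (hα : α ≤ 0) : ∃ τ : Measure ℝ, IsProbabilityMeasure τ ∧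
    τ (Set.Icc 0 1)ᶜ = 0 ∧
    (∀ b : ℝ, (b : EReal) < α → ∀ c : ℝ, 0 < c →
      ∑' k : ℕ, τ (Set.Iic (c * (k : ℝ) ^ b)) ≠ ∞) ∧
    (∀ b : ℝ, α < (b : EReal) → ∑' k : ℕ, τ (Set.Iic ((k : ℝ) ^ b)) = ∞) := by
  induction α using EReal.rec with
  | bot =>
    refine ⟨Measure.dirac 0, inferInstance, ?_, ?_, ?_⟩
    · rw [Measure.dirac_apply' _ measurableSet_Icc.compl]
      simp
    · intro b hb
      exact absurd hb not_lt_bot
    · intro b _
      refine sum_top fun k => ?_
      rw [Measure.dirac_apply' _ measurableSet_Iic, Set.indicator_of_mem]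
      · rw [Pi.one_apply, ← ENNReal.ofReal_one]
        refine ENNReal.ofReal_le_ofReal ?_
        rcases Nat.eq_zero_or_pos k with h | h
        · simp [h]
        · rw [div_le_one (by exact_mod_cast h)]
          exact_mod_cast h
      · exact Real.rpow_nonneg (Nat.cast_nonneg k) b
  | top => exact absurd hα (by simp)
  | coe x =>
    have hx : x ≤ 0 := by exact_mod_cast hα
    rcases lt_or_eq_of_le hx with hx | hx
    · obtain ⟨a, ha⟩ : ∃ a : ℝ, a = -x := ⟨_, rfl⟩
      have ha0 : 0 < a := by rw [ha]; linarith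
      refine ⟨law a, law_prob a, law_supp ha0, ?_, ?_⟩
      · intro b hb c hc
        have hb' : b < x := by exact_mod_cast hb
        have hs : Summable fun k : ℕ => c ^ (1 / a) * (k : ℝ) ^ (b * (1 / a)) := by
          refine Summable.mul_left _ (Real.summable_nat_rpow.2 ?_)
          rw [mul_one_div, div_lt_iff₀ ha0, ha]
          linarith
        refine ne_top_of_le_ne_top hs.tsum_ofReal_ne_top (ENNReal.tsum_le_tsum fun k => ?_)
        have hk : (0 : ℝ) ≤ (k : ℝ) ^ b := Real.rpow_nonneg (Nat.cast_nonneg k) b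
        refine (law_le ha0 (mul_nonneg hc.le hk)).trans (le_of_eq ?_)
        rw [Real.mul_rpow hc.le hk, ← Real.rpow_mul (Nat.cast_nonneg k)]
      · intro b hb
        have hb' : x < b := by exact_mod_cast hb
        refine sum_top fun k => ?_
        refine le_trans ?_ (le_law ha0 (Real.rpow_nonneg (Nat.cast_nonneg k) b))
        refine ENNReal.ofReal_le_ofReal ?_
        rcases Nat.eq_zero_or_pos k with h | h
        · subst h
          simp only [Nat.cast_zero, div_zero]
          exact le_min zero_le_one (Real.rpow_nonneg (Real.rpow_nonneg le_rfl _) _)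
        · have hk1 : (1 : ℝ) ≤ k := by exact_mod_cast h
          refine le_min ?_ ?_
          · rw [div_le_one (by linarith)]
            exact hk1
          · rw [← Real.rpow_mul (Nat.cast_nonneg k), one_div (k : ℝ), ← Real.rpow_neg_one]
            refine Real.rpow_le_rpow_of_exponent_le hk1 ?_
            rw [mul_one_div, le_div_iff₀ ha0, ha]
            linarith
    · subst hx
      refine ⟨Measure.dirac 1, inferInstance, ?_, ?_, ?_⟩
      · rw [Measure.dirac_apply' _ measurableSet_Icc.compl]
        simp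
      · intro b hb c hc
        have hb' : b < 0 := by exact_mod_cast hb
        have h1 : Tendsto (fun k : ℕ => c * (k : ℝ) ^ b) atTop (𝓝 (c * 0)) := by
          have h2 : Tendsto (fun y : ℝ => y ^ (-(-b))) atTop (𝓝 0) :=
            tendsto_rpow_neg_atTop (by linarith)
          rw [neg_neg] at h2
          exact (h2.comp tendsto_natCast_atTop_atTop).const_mul c
        rw [mul_zero] at h1
        obtain ⟨K, hK⟩ := eventually_atTop.1 (h1.eventually (gt_mem_nhds one_pos))
        rw [tsum_eq_sum (s := Finset.range K)]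
        · exact ENNReal.sum_ne_top.2 fun k _ => measure_ne_top _ _
        · intro k hk
          rw [Finset.mem_range, not_lt] at hk
          rw [Measure.dirac_apply' _ measurableSet_Iic, Set.indicator_of_notMem]
          rw [Set.mem_Iic, not_le]
          exact hK k hk
      · intro b hb
        have hb' : 0 < b := by exact_mod_cast hb
        refine sum_top fun k => ?_
        rcases Nat.eq_zero_or_pos k with h | h
        · simp [h]
        · have hk1 : (1 : ℝ) ≤ k := by exact_mod_cast h
          rw [Measure.dirac_apply' _ measurableSet_Iic, Set.indicator_of_mem]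
          · rw [Pi.one_apply, ← ENNReal.ofReal_one]
            refine ENNReal.ofReal_le_ofReal ?_
            rw [div_le_one (by linarith)]
            exact hk1
          · exact Real.one_le_rpow hk1 hb'.le

end Pool.Agent.R319.SG
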