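import Mathlib
import Pool.Agent.R319.SG.PD

/-!
# SG2-T2: one-dimensional laws with prescribed exponent, quantitative version (helper551)
-/

set_option autoImplicit false

open MeasureTheory ProbabilityTheory Filter Topology
open scoped ENNReal

namespace Pool.Agent.R319.SG

open PDAux in
theorem exTau2 (α : EReal) (hα : α ≤ 0) : ∃ τ : Measure ℝ, IsProbabilityMeasure τ ∧
    τ (Set.Icc 0 1)ᶜ = 0 ∧
    (∀ b : ℝ, (b : EReal) < α → ∀ c : ℝ, 0 < c →
      ∑' k : ℕ, τ (Set.Iic (c * (k : ℝ) ^ b)) ≠ ∞) ∧
    (∀ b : ℝ, α < (b : EReal) → ∃ η : ℝ, 0 < η ∧ ∀ k : ℕ, 1 ≤ k →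
      ENNReal.ofReal ((k : ℝ) ^ (-1 + η)) ≤ τ (Set.Iic ((k : ℝ) ^ b))) := by
  have h0 : ENNReal.ofReal (1 : ℝ) = 1 := ENNReal.ofReal_one
  induction α using EReal.rec with
  | bot =>
    refine ⟨Measure.dirac 0, inferInstance, ?_, ?_, ?_⟩
    · rw [Measure.dirac_apply' _ measurableSet_Icc.compl]
      simp
    · intro b hb
      exact absurd hb not_lt_bot
    · intro b _
      refine ⟨1, one_pos, fun k _ => ?_⟩
      rw [Measure.dirac_apply' _ measurableSet_Iic, Set.indicator_of_mem, neg_add_cancel,
        Real.rpow_zero, Pi.one_apply, h0]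
      exact Real.rpow_nonneg (Nat.cast_nonneg k) b
  | top => exact absurd hα (by simp)
  | coe x =>
    have hx : x ≤ 0 := by exact_mod_cast hα
    rcases lt_or_eq_of_le hx with hx | hx
    · obtain ⟨a, ha⟩ : ∃ a : ℝ, a = -x := ⟨_, rfl⟩
      have ha0 : 0 < a := by rw [ha]; linarith
      refine ⟨law a, law_prob a, law_supp ha0, ?_, ?_⟩
      · intro b hb c hc
        have hb' : b < x := by exact_mod_cast hb
        have hs : Summable fun k : ℕ => c ^ (1 / a) * (k : ℝ) ^ (b * (1 / a)) := by
          refine Summable.mul_left _ (Real.summable_nat_rpow.2 ?_)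
          rw [mul_one_div, div_lt_iff₀ ha0, ha]
          linarith
        refine ne_top_of_le_ne_top hs.tsum_ofReal_ne_top (ENNReal.tsum_le_tsum fun k => ?_)
        have hk : (0 : ℝ) ≤ (k : ℝ) ^ b := Real.rpow_nonneg (Nat.cast_nonneg k) b
        refine (law_le ha0 (mul_nonneg hc.le hk)).trans (le_of_eq ?_)
        rw [Real.mul_rpow hc.le hk, ← Real.rpow_mul (Nat.cast_nonneg k)]
      · intro b hb
        have hb' : x < b := by exact_mod_cast hb
        have hba : 0 < 1 + b / a := by
          have : -1 < b / a := by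
            rw [lt_div_iff₀ ha0, ha]; linarith
          linarith
        refine ⟨min 1 (1 + b / a), lt_min one_pos hba, fun k hk => ?_⟩
        have hk1 : (1 : ℝ) ≤ k := by exact_mod_cast hk
        refine le_trans ?_ (le_law ha0 (Real.rpow_nonneg (Nat.cast_nonneg k) b))
        refine ENNReal.ofReal_le_ofReal (le_min ?_ ?_)
        · refine Real.rpow_le_one_of_one_le_of_nonpos hk1 ?_
          have := min_le_left 1 (1 + b / a)
          linarith
        · rw [← Real.rpow_mul (Nat.cast_nonneg k)]
          refine Real.rpow_le_rpow_of_exponent_le hk1 ?_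
          have := min_le_right 1 (1 + b / a)
          rw [mul_one_div]
          linarith
    · subst hx
      refine ⟨Measure.dirac 1, inferInstance, ?_, ?_, ?_⟩
      · rw [Measure.dirac_apply' _ measurableSet_Icc.compl]
        simp
      · intro b hb c hc
        have hb' : b < 0 := by exact_mod_cast hb
        have h1 : Tendsto (fun k : ℕ => c * (k : ℝ) ^ b) atTop (𝓝 (c * 0)) := by
          have h2 : Tendsto (fun y : ℝ => y ^ (-(-b))) atTop (𝓝 0) :=
            tendsto_rpow_neg_atTop (by linarith)
          rw [neg_neg] at h2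
          exact (h2.comp tendsto_natCast_atTop_atTop).const_mul c
        rw [mul_zero] at h1
        obtain ⟨K, hK⟩ := eventually_atTop.1 (h1.eventually (gt_mem_nhds one_pos))
        rw [tsum_eq_sum (s := Finset.range K)]
        · exact ENNReal.sum_ne_top.2 fun k _ => measure_ne_top _ _
        · intro k hk
          rw [Finset.mem_range, not_lt] at hk
          rw [Measure.dirac_apply' _ measurableSet_Iic, Set.indicator_of_notMem]
          rw [Set.mem_Iic, not_le]
          exact hK k hk
      · intro b hb
        have hb' : 0 < b := by exact_mod_cast hb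
        refine ⟨1, one_pos, fun k hk => ?_⟩
        have hk1 : (1 : ℝ) ≤ k := by exact_mod_cast hk
        rw [Measure.dirac_apply' _ measurableSet_Iic, Set.indicator_of_mem, neg_add_cancel,
          Real.rpow_zero, Pi.one_apply, h0]
        exact Real.one_le_rpow hk1 hb'.le

end Pool.Agent.R319.SG
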