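import Pool.Agent.R319.SG.Defs

open MeasureTheory Filter Topology
open scoped ENNReal

namespace Pool.Agent.R319.SG

open Pool.Agent.R319.UM (box ez mon V2 cue)

noncomputable section

variable {N : ℕ}

/-- generating functions -/
def gen (N : ℕ) (p : (Fin N → Fin (N + 1)) × (Fin N → Fin (N + 1)) × Bool) :
    (Fin N → ℝ) → ℝ := fun θ =>
  if p.2.2 then (mon (fun j => (p.1 j : ℕ)) (fun j => (p.2.1 j : ℕ)) (ez θ)).re
  else (mon (fun j => (p.1 j : ℕ)) (fun j => (p.2.1 j : ℕ)) (ez θ)).im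

/-- the trigonometric polynomials -/
def WW (N : ℕ) : Submodule ℝ ((Fin N → ℝ) → ℝ) := Submodule.span ℝ (Set.range (gen N))

instance : FiniteDimensional ℝ (WW N) :=
  FiniteDimensional.span_of_finite ℝ (Set.finite_range _)

lemma re_mem {a b : Fin N → ℕ} (ha : ∀ j, a j ≤ N) (hb : ∀ j, b j ≤ N) :
    (fun θ => (mon a b (ez θ)).re) ∈ WW N := by
  apply Submodule.subset_span
  refine ⟨(fun j => ⟨a j, Nat.lt_succ_of_le (ha j)⟩, fun j => ⟨b j, Nat.lt_succ_of_le (hb j)⟩,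
    true), ?_⟩
  funext θ
  simp [gen]

lemma im_mem {a b : Fin N → ℕ} (ha : ∀ j, a j ≤ N) (hb : ∀ j, b j ≤ N) :
    (fun θ => (mon a b (ez θ)).im) ∈ WW N := by
  apply Submodule.subset_span
  refine ⟨(fun j => ⟨a j, Nat.lt_succ_of_le (ha j)⟩, fun j => ⟨b j, Nat.lt_succ_of_le (hb j)⟩,
    false), ?_⟩
  funext θ
  simp [gen]

lemma one_mem : (fun _ => (1 : ℝ)) ∈ WW N := by
  have := re_mem (N := N) (a := 0) (b := 0) (fun _ => Nat.zero_le _) (fun _ => Nat.zero_le _)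
  simpa [mon] using this

lemma norm_mon (a b : Fin N → ℕ) (θ : Fin N → ℝ) : ‖mon a b (ez θ)‖ = 1 := by
  unfold mon ez
  rw [norm_prod]
  refine Finset.prod_eq_one fun j _ => ?_
  have : ‖Complex.exp (Complex.I * θ j)‖ = 1 := by
    rw [mul_comm, Complex.norm_exp_ofReal_mul_I]
  rw [norm_mul, Complex.norm_conj, norm_pow, norm_pow, this]
  simp

lemma bdd {w : (Fin N → ℝ) → ℝ} (hw : w ∈ WW N) : ∃ C : ℝ, ∀ x, |w x| ≤ C := by
  induction hw using Submodule.span_induction with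
  | mem x hx =>
    obtain ⟨p, rfl⟩ := hx
    refine ⟨1, fun θ => ?_⟩
    unfold gen
    split_ifs
    · exact (Complex.abs_re_le_norm _).trans (norm_mon _ _ _).le
    · exact (Complex.abs_im_le_norm _).trans (norm_mon _ _ _).le
  | zero => exact ⟨0, fun x => by simp⟩
  | add x y _ _ hx hy =>
    obtain ⟨C, hC⟩ := hx
    obtain ⟨D, hD⟩ := hy
    exact ⟨C + D, fun θ => (abs_add_le _ _).trans (add_le_add (hC θ) (hD θ))⟩
  | smul a x _ hx =>
    obtain ⟨C, hC⟩ := hx
    refine ⟨|a| * C, fun θ => ?_⟩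
    rw [Pi.smul_apply, smul_eq_mul, abs_mul]
    exact mul_le_mul_of_nonneg_left (hC θ) (abs_nonneg a)

lemma ana_mon (a b : Fin N → ℕ) : AnalyticOnNhd ℝ (fun θ : Fin N → ℝ => mon a b (ez θ)) Set.univ := by
  intro θ _
  unfold mon ez
  have h1 : ∀ j : Fin N, AnalyticAt ℝ (fun θ : Fin N → ℝ => Complex.exp (Complex.I * (θ j : ℂ))) θ := by
    intro j
    have e1 : AnalyticAt ℝ (fun θ : Fin N → ℝ => Complex.I * (θ j : ℂ)) θ := by
      have : AnalyticAt ℝ (fun θ : Fin N → ℝ =>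
        (Complex.ofRealCLM.comp (ContinuousLinearMap.proj (R := ℝ) (φ := fun _ : Fin N => ℝ) j)) θ) θ :=
        ContinuousLinearMap.analyticAt _ _
      exact analyticAt_const.mul this
    have e2 : AnalyticAt ℝ Complex.exp (Complex.I * (θ j : ℂ)) :=
      (analyticAt_cexp (z := Complex.I * (θ j : ℂ))).restrictScalars
    exact AnalyticAt.comp (g := Complex.exp) (f := fun θ : Fin N → ℝ => Complex.I * (θ j : ℂ)) e2 e1
  refine Finset.analyticAt_fun_prod _ fun j _ => ?_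
  refine ((h1 j).pow _).mul ?_
  have h2 : AnalyticAt ℝ (fun z : ℂ => Complex.conjCLE z) (Complex.exp (Complex.I * (θ j : ℂ)) ^ b j) :=
    (Complex.conjCLE : ℂ →L[ℝ] ℂ).analyticAt _
  exact AnalyticAt.comp (g := fun z : ℂ => Complex.conjCLE z)
    (f := fun θ : Fin N → ℝ => Complex.exp (Complex.I * (θ j : ℂ)) ^ b j) h2 ((h1 j).fun_pow (b j))

lemma ana {w : (Fin N → ℝ) → ℝ} (hw : w ∈ WW N) : AnalyticOnNhd ℝ w Set.univ := by
  induction hw using Submodule.span_induction with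
  | mem x hx =>
    obtain ⟨p, rfl⟩ := hx
    intro θ hθ
    have h := ana_mon (fun j => (p.1 j : ℕ)) (fun j => (p.2.1 j : ℕ)) θ hθ
    unfold gen
    split_ifs
    · exact (Complex.reCLM.analyticAt _).comp h
    · exact (Complex.imCLM.analyticAt _).comp h
  | zero => exact analyticOnNhd_const
  | add x y _ _ hx hy => exact hx.add hy
  | smul a x _ hx => exact fun θ hθ => analyticAt_const.smul (hx θ hθ)

lemma cont {w : (Fin N → ℝ) → ℝ} (hw : w ∈ WW N) : Continuous w := by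
  rw [← continuousOn_univ]
  exact (ana hw).continuousOn

lemma ident {w : (Fin N → ℝ) → ℝ} (hw : w ∈ WW N) {U : Set (Fin N → ℝ)} (hU : IsOpen U)
    (hne : U.Nonempty) (h0 : ∀ θ ∈ U, w θ = 0) : w = 0 := by
  obtain ⟨θ₀, hθ₀⟩ := hne
  have h := (ana hw).eqOn_zero_of_preconnected_of_eventuallyEq_zero isPreconnected_univ
    (Set.mem_univ θ₀) (by
      filter_upwards [hU.mem_nhds hθ₀] with θ hθ
      exact h0 θ hθ)
  funext θ
  exact h (Set.mem_univ θ)

end

end Pool.Agent.R319.SG
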