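import Pool.Agent.R319.SG.W1

open MeasureTheory Filter Topology
open scoped ENNReal

namespace Pool.Agent.R319.SG

open Pool.Agent.R319.UM (box ez mon V2 cue)

noncomputable section

variable {N : ℕ}

/-- the normalising constant -/
def nc (N : ℕ) : ℝ := (N.factorial : ℝ) * (2 * Real.pi) ^ N

lemma nc_pos : 0 < nc N := by
  unfold nc
  have := Real.pi_pos
  positivity

/-- the Weyl measure in the angles -/
def muN (N : ℕ) : Measure (Fin N → ℝ) :=
  (volume.restrict (box N)).withDensity fun θ => ENNReal.ofReal (V2 (ez θ) / nc N)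

lemma ez_cont : Continuous (ez (N := N)) := by
  unfold ez
  fun_prop

lemma V2_cont : Continuous fun θ : Fin N → ℝ => V2 (ez θ) := by
  unfold V2
  refine continuous_finsetProd _ fun i _ => continuous_finsetProd _ fun j _ => ?_
  have h := ez_cont (N := N)
  have hi : ∀ i : Fin N, Continuous fun θ : Fin N → ℝ => ez θ i := fun i => (continuous_apply i).comp h
  exact ((hi j).sub (hi i)).norm.pow 2

lemma V2_nonneg (z : Fin N → ℂ) : 0 ≤ V2 z := by
  unfold V2
  positivity

lemma V2_pos {z : Fin N → ℂ} (h : ∀ i j, i ≠ j → z i ≠ z j) : 0 < V2 z := by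
  unfold V2
  refine Finset.prod_pos fun i _ => Finset.prod_pos fun j hj => ?_
  have : i < j := Finset.mem_Ioi.1 hj
  have h1 : z j - z i ≠ 0 := sub_ne_zero.2 (h j i this.ne')
  positivity

lemma dens_meas : Measurable fun θ : Fin N → ℝ => ENNReal.ofReal (V2 (ez θ) / nc N) :=
  (V2_cont.div_const _).measurable.ennreal_ofReal

lemma box_meas : MeasurableSet (box N) :=
  MeasurableSet.univ_pi fun _ => measurableSet_Ioc

/-- integral against the Weyl measure -/
lemma int_mu (f : (Fin N → ℂ) → ℂ) : ∫ θ, f (ez θ) ∂(muN N) = cue f := by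
  unfold muN cue
  rw [integral_withDensity_eq_integral_toReal_smul dens_meas (by simp)]
  rw [← integral_const_mul]
  refine integral_congr_ae (Eventually.of_forall fun θ => ?_)
  simp only
  rw [ENNReal.toReal_ofReal (div_nonneg (V2_nonneg _) nc_pos.le), Complex.real_smul]
  unfold nc
  push_cast
  have hpi : (Real.pi : ℂ) ≠ 0 := by exact_mod_cast Real.pi_ne_zero
  have hf : (N.factorial : ℂ) ≠ 0 := by exact_mod_cast N.factorial_ne_zero
  field_simp

lemma muN_prob (h1 : cue (N := N) (fun _ => 1) = 1) : IsProbabilityMeasure (muN N) := by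
  have hfin : (muN N) Set.univ < ∞ := by
    unfold muN
    rw [withDensity_apply _ MeasurableSet.univ, Measure.restrict_univ]
    have hc : Continuous fun θ : Fin N → ℝ => V2 (ez θ) / nc N := V2_cont.div_const _
    have hi : IntegrableOn (fun θ : Fin N → ℝ => V2 (ez θ) / nc N) (box N) := by
      have h : IntegrableOn (fun θ : Fin N → ℝ => V2 (ez θ) / nc N)
          (Set.univ.pi fun _ : Fin N => Set.Icc (0 : ℝ) (2 * Real.pi)) :=
        hc.continuousOn.integrableOn_compact (isCompact_univ_pi fun _ => isCompact_Icc)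
      exact h.mono_set (Set.pi_mono fun _ _ => Set.Ioc_subset_Icc_self)
    rw [← ofReal_integral_eq_lintegral_ofReal hi (Eventually.of_forall fun θ =>
      div_nonneg (V2_nonneg _) nc_pos.le)]
    exact ENNReal.ofReal_lt_top
  have : IsFiniteMeasure (muN N) := ⟨hfin⟩
  have h2 := int_mu (N := N) (fun _ => 1)
  rw [h1] at h2
  simp only [integral_const, Complex.real_smul, mul_one] at h2
  have h3 : (muN N).real Set.univ = 1 := by exact_mod_cast h2
  exact ⟨by rwa [Measure.real, ENNReal.toReal_eq_one_iff] at h3⟩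

/-- a small distance for which separated configurations exist -/
def UU (N : ℕ) (δ : ℝ) : Set (Fin N → ℝ) :=
  {θ | (∀ j, 0 < θ j ∧ θ j < 2 * Real.pi) ∧ ∀ i j, i ≠ j → δ < ‖ez θ i - ez θ j‖}

def SS (N : ℕ) (δ : ℝ) (n : ℕ) : Set (Fin N → ℝ) :=
  {θ | ∀ i j, i ≠ j → δ / (n + 1) ≤ ‖ez θ i - ez θ j‖}

lemma ezi_cont (i : Fin N) : Continuous fun θ : Fin N → ℝ => ez θ i :=
  (continuous_apply i).comp ez_cont

lemma dist_cont (i j : Fin N) : Continuous fun θ : Fin N → ℝ => ‖ez θ i - ez θ j‖ :=
  ((ezi_cont i).sub (ezi_cont j)).norm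

lemma UU_open (δ : ℝ) : IsOpen (UU N δ) := by
  unfold UU
  rw [Set.ofPred_and]
  apply IsOpen.inter
  · rw [Set.ofPred_forall]
    refine isOpen_iInter_of_finite fun j => ?_
    rw [Set.ofPred_and]
    exact (isOpen_lt continuous_const (continuous_apply j)).inter
      (isOpen_lt (continuous_apply j) continuous_const)
  · simp only [Set.ofPred_forall]
    refine isOpen_iInter_of_finite fun i => isOpen_iInter_of_finite fun j => ?_
    by_cases h : i = j
    · simp [h]
    · simp only [ne_eq, h, not_false_eq_true, Set.iInter_true]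
      exact isOpen_lt continuous_const (dist_cont i j)

lemma SS_closed (δ : ℝ) (n : ℕ) : IsClosed (SS N δ n) := by
  unfold SS
  simp only [Set.ofPred_forall]
  refine isClosed_iInter fun i => isClosed_iInter fun j => isClosed_iInter fun _ => ?_
  exact isClosed_le continuous_const (dist_cont i j)

lemma UU_sub_SS {δ : ℝ} (hδ : 0 < δ) (n : ℕ) : UU N δ ⊆ SS N δ n := by
  intro θ hθ i j hij
  refine le_trans ?_ (hθ.2 i j hij).le
  apply div_le_self hδ.le
  have : (0 : ℝ) ≤ n := Nat.cast_nonneg n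
  linarith

lemma UU_sub_box (δ : ℝ) : UU N δ ⊆ box N := by
  intro θ hθ j _
  exact ⟨(hθ.1 j).1, (hθ.1 j).2.le⟩

lemma ez_inj {x y : ℝ} (hx : 0 ≤ x) (hx' : x ≤ 1) (hy : 0 ≤ y) (hy' : y ≤ 1)
    (h : Complex.exp (Complex.I * x) = Complex.exp (Complex.I * y)) : x = y := by
  rw [Complex.exp_eq_exp_iff_exists_int] at h
  obtain ⟨n, hn⟩ := h
  have h2 : (x : ℂ) = y + n * (2 * Real.pi) := by
    have : Complex.I * (x : ℂ) = Complex.I * (y + n * (2 * Real.pi)) := by
      rw [hn]
      ring
    exact mul_left_cancel₀ Complex.I_ne_zero this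
  have h3 : x = y + n * (2 * Real.pi) := by exact_mod_cast h2
  have hpi := Real.pi_gt_three
  have hn0 : n = 0 := by
    by_contra hne
    rcases lt_or_gt_of_ne hne with h4 | h4
    · have : (n : ℝ) ≤ -1 := by exact_mod_cast Int.le_sub_one_of_lt h4
      nlinarith
    · have : (1 : ℝ) ≤ n := by exact_mod_cast h4
      nlinarith
  rw [hn0] at h3
  simpa using h3

lemma UU_nonempty (hN : 0 < N) : ∃ δ : ℝ, 0 < δ ∧ (UU N δ).Nonempty := by
  classical
  set θ₀ : Fin N → ℝ := fun j => ((j : ℕ) + 1 : ℝ) / (N + 1) with hθ₀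
  have hN' : (0 : ℝ) < N := by exact_mod_cast hN
  have hpos : ∀ j, 0 < θ₀ j := fun j => by
    simp only [hθ₀]
    positivity
  have hle : ∀ j, θ₀ j ≤ 1 := fun j => by
    simp only [hθ₀]
    rw [div_le_one (by positivity)]
    have : ((j : ℕ) : ℝ) ≤ N := by exact_mod_cast j.2.le
    linarith
  have hne : ∀ i j, i ≠ j → ez θ₀ i ≠ ez θ₀ j := by
    intro i j hij h
    have := ez_inj (hpos i).le (hle i) (hpos j).le (hle j) h
    simp only [hθ₀] at this
    rw [div_left_inj' (by positivity)] at this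
    apply hij
    apply Fin.ext
    have h2 : ((i : ℕ) : ℝ) = (j : ℕ) := by linarith
    exact_mod_cast h2
  -- minimum over finite set of pairs
  obtain ⟨δ, hδ, h⟩ : ∃ δ : ℝ, 0 < δ ∧ ∀ p : Fin N × Fin N, p.1 ≠ p.2 → δ < ‖ez θ₀ p.1 - ez θ₀ p.2‖ := by
    have : ∀ s : Finset (Fin N × Fin N), ∃ δ : ℝ, 0 < δ ∧ ∀ p ∈ s, p.1 ≠ p.2 →
        δ < ‖ez θ₀ p.1 - ez θ₀ p.2‖ := by
      intro s
      induction s using Finset.induction_on with
      | empty => exact ⟨1, one_pos, by simp⟩
      | insert a s _ ih =>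
        obtain ⟨δ, hδ, h⟩ := ih
        by_cases ha : a.1 = a.2
        · refine ⟨δ, hδ, fun p hp hne => ?_⟩
          rcases Finset.mem_insert.1 hp with rfl | hp
          · exact absurd ha hne
          · exact h p hp hne
        · have h1 : 0 < ‖ez θ₀ a.1 - ez θ₀ a.2‖ := norm_pos_iff.2 (sub_ne_zero.2 (hne _ _ ha))
          refine ⟨min δ (‖ez θ₀ a.1 - ez θ₀ a.2‖ / 2), lt_min hδ (by positivity), fun p hp hne' => ?_⟩
          rcases Finset.mem_insert.1 hp with rfl | hp
          · exact lt_of_le_of_lt (min_le_right _ _) (by linarith)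
          · exact lt_of_le_of_lt (min_le_left _ _) (h p hp hne')
    obtain ⟨δ, hδ, h⟩ := this Finset.univ
    exact ⟨δ, hδ, fun p => h p (Finset.mem_univ p)⟩
  refine ⟨δ, hδ, θ₀, fun j => ⟨hpos j, ?_⟩, fun i j hij => h (i, j) hij⟩
  have := Real.pi_gt_three
  have := hle j
  linarith

/-- positivity of the Gram form -/
lemma hpos_W {δ : ℝ} (hδ : 0 < δ) (hne : (UU N δ).Nonempty) [IsFiniteMeasure (muN N)] :
    ∀ w ∈ WW N, ∫ x in UU N δ, w x ^ 2 ∂(muN N) = 0 → w = 0 := by
  intro w hw h0
  apply ident hw (UU_open δ) hne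
  obtain ⟨C, hC⟩ := bdd hw
  have hint : Integrable (fun x => w x ^ 2) ((muN N).restrict (UU N δ)) := by
    refine Integrable.of_bound (C := C ^ 2) ((cont hw).pow 2).aestronglyMeasurable
      (Eventually.of_forall fun x => ?_)
    rw [Real.norm_eq_abs, abs_pow]
    exact pow_le_pow_left₀ (abs_nonneg _) (hC x) 2
  have h1 := (integral_eq_zero_iff_of_nonneg (fun x => sq_nonneg (w x)) hint).1 h0
  by_contra hcon
  push Not at hcon
  obtain ⟨θ₁, hθ₁, hw₁⟩ := hcon
  set O := UU N δ ∩ {θ | w θ ≠ 0} with hO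
  have hOo : IsOpen O := (UU_open δ).inter (isOpen_ne_fun (cont hw) continuous_const)
  have hOm : (muN N) O = 0 := by
    rw [Filter.EventuallyEq, ae_restrict_iff' (UU_open δ).measurableSet] at h1
    refine measure_mono_null ?_ h1
    intro θ hθ hcon
    have := hcon hθ.1
    simp only [Pi.zero_apply, ne_eq, OfNat.ofNat_ne_zero, not_false_eq_true, pow_eq_zero_iff] at this
    exact hθ.2 this
  unfold muN at hOm
  rw [withDensity_apply_eq_zero dens_meas] at hOm
  have hset : {θ : Fin N → ℝ | ENNReal.ofReal (V2 (ez θ) / nc N) ≠ 0} ∩ O = O := by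
    apply Set.inter_eq_right.2
    intro θ hθ
    have : 0 < V2 (ez θ) := V2_pos fun i j hij h => by
      have := hθ.1.2 i j hij
      rw [h, sub_self, norm_zero] at this
      linarith
    have : 0 < V2 (ez θ) / nc N := div_pos this nc_pos
    simpa using this
  rw [hset, Measure.restrict_apply hOo.measurableSet, Set.inter_eq_left.2
    (Set.inter_subset_left.trans (UU_sub_box δ))] at hOm
  have hOe : O = ∅ := (hOo.measure_eq_zero_iff (volume : Measure (Fin N → ℝ))).1 hOm
  have : θ₁ ∈ O := ⟨hθ₁, hw₁⟩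
  rw [hOe] at this
  exact this

lemma hlim_S {δ : ℝ} (hδ : 0 < δ) [IsFiniteMeasure (muN N)] :
    Tendsto (fun n => (muN N) (SS N δ n)ᶜ) atTop (𝓝 0) := by
  have hanti : Antitone fun n => (SS N δ n)ᶜ := by
    intro m n hmn
    apply Set.compl_subset_compl.2
    intro θ hθ i j hij
    refine le_trans ?_ (hθ i j hij)
    have : (m : ℝ) ≤ n := by exact_mod_cast hmn
    gcongr
  have h := tendsto_measure_iInter_atTop (μ := muN N) (s := fun n => (SS N δ n)ᶜ)
    (fun n => (SS_closed δ n).measurableSet.compl.nullMeasurableSet) hanti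
    ⟨0, measure_ne_top _ _⟩
  have h0 : (muN N) (⋂ n, (SS N δ n)ᶜ) = 0 := by
    unfold muN
    rw [withDensity_apply_eq_zero dens_meas]
    refine measure_mono_null ?_ measure_empty
    rintro θ ⟨h1, h2⟩
    exfalso
    have hpos : 0 < V2 (ez θ) := by
      have h3 : ENNReal.ofReal (V2 (ez θ) / nc N) ≠ 0 := h1
      have h4 : 0 < V2 (ez θ) / nc N := by simpa using h3
      by_contra h5
      have : V2 (ez θ) = 0 := le_antisymm (not_lt.1 h5) (V2_nonneg _)
      rw [this, zero_div] at h4
      exact lt_irrefl _ h4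
    have hinj : Function.Injective (ez θ) := by
      by_contra h6
      rw [Pool.Agent.R319.UM.V2_zero h6] at hpos
      exact lt_irrefl _ hpos
    -- the minimum distance is positive
    obtain ⟨n, hn⟩ : ∃ n : ℕ, ∀ p : Fin N × Fin N, p.1 ≠ p.2 → δ / (n + 1) ≤ ‖ez θ p.1 - ez θ p.2‖ := by
      have : ∀ s : Finset (Fin N × Fin N), ∃ n : ℕ, ∀ p ∈ s, p.1 ≠ p.2 →
          δ / (n + 1) ≤ ‖ez θ p.1 - ez θ p.2‖ := by
        intro s
        classical
        induction s using Finset.induction_on with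
        | empty => exact ⟨0, by simp⟩
        | insert a s _ ih =>
          obtain ⟨n, hn⟩ := ih
          by_cases ha : a.1 = a.2
          · refine ⟨n, fun p hp hne => ?_⟩
            rcases Finset.mem_insert.1 hp with rfl | hp
            · exact absurd ha hne
            · exact hn p hp hne
          · have h1 : 0 < ‖ez θ a.1 - ez θ a.2‖ := norm_pos_iff.2 (sub_ne_zero.2 (hinj.ne ha))
            obtain ⟨m, hm⟩ := exists_nat_ge (δ / ‖ez θ a.1 - ez θ a.2‖)
            refine ⟨max n m, fun p hp hne' => ?_⟩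
            rcases Finset.mem_insert.1 hp with rfl | hp
            · rw [div_le_iff₀ h1] at hm
              rw [div_le_iff₀ (by positivity)]
              have h7 : (m : ℝ) ≤ (max n m : ℕ) := by exact_mod_cast le_max_right n m
              nlinarith
            · refine le_trans ?_ (hn p hp hne')
              have h7 : (n : ℝ) ≤ (max n m : ℕ) := by exact_mod_cast le_max_left n m
              gcongr
      obtain ⟨n, h⟩ := this Finset.univ
      exact ⟨n, fun p => h p (Finset.mem_univ p)⟩
    have h8 := Set.mem_iInter.1 h2 n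
    exact h8 fun i j hij => hn (i, j) hij
  rwa [h0] at h

end

end Pool.Agent.R319.SG
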